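import Pool.Agent.Lib.MP_840f9c_gt.Cnt

namespace Pool.Agent.Lib.MP_840f9c_gt

open Set Topology Filter

theorem z01 : ∀ z : ZMod 2, z = 1 ∨ z = 0 := by decide

def DenseLab (lab : ℝ → Fin 3) : Prop := ∀ w l u, l < u → ∃ x, l < x ∧ x < u ∧ lab x = w

theorem exists_pos {lab : ℝ → Fin 3} (h : DenseLab lab) (w0 w1 w2 : Fin 3) {l u : ℝ}
    (hlu : l < u) : ∃ x0 x1 x2, l < x0 ∧ x0 < x1 ∧ x1 < x2 ∧ x2 < u ∧ lab x0 = w0 ∧ lab x1 = w1 ∧
      lab x2 = w2 := by
  obtain ⟨x0, a1, a2, a3⟩ := h w0 l u hlu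
  obtain ⟨x1, b1, b2, b3⟩ := h w1 x0 u a2
  obtain ⟨x2, c1, c2, c3⟩ := h w2 x1 u b2
  exact ⟨x0, x1, x2, a1, b1, c1, c2, a3, b3, c3⟩

theorem exists_zones {lab : ℝ → Fin 3} (h : DenseLab lab) {N : ℕ} (hN : 0 < N) :
    ∃ a b : Fin 3 → ℕ → ℝ, (∀ w, Zone (a w) N) ∧ (∀ w, Zone (b w) N) ∧
      (∀ w i, lab (a w i) = w) ∧ (∀ w i, lab (b w i) = w) ∧
      (∀ u v i, u < v → a u i < a v i) ∧ (∀ u v i, u < v → b v i < b u i) := by
  have hlt : ∀ i : ℕ, (i : ℝ) / N < (i + 1) / N := fun i =>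
    div_lt_div_of_pos_right (by linarith) (by exact_mod_cast hN)
  choose x0 x1 x2 a1 a2 a3 a4 a5 a6 a7 using fun i : ℕ => exists_pos h 0 1 2 (hlt i)
  choose y0 y1 y2 b1 b2 b3 b4 b5 b6 b7 using fun i : ℕ => exists_pos h 2 1 0 (hlt i)
  refine ⟨![x0, x1, x2], ![y2, y1, y0], fun w => ⟨hN, fun i => ?_⟩, fun w => ⟨hN, fun i => ?_⟩,
    fun w i => ?_, fun w i => ?_, fun u v i huv => ?_, fun u v i huv => ?_⟩
  · have := a1 i; have := a2 i; have := a3 i; have := a4 i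
    fin_cases w <;> simp <;> constructor <;> linarith
  · have := b1 i; have := b2 i; have := b3 i; have := b4 i
    fin_cases w <;> simp <;> constructor <;> linarith
  · fin_cases w <;> simp [*]
  · fin_cases w <;> simp [*]
  · have := a2 i; have := a3 i
    fin_cases u <;> fin_cases v <;> simp at huv ⊢ <;> linarith
  · have := b2 i; have := b3 i
    fin_cases u <;> fin_cases v <;> simp at huv ⊢ <;> linarith

def barTop (w : Fin 3) (x : ℝ) : Prop := (w = 1 ∧ x < 1 / 2) ∨ (w = 0 ∧ 1 / 2 < x)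

theorem fine {lab : ℝ → Fin 3} (h : DenseLab lab) {N : ℕ} (hN : 0 < N) (χ : ℕ → ℕ → ZMod 2) :
    ∃ (a b : Fin 3 → ℕ → ℝ) (g : Fin 3 → ℕ → ℕ → ZMod 2) (lV : ℕ → Fin 3),
      (∀ w, Zone (a w) N) ∧ (∀ w, Zone (b w) N) ∧
      (∀ w i, lab (a w i) = w) ∧ (∀ w i, lab (b w i) = w) ∧
      (∀ i j, j ≤ N → ∑ u, g u i j = χ i j) ∧
      (∀ u i j, j ≤ N → g u (i + 1) j ≠ g u i j → χ (i + 1) j ≠ χ i j) ∧
      (∀ u i j, j < N → g u i (j + 1) ≠ g u i j → χ i (j + 1) ≠ χ i j) ∧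
      (∀ u i, g u (i + 1) 0 ≠ g u i 0 → lV i = u) ∧ (∀ i, lV i ≠ 2) ∧
      (∀ p u v, u ≠ v → LC (fun q : ℝ × ℝ => g u (cnt (a u) N q.1) (cnt (b u) N q.2)) p ∨
        LC (fun q : ℝ × ℝ => g v (cnt (a v) N q.1) (cnt (b v) N q.2)) p) ∧
      (∀ x u, barTop u x →
        LC (fun q : ℝ × ℝ => g u (cnt (a u) N q.1) (cnt (b u) N q.2)) (x, 1)) := by
  obtain ⟨a, b, za, zb, la, lb, ma, mb⟩ := exists_zones h hN
  classical
  obtain ⟨g, lV, lH, g1, g2, g3, g4, g5, g6, g7⟩ := grid N χ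
    (fun i => if a 1 i < 1 / 2 then 1 else 0)
  have hN' : (0 : ℝ) < N := by exact_mod_cast hN
  refine ⟨a, b, g, fun i => lV i 0, za, zb, la, lb, g1, fun u i j hj h => (g2 u i j hj h).2,
    fun u i j hj h => (g3 u i j hj h).2, fun u i h => (g2 u i 0 (by omega) h).1, g4, ?_, ?_⟩
  · have key : ∀ (p : ℝ × ℝ) u v, u ≠ v →
        (∃ i < N, a u i = p.1 ∧ ∃ j ≤ N, ((∀ j' < N, b u j' ≠ p.2) → j = cnt (b u) N p.2) ∧
          g u (i + 1) j ≠ g u i j) →
        (∃ j < N, b v j = p.2 ∧ ∃ i ≤ N, ((∀ i' < N, a v i' ≠ p.1) → i = cnt (a v) N p.1) ∧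
          g v i (j + 1) ≠ g v i j) → False := by
      rintro p u v huv ⟨i, hi, e1, j, hj, e2, e3⟩ ⟨j', hj', f1, i', hi', f2, f3⟩
      have e4 := e2 (fun k _ hk => huv (by rw [← lb u k, hk, ← f1, lb]))
      have f4 := f2 (fun k _ hk => huv (by rw [← la v k, hk, ← e1, la]))
      rw [← f1, (zb u).cnt_eq hj' ((zb v).2 j').1.le ((zb v).2 j').2.le] at e4
      rw [← e1, (za v).cnt_eq hi ((za u).2 i).1.le ((za u).2 i).2.le] at f4
      obtain ⟨p1, p2⟩ := g2 u i j hj e3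
      obtain ⟨q1, q2⟩ := g3 v i' j' hj' f3
      rcases lt_or_gt_of_ne huv with h | h
      · rw [if_neg (lt_asymm (mb u v j' h))] at e4
        rw [if_neg (lt_asymm (ma u v i h))] at f4
        subst e4 f4
        exact huv (by rw [← p1, ← q1, g7 _ _ hj' p2 q2])
      · rw [if_pos (mb v u j' h)] at e4
        rw [if_pos (ma v u i h)] at f4
        subst e4 f4
        exact huv (by rw [← p1, ← q1, g6 _ _ hj' p2 q2])
    intro p u v huv
    by_contra hh
    push Not at hh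
    rcases jump (za u) (zb u) (g u) p hh.1 with h1 | h1 <;>
      rcases jump (za v) (zb v) (g v) p hh.2 with h2 | h2
    · obtain ⟨i, -, e, -⟩ := h1
      obtain ⟨i', -, e', -⟩ := h2
      exact huv (by rw [← la u i, e, ← e', la])
    · exact key p u v huv h1 h2
    · exact key p v u huv.symm h2 h1
    · obtain ⟨i, -, e, -⟩ := h1
      obtain ⟨i', -, e', -⟩ := h2
      exact huv (by rw [← lb u i, e, ← e', lb])
  · intro x u hb
    by_contra hh
    have b1 : ∀ j < N, b u j ≠ 1 := fun j hj => by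
      have := (zb u).lt_of_le hj
      rw [div_self hN'.ne'] at this
      exact this.ne
    rcases jump (za u) (zb u) (g u) _ hh with ⟨i, hi, e1, j, hj, e2, e3⟩ | ⟨j, hj, e, -⟩
    · have e4 := e2 b1
      have e5 : cnt (b u) N 1 = N :=
        le_antisymm (cnt_le _ _ _) ((zb u).le_cnt le_rfl (by rw [div_self hN'.ne']))
      simp only [e5] at e4 e1
      subst e4
      have := g5 i
      rw [(g2 u i j hj e3).1] at this
      rcases hb with ⟨rfl, hx⟩ | ⟨rfl, hx⟩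
      · rw [if_pos (by rwa [e1])] at this
        exact this rfl
      · rw [if_neg (by linarith [ma 0 1 i (by decide)])] at this
        exact this rfl
    · exact b1 j hj e

theorem four {g : Fin 3 → ℕ → ℕ → ZMod 2} {χ : ℕ → ℕ → ZMod 2} {N : ℕ}
    (g2 : ∀ u i j, j ≤ N → g u (i + 1) j ≠ g u i j → χ (i + 1) j ≠ χ i j)
    (g3 : ∀ u i j, j < N → g u i (j + 1) ≠ g u i j → χ i (j + 1) ≠ χ i j)
    {i j : ℕ} (hj : j < N) {z : ZMod 2} (h1 : χ i j = z) (h2 : χ (i + 1) j = z)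
    (h3 : χ i (j + 1) = z) (h4 : χ (i + 1) (j + 1) = z) (u : Fin 3) (P Q : Prop) [Decidable P]
    [Decidable Q] : g u (if P then i + 1 else i) (if Q then j + 1 else j) = g u i j := by
  have e1 : g u (i + 1) j = g u i j := by
    by_contra h
    exact g2 u i j hj.le h (h2.trans h1.symm)
  have e2 : g u i (j + 1) = g u i j := by
    by_contra h
    exact g3 u i j hj h (h3.trans h1.symm)
  have e3 : g u (i + 1) (j + 1) = g u i (j + 1) := by
    by_contra h
    exact g2 u i (j + 1) hj h (h4.trans h3.symm)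
  split_ifs <;> simp [e1, e2, e3]

theorem page {lab : ℝ → Fin 3} (h : DenseLab lab) {K : ℕ} (hK : 0 < K) (χ0 : ℕ → ZMod 2)
    (A : ZMod 2 → Set (ℝ × ℝ)) {η : ℝ} (hη : 0 < η) (hAB : ∀ a ∈ A 1, ∀ b ∈ A 0, η ≤ dist a b)
    (hA : ∀ z, ∀ a ∈ A z, ∀ c : ℕ, a.2 ≤ 2 / K → |a.1 - c / K| ≤ 2 / K → χ0 c = z) :
    ∃ w : ℕ → Fin 3, ∀ d : ℕ → ℝ, Zone d K → (∀ c, lab (d c) = w c) →
      ∃ (s : Fin 3 → ℝ × ℝ → ZMod 2) (C : Set ℝ), C.Countable ∧
        (∀ u, Split (C ∩ {x | lab x = u}) (s u)) ∧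
        (∀ p ∈ Icc 0 1 ×ˢ Icc 0 1, ∀ u v, u ≠ v → LC (s u) p ∨ LC (s v) p) ∧
        (∀ x ∈ Icc 0 1, LC (s 2) (x, 0)) ∧ (∀ x u, barTop u x → LC (s u) (x, 1)) ∧
        (∀ z, ∀ a ∈ A z, ∀ᶠ p in 𝓝 a, p ∈ Icc 0 1 ×ˢ Icc 0 1 → ∑ u, s u p = z) ∧
        (∀ p : ℝ × ℝ, p.2 ≤ 1 / (2 * K) → ∑ u, s u p = χ0 (cnt d K p.1)) := by
  classical
  have hK' : (0 : ℝ) < K := by exact_mod_cast hK
  obtain ⟨e, he0, he1, he2⟩ : ∃ e : ℝ, 0 < e ∧ 4 * e ≤ η ∧ 2 * e ≤ 1 / K :=
    ⟨min (η / 4) (1 / (2 * K)), by positivity, by linarith [min_le_left (η / 4) (1 / (2 * K))], by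
      have := min_le_right (η / 4) (1 / (2 * K) : ℝ)
      have e : (1 : ℝ) / K = 2 * (1 / (2 * K)) := by field_simp
      linarith⟩
  obtain ⟨M, hM0, hM⟩ : ∃ M : ℕ, 0 < M ∧ 1 / (M : ℝ) < e := by
    obtain ⟨n, hn⟩ := exists_nat_one_div_lt he0
    exact ⟨n + 1, by omega, by exact_mod_cast hn⟩
  have hM' : (0 : ℝ) < M := by exact_mod_cast hM0
  set N := K * M with hNdef
  have hN : 0 < N := by positivity
  have hN' : (0 : ℝ) < N := by exact_mod_cast hN
  have hNe : 1 / (N : ℝ) < e := by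
    refine lt_of_le_of_lt (one_div_le_one_div_of_le hM' ?_) hM
    exact_mod_cast Nat.le_mul_of_pos_left M hK
  have hMN : M ≤ N := Nat.le_mul_of_pos_left M hK
  have cM : ∀ c : ℕ, ((c * M : ℕ) : ℝ) / N = c / K := fun c => by
    rw [hNdef]
    push_cast
    field_simp
  let χ : ℕ → ℕ → ZMod 2 := fun i j => if j ≤ M then χ0 (i / M) else
    if ∃ a ∈ A 1, dist a (i / N, j / N) < 2 * e then 1 else 0
  have hχ : ∀ z, ∀ a ∈ A z, ∀ i j : ℕ, dist a (i / N, j / N) < 2 * e → χ i j = z := by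
    intro z a ha i j hd
    simp only [χ]
    split_ifs with h1 h2
    · rw [Prod.dist_eq, max_lt_iff, Real.dist_eq, Real.dist_eq, abs_lt, abs_lt] at hd
      have q1 : (j : ℝ) / N ≤ 1 / K := by
        have := cM 1
        rw [one_mul, Nat.cast_one] at this
        rw [← this]
        exact div_le_div_of_nonneg_right (by exact_mod_cast h1) hN'.le
      have q2 : ((i / M : ℕ) : ℝ) / K ≤ i / N := by
        rw [← cM]
        exact div_le_div_of_nonneg_right (by exact_mod_cast Nat.div_mul_le_self i M) hN'.le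
      have q3 : (i : ℝ) / N ≤ ((i / M : ℕ) : ℝ) / K + 1 / K := by
        rw [← add_div, ← Nat.cast_succ, ← cM]
        refine div_le_div_of_nonneg_right ?_ hN'.le
        have := Nat.lt_div_mul_add (a := i) hM0
        exact_mod_cast (by rw [Nat.succ_mul]; omega : i ≤ (i / M).succ * M)
      have q4 : (2 : ℝ) / K = 1 / K + 1 / K := by ring
      refine hA z a ha _ (by linarith [hd.2.2]) (abs_le.2 ⟨?_, ?_⟩) <;> linarith [hd.1.1, hd.1.2]
    · obtain ⟨a', ha', hd'⟩ := h2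
      rcases z01 z with rfl | rfl
      · rfl
      · have := hAB a' ha' a ha
        linarith [dist_triangle_right a' a (i / N, j / N)]
    · rcases z01 z with rfl | rfl
      · exact (h2 ⟨a, ha, hd⟩).elim
      · rfl
  obtain ⟨a, b, g, lV, za, zb, la, lb, g1, g2, g3, g4, g5, g6, g7⟩ := fine h hN χ
  have hlt : 1 / (2 * K : ℝ) < 1 / K := one_div_lt_one_div_of_lt hK' (by linarith)
  choose t t1 t2 t3 using fun u => h u _ _ hlt
  refine ⟨fun c => lV (c * M + (M - 1)), fun d zd ld => ?_⟩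
  let G : Fin 3 → ℕ → ZMod 2 := fun u c => g u (c * M) 0
  have F1 : ∀ i j, j ≤ M → χ i j = χ0 (i / M) := fun i j hj => by simp only [χ, if_pos hj]
  have F2 : ∀ u i j, j ≤ M → g u i j = g u i 0 := by
    intro u i j hj
    induction j with
    | zero => rfl
    | succ j ih =>
      rw [← ih (by omega)]
      by_contra hh
      exact g3 u i j (by omega) hh (by rw [F1 _ _ hj, F1 _ _ (by omega)])
  have F3 : ∀ u i, g u i 0 = G u (i / M) := by
    intro u i
    induction i with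
    | zero => simp [G]
    | succ i ih =>
      by_cases hd : M ∣ i + 1
      · simp only [G, Nat.div_mul_cancel hd]
      · have e : (i + 1) / M = i / M := by rw [Nat.succ_div, if_neg hd, add_zero]
        rw [e, ← ih]
        by_contra hh
        exact g2 u i 0 (by omega) hh (by rw [F1 _ _ (by omega), F1 _ _ (by omega), e])
  have F4 : ∀ u c, G u (c + 1) ≠ G u c → lV (c * M + (M - 1)) = u ∧ χ0 (c + 1) ≠ χ0 c := by
    intro u c hc
    have e1 : (c * M + (M - 1)) / M = c := by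
      rw [add_comm, Nat.add_mul_div_right _ _ hM0, Nat.div_eq_of_lt (by omega), zero_add]
    have e2 : c * M + (M - 1) + 1 = (c + 1) * M := by
      rw [Nat.succ_mul]
      omega
    have e3 : g u (c * M + (M - 1) + 1) 0 ≠ g u (c * M + (M - 1)) 0 := by
      rwa [F3 u (c * M + (M - 1)), e1, e2]
    refine ⟨g4 u _ e3, ?_⟩
    have := g2 u _ 0 (by omega) e3
    rwa [F1 _ _ (by omega), F1 _ _ (by omega), e1, e2, Nat.mul_div_cancel _ hM0] at this
  have F5 : ∀ c, ∑ u, G u c = χ0 c := fun c => by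
    rw [g1 _ _ (by omega), F1 _ _ (by omega), Nat.mul_div_cancel _ hM0]
  let s : Fin 3 → ℝ × ℝ → ZMod 2 := fun u p => if p.2 < t u then G u (cnt d K p.1) else
    g u (cnt (a u) N p.1) (cnt (b u) N p.2)
  have F6 : ∀ u (p : ℝ × ℝ), p.2 ≤ 1 / K →
      s u p = G u (cnt d K p.1) ∨ s u p = G u (cnt (a u) N p.1 / M) := by
    intro u p hp
    simp only [s]
    split_ifs
    · exact Or.inl rfl
    · right
      rw [F2 _ _ _ ((zb u).cnt_le (by rwa [← one_mul M, cM, Nat.cast_one])), F3]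
  have F7 : ∀ u (c : ℕ) (p : ℝ × ℝ), c < K → p.2 ≤ 1 / K → c / K ≤ p.1 → p.1 ≤ (c + 1) / K →
      G u (c + 1) = G u c → s u p = G u c := by
    intro u c p hc hp h1 h2 hG
    rcases F6 u p hp with h | h
    · rw [h, zd.cnt_eq hc h1 h2]
      split_ifs <;> simp [hG]
    · have k1 : c * M ≤ cnt (a u) N p.1 :=
        (za u).le_cnt (Nat.mul_le_mul_right _ hc.le) (by rwa [cM])
      have k2 : cnt (a u) N p.1 ≤ (c + 1) * M := (za u).cnt_le (by rw [cM]; push_cast; exact h2)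
      have k3 := (Nat.le_div_iff_mul_le hM0).2 k1
      have k4 : cnt (a u) N p.1 / M ≤ c + 1 := Nat.div_le_of_le_mul (by rwa [mul_comm])
      rw [h]
      rcases k3.eq_or_lt with k | k
      · rw [← k]
      · rw [le_antisymm k4 k, hG]
  have low : ∀ p : ℝ × ℝ, 0 ≤ p.1 → p.1 ≤ 1 → p.2 < 1 / K →
      ∃ c, ∀ u, G u (c + 1) = G u c → LC (s u) p := by
    intro p h0 h1 hp
    have m2 : ∀ᶠ q : ℝ × ℝ in 𝓝 p, q.2 < 1 / K :=
      continuous_snd.continuousAt.eventually (gt_mem_nhds hp)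
    have grid_pt : ∀ m ≤ K, p.1 = m / K → ∀ u, LC (s u) p := by
      intro m hm hx u
      have k1 := zd.cnt_grid hm
      have k2 := (za u).cnt_grid (Nat.mul_le_mul_right M hm)
      rw [cM] at k2
      rw [← hx] at k1 k2
      refine lc_of (c := G u m) ?_
      filter_upwards [m2, continuous_fst.continuousAt.eventually k1,
        continuous_fst.continuousAt.eventually k2] with q q1 q2 q3
      rcases F6 u q q1.le with h | h
      · rw [h, q2]
      · rw [h, q3, Nat.mul_div_cancel _ hM0]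
    obtain ⟨c, hc, c1, c2⟩ := exists_col hK h0 h1
    refine ⟨c, fun u hG => ?_⟩
    rcases c1.eq_or_lt with c1 | c1
    · exact grid_pt c hc.le c1.symm u
    rcases c2.eq_or_lt with c2 | c2
    · exact grid_pt (c + 1) hc (by rw [c2]; push_cast; rfl) u
    refine lc_of (c := G u c) ?_
    filter_upwards [m2, continuous_fst.continuousAt.eventually (Ioo_mem_nhds c1 c2)] with q q1 q2
    exact F7 u c q hc q1.le q2.1.le q2.2.le hG
  have high : ∀ u (p : ℝ × ℝ), 1 / K ≤ p.2 →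
      LC (fun q : ℝ × ℝ => g u (cnt (a u) N q.1) (cnt (b u) N q.2)) p → LC (s u) p := by
    intro u p hp hl
    refine lc_of (c := g u (cnt (a u) N p.1) (cnt (b u) N p.2)) ?_
    filter_upwards [hl, continuous_snd.continuousAt.eventually
      (lt_mem_nhds ((t2 u).trans_le hp))] with q q1 q2
    simp only [s, if_neg (lt_asymm q2), q1]
  let C : Set ℝ := (⋃ u, range (a u) ∪ range (b u)) ∪ range d ∪ range t
  refine ⟨s, C, ((countable_iUnion fun u => (countable_range _).union (countable_range _)).union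
    (countable_range _)).union (countable_range _), fun u => ?_, ?_, ?_, ?_, ?_, ?_⟩
  · have s1 : Split1 (C ∩ {x | lab x = u}) fun x => G u (cnt d K x) :=
      zd.split (G u) fun c _ hc => ⟨Or.inl (Or.inr ⟨c, rfl⟩), (ld c).trans (F4 u c hc).1⟩
    have s2 : Split1 (C ∩ {x | lab x = u}) fun x => id (cnt (a u) N x) :=
      (za u).split id fun i _ _ => ⟨Or.inl (Or.inl (mem_iUnion.2 ⟨u, Or.inl ⟨i, rfl⟩⟩)), la u i⟩
    have s3 : Split1 (C ∩ {x | lab x = u}) fun x => id (cnt (b u) N x) :=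
      (zb u).split id fun i _ _ => ⟨Or.inl (Or.inl (mem_iUnion.2 ⟨u, Or.inr ⟨i, rfl⟩⟩)), lb u i⟩
    have s4 := split_lt (D := C ∩ {x | lab x = u}) (b := t u) ⟨Or.inr ⟨u, rfl⟩, t3 u⟩
    have := (s1.pair s2).split (s4.pair s3) (fun x y => if y.1 then x.1 else g u x.2 y.2)
    simpa [s] using this
  · rintro p ⟨⟨h0, h1⟩, -⟩ u v huv
    rcases lt_or_ge p.2 (1 / K) with hp | hp
    · obtain ⟨c, hc⟩ := low p h0 h1 hp
      by_contra hh
      push Not at hh
      exact huv ((F4 u c fun h => hh.1 (hc u h)).1.symm.trans (F4 v c fun h => hh.2 (hc v h)).1)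
    · exact (g6 p u v huv).imp (high u p hp) (high v p hp)
  · rintro x ⟨h0, h1⟩
    obtain ⟨c, hc⟩ := low (x, 0) h0 h1 (by positivity)
    by_contra hh
    exact g5 _ (F4 2 c fun h => hh (hc 2 h)).1
  · intro x u hb
    refine high u _ ?_ (g7 x u hb)
    rw [div_le_one hK']
    exact_mod_cast hK
  · intro z q hq
    filter_upwards [Metric.ball_mem_nhds q he0] with p hp
    rintro ⟨⟨x0, x1⟩, ⟨y0, y1⟩⟩
    rw [Metric.mem_ball, Prod.dist_eq, max_lt_iff, Real.dist_eq, Real.dist_eq, abs_lt,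
      abs_lt] at hp
    have q4 : (2 : ℝ) / K = 1 / K + 1 / K := by ring
    rcases le_or_gt p.2 (1 / K) with hy | hy
    · obtain ⟨c, hc, c1, c2⟩ := exists_col hK x0 x1
      have q5 : ((c : ℝ) + 1) / K = c / K + 1 / K := by ring
      have k1 : χ0 c = z := hA z q hq c (by linarith [hp.2.1])
        (abs_le.2 ⟨by linarith [hp.1.2], by linarith [hp.1.1]⟩)
      have k2 : χ0 (c + 1) = z := hA z q hq (c + 1) (by linarith [hp.2.1])
        (by push_cast; exact abs_le.2 ⟨by linarith [hp.1.2], by linarith [hp.1.1]⟩)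
      rw [← k1, ← F5]
      refine Finset.sum_congr rfl fun u _ => F7 u c p hc hy c1 c2 ?_
      by_contra hh
      exact (F4 u c hh).2 (k2.trans k1.symm)
    · obtain ⟨i, hi, i1, i2⟩ := exists_col hN x0 x1
      obtain ⟨j, hj, j1, j2⟩ := exists_col hN y0 y1
      have q5 : ((i : ℝ) + 1) / N = i / N + 1 / N := by ring
      have q6 : ((j : ℝ) + 1) / N = j / N + 1 / N := by ring
      have k : ∀ i' j' : ℕ, (i' = i ∨ i' = i + 1) → (j' = j ∨ j' = j + 1) → χ i' j' = z := by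
        intro i' j' hi' hj'
        refine hχ z q hq i' j' ?_
        rw [Prod.dist_eq, max_lt_iff, Real.dist_eq, Real.dist_eq, abs_lt, abs_lt]
        rcases hi' with rfl | rfl <;> rcases hj' with rfl | rfl <;> push_cast <;>
          refine ⟨⟨?_, ?_⟩, ?_, ?_⟩ <;> linarith [hp.1.1, hp.1.2, hp.2.1, hp.2.2]
      rw [← k i j (by simp) (by simp), ← g1 i j hj.le]
      refine Finset.sum_congr rfl fun u _ => ?_
      simp only [s, if_neg (lt_asymm ((t2 u).trans hy))]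
      rw [(za u).cnt_eq hi i1 i2, (zb u).cnt_eq hj j1 j2]
      exact four g2 g3 hj (k _ _ (by simp) (by simp)) (k _ _ (by simp) (by simp))
        (k _ _ (by simp) (by simp)) (k _ _ (by simp) (by simp)) u _ _
  · intro p hp
    rw [← F5]
    exact Finset.sum_congr rfl fun u _ => by simp only [s, if_pos (hp.trans_lt (t1 u))]

end Pool.Agent.Lib.MP_840f9c_gt
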