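import Pool.Agent.Lib.MP_840f9c_gt.Gadget
import Pool.Agent.Lib.MP_840f9c_gt.Page

namespace Pool.Agent.Lib.MP_840f9c_gt

open Set Topology Filter unitInterval LMC

theorem exists_cls : ∃ cls : ℝ → ℕ → Fin 3, ∀ w l u, l < u → ∃ x, l < x ∧ x < u ∧ cls x = w := by
  let H : AddSubgroup ℝ := (Rat.castHom ℝ).toAddMonoidHom.range
  have hH : Countable H := (countable_range (fun q : ℚ => (q : ℝ))).to_subtype
  have h1 : Cardinal.mk (ℕ → Fin 3) ≤ Cardinal.mk (ℝ ⧸ H) := by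
    have e1 : Cardinal.mk (ℕ → Fin 3) = Cardinal.continuum := by
      simpa using Cardinal.nat_power_aleph0 (n := 3) (by norm_num)
    rw [e1]
    by_contra hh
    have e2 := Cardinal.mk_congr (AddSubgroup.addGroupEquivQuotientProdAddSubgroup (s := H))
    rw [Cardinal.mk_real, Cardinal.mk_prod, Cardinal.lift_id, Cardinal.lift_id] at e2
    exact (Cardinal.mul_lt_of_lt Cardinal.aleph0_le_continuum (not_le.1 hh)
      (Cardinal.mk_le_aleph0.trans_lt Cardinal.aleph0_lt_continuum)).ne e2.symm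
  obtain ⟨e⟩ := (Cardinal.le_def _ _).1 h1
  refine ⟨fun x => Function.invFun e (QuotientAddGroup.mk x), fun w l u hlu => ?_⟩
  obtain ⟨r, hr⟩ := QuotientAddGroup.mk_surjective (e w)
  obtain ⟨q, q1, q2⟩ := exists_rat_btwn (show l - r < u - r by linarith)
  refine ⟨r + q, by linarith, by linarith, ?_⟩
  have : (QuotientAddGroup.mk (r + q) : ℝ ⧸ H) = QuotientAddGroup.mk r :=
    QuotientAddGroup.mk_add_of_mem r ⟨q, rfl⟩
  simp only [this, hr]
  exact Function.leftInverse_invFun e.injective w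

noncomputable def lab (k : ℕ) (x : ℝ) : Fin 3 := exists_cls.choose x k

theorem lab_vec (w : ℕ → Fin 3) {l u : ℝ} (h : l < u) : ∃ x, l < x ∧ x < u ∧ ∀ k, lab k x = w k := by
  obtain ⟨x, h1, h2, h3⟩ := exists_cls.choose_spec w l u h
  exact ⟨x, h1, h2, fun k => congrFun h3 k⟩

theorem denseLab (k : ℕ) : DenseLab (lab k) := fun w _ _ h =>
  let ⟨x, h1, h2, h3⟩ := lab_vec (fun _ => w) h
  ⟨x, h1, h2, h3 k⟩

/-- A book with countably many pages, carrying the metric (hedgehog) topology. -/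
abbrev Bk : Type := {s : (ℕ → ℝ) × (I × I) // ∃ k, s.1 = Pi.single k (s.2.2 : ℝ)}

def xy (s : Bk) : I × I := s.1.2

def pg (k : ℕ) (q : I × I) : Bk := ⟨(Pi.single k (q.2 : ℝ), q), k, rfl⟩

@[simp] theorem xy_pg (k : ℕ) (q : I × I) : xy (pg k q) = q := rfl

theorem continuous_xy : Continuous xy := continuous_snd.comp continuous_subtype_val

theorem continuous_pg (k : ℕ) : Continuous (pg k) := by
  refine Continuous.subtype_mk (Continuous.prodMk ?_ continuous_id) _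
  exact (continuous_single k).comp (continuous_subtype_val.comp continuous_snd)

theorem continuous_co (k : ℕ) : Continuous fun s : Bk => s.1.1 k :=
  (continuous_apply k).comp (continuous_fst.comp continuous_subtype_val)

theorem injective_pg (k : ℕ) : Function.Injective (pg k) := fun _ _ h => congrArg xy h

theorem isClosedEmbedding_pg (k : ℕ) : IsClosedEmbedding (pg k) :=
  (continuous_pg k).isClosedEmbedding (injective_pg k)

theorem exists_pg (s : Bk) : ∃ k, s = pg k (xy s) := by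
  obtain ⟨⟨f, q⟩, k, h⟩ := s
  exact ⟨k, Subtype.ext (Prod.ext h rfl)⟩

theorem pg_zero (k : ℕ) (x : I) : pg k (x, 0) = pg 0 (x, 0) := by
  simp [pg]

theorem co_pg (k j : ℕ) (q : I × I) : (pg k q).1.1 j = if j = k then (q.2 : ℝ) else 0 := by
  simp [pg, Pi.single_apply]

theorem mem_range_pg {k : ℕ} {s : Bk} (h : 0 < s.1.1 k) : s ∈ range (pg k) := by
  obtain ⟨j, hj⟩ := exists_pg s
  rw [hj, co_pg] at h
  split_ifs at h with e
  · exact ⟨_, e ▸ hj.symm⟩
  · exact (lt_irrefl _ h).elim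

theorem pos_nhds (k : ℕ) {q : I × I} (h : q.2 ≠ 0) : {s : Bk | 0 < s.1.1 k} ∈ 𝓝 (pg k q) := by
  refine (isOpen_lt continuous_const (continuous_co k)).mem_nhds ?_
  simp only [mem_setOf_eq, co_pg, if_true]
  exact_mod_cast (unitInterval.pos_iff_ne_zero.2 h)

theorem map_pg (k : ℕ) {q : I × I} (h : q.2 ≠ 0) : map (pg k) (𝓝 q) = 𝓝 (pg k q) :=
  (isClosedEmbedding_pg k).isInducing.map_nhds_of_mem q
    (mem_of_superset (pos_nhds k h) fun _ hs => mem_range_pg hs)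

theorem comap_xy (x : I) : comap xy (𝓝 (x, 0)) ≤ 𝓝 (pg 0 (x, 0)) := by
  have h : Tendsto xy (comap xy (𝓝 (x, 0))) (𝓝 (x, 0)) := tendsto_comap
  have h2 : Tendsto (fun s => ((xy s).2 : ℝ)) (comap xy (𝓝 (x, 0))) (𝓝 0) :=
    ((continuous_subtype_val.comp continuous_snd).tendsto _).comp h
  rw [← tendsto_id', tendsto_subtype_rng]
  refine Tendsto.prodMk_nhds (tendsto_pi_nhds.2 fun j => ?_) h
  simp only [id, Icc.coe_zero, Pi.single_zero, Pi.zero_apply]
  refine squeeze_zero (fun s => ?_) (fun s => ?_) h2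
  all_goals
    obtain ⟨k, hk⟩ := exists_pg s
    rw [hk, co_pg]
    split_ifs <;> simp [(xy s).2.2.1]

theorem bind_mem {A : Set Bk} (hA : IsClosed A) {x : I} (h : (x, 0) ∈ closure (xy '' A)) :
    pg 0 (x, 0) ∈ A := by
  rw [← hA.closure_eq, mem_closure_iff_nhds]
  intro U hU
  obtain ⟨O, hO, hsub⟩ := comap_xy x hU
  obtain ⟨_, h1, a, ha, rfl⟩ := mem_closure_iff_nhds.1 h O hO
  exact ⟨a, hsub h1, ha⟩

theorem exists_delta {G : Set Bk} (hG : IsOpen G) (h : ∀ x, pg 0 (x, 0) ∈ G) :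
    ∃ δ > 0, ∀ s, ((xy s).2 : ℝ) < δ → s ∈ G := by
  rcases (closure (xy '' Gᶜ)).eq_empty_or_nonempty with he | hne
  · refine ⟨1, one_pos, fun s _ => ?_⟩
    by_contra hs
    exact he.subset (subset_closure ⟨s, hs, rfl⟩)
  · obtain ⟨q, hq, hmin⟩ := isClosed_closure.isCompact.exists_isMinOn hne
      (continuous_subtype_val.comp continuous_snd).continuousOn
    refine ⟨q.2, ?_, fun s hs => ?_⟩
    · have : q.2 ≠ 0 := fun e => bind_mem hG.isClosed_compl (x := q.1) (by rwa [← e]) (h _)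
      exact_mod_cast (unitInterval.pos_iff_ne_zero.2 this)
    · by_contra hs'
      exact not_le.2 hs (hmin (subset_closure ⟨s, hs', rfl⟩))

instance : SigmaCompactSpace Bk :=
  ⟨⟨fun k => range (pg k), fun k => isCompact_range (continuous_pg k),
    eq_univ_of_forall fun s => let ⟨k, hk⟩ := exists_pg s; mem_iUnion.2 ⟨k, _, hk.symm⟩⟩⟩

def ok (k : ℕ) (w : Fin 3) (o : Option Bool) (x : ℝ) : Prop := o = none → lab k x = w

def sec (ox oy : Option Bool) (q : I × I) : Set (I × I) :=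
  {q' | side ox q.1 q'.1 ∧ side oy q.2 q'.2}

def bar (w : Fin 3) (q : I × I) : Prop := (w = 2 ∧ q.2 = 0) ∨ (q.2 = 1 ∧ barTop w q.1)

def Klow : Set Bk := {s | ∀ k : ℕ, s.1.1 k ≤ 1 / (k + 1)}

def Loc (p : ℕ∞ → Bk) : Prop := (∀ n, p n ∈ Klow) ∨
  ∃ k, (∀ n, p n ∈ range (pg k)) ∧ ∀ n n', ((xy (p n)).2 : ℝ) ≤ 2 * (xy (p n')).2

def AdmP (p : ℕ∞ → Bk) : Prop := ∃ (k : ℕ) (q : C(ℕ∞, I × I)) (u : Bool → Fin 3)
  (ox oy : Bool → Option Bool), (∀ n, p n = pg k (q n)) ∧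
    (∀ c, ok k (u c) (ox c) (q ⊤).1 ∧ ok k (u c) (oy c) (q ⊤).2) ∧
    (∀ n : ℕ, q n ∈ sec (ox (par n)) (oy (par n)) (q ⊤)) ∧
    (u true ≠ u false ∨ bar (u true) (q ⊤))

def AdmG (p : ℕ∞ → Bk) : Prop :=
  ∃ (x : I) (b : Bool), p ⊤ = pg 0 (x, 0) ∧ ∀ n : ℕ, side (some b) x (xy (p n)).1

def Adm : Type := {p : C(ℕ∞, Bk) // Loc p ∧ (AdmP p ∨ AdmG p)}

abbrev psiY : ℝ × Adm → C(RR, Bk) := fun i => i.2.1.comp rho

/-- The second factor. -/
abbrev YY : Type := LMC psiY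

instance : T2Space YY := inferInstance

instance : RegularSpace YY := inferInstance

instance : SigmaCompactSpace YY := inferInstance

instance : NormalSpace YY := NormalSpace.of_regularSpace_lindelofSpace

instance : NormalSpace (ℕ∞ × YY) := NormalSpace.of_regularSpace_lindelofSpace

theorem lf_YY : LF (univ : Set YY) := by
  intro D hD _ hb s
  let F : Set Bk → Set (ℝ × Adm) := fun G => {i | ∃ e, lv psiY i e ∈ D ∧ psiY i e ∈ G}
  have f1 : ∀ k, (F (range (pg k))).Finite := by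
    intro k
    obtain ⟨G, -, h1, h2⟩ := fin_compact hD hb (isCompact_range (continuous_pg k))
    exact h2.subset fun i ⟨e, a, b⟩ => ⟨e, a, h1 b⟩
  obtain ⟨δ, hδ, f2⟩ : ∃ δ > 0, (F {s | ((xy s).2 : ℝ) < δ}).Finite := by
    obtain ⟨G, hG, h1, h2⟩ := fin_compact hD hb (isCompact_range (continuous_pg 0))
    obtain ⟨δ, hδ, h3⟩ := exists_delta hG (fun x => h1 ⟨_, rfl⟩)
    exact ⟨δ, hδ, h2.subset fun i ⟨e, a, b⟩ => ⟨e, a, h3 _ b⟩⟩
  have f3 : (F Klow).Finite := by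
    obtain ⟨K, hK⟩ := exists_nat_one_div_lt hδ
    refine (f2.union ((finite_lt_nat K).biUnion fun k _ => f1 k)).subset ?_
    rintro i ⟨e, a, b⟩
    obtain ⟨k, hk⟩ := exists_pg (psiY i e)
    by_cases h : k < K
    · exact Or.inr (mem_biUnion h ⟨e, a, _, hk.symm⟩)
    · refine Or.inl ⟨e, a, ?_⟩
      have := b k
      rw [hk, co_pg, if_pos rfl] at this
      exact this.trans_lt ((Nat.one_div_le_one_div (not_lt.1 h)).trans_lt hK)
  obtain ⟨k, hk⟩ := exists_pg s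
  by_cases hs : (xy s).2 = 0
  · refine ⟨{s | ((xy s).2 : ℝ) < δ / 2}, (isOpen_lt (continuous_subtype_val.comp
      (continuous_snd.comp continuous_xy)) continuous_const).mem_nhds (by simpa [hs]),
      (f3.union f2).subset ?_⟩
    rintro i ⟨⟨e, he⟩, e', -, he'⟩
    rcases i.2.2.1 with h | ⟨k, -, h⟩
    · exact Or.inl ⟨e, he, h _⟩
    · refine Or.inr ⟨e, he, (h (rho e) (rho e')).trans_lt ?_⟩
      have : ((xy (i.2.1 (rho e'))).2 : ℝ) < δ / 2 := he'
      linarith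
  · refine ⟨{s : Bk | 0 < s.1.1 k}, hk ▸ pos_nhds k hs, (f3.union (f1 k)).subset ?_⟩
    rintro i ⟨⟨e, he⟩, e', -, he'⟩
    rcases i.2.2.1 with h | ⟨k', h, -⟩
    · exact Or.inl ⟨e, he, h _⟩
    · obtain ⟨q, hq⟩ := h (rho e')
      have : 0 < (i.2.1 (rho e')).1.1 k := he'
      rw [← hq, co_pg] at this
      split_ifs at this with e
      · exact Or.inr ⟨_, he, e ▸ h _⟩
      · exact (lt_irrefl _ this).elim

end Pool.Agent.Lib.MP_840f9c_gt
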