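import Pool.Agent.Lib.MP_840f9c_gt.Grid

namespace Pool.Agent.Lib.MP_840f9c_gt

open Set Topology Filter

open Classical in
noncomputable def cnt (a : ℕ → ℝ) (N : ℕ) (x : ℝ) : ℕ :=
  ((Finset.range N).filter (fun i => a i < x)).card

def Zone (a : ℕ → ℝ) (N : ℕ) : Prop := 0 < N ∧ ∀ i : ℕ, (i : ℝ) / N < a i ∧ a i < (i + 1) / N

variable {a : ℕ → ℝ} {N : ℕ} {x : ℝ}

theorem cnt_le (a : ℕ → ℝ) (N : ℕ) (x : ℝ) : cnt a N x ≤ N := by
  classical
  exact (Finset.card_filter_le _ _).trans (by simp)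

theorem Zone.lt_of_le (h : Zone a N) {i m : ℕ} (him : i < m) : a i < m / N := by
  have hN : (0 : ℝ) < N := by exact_mod_cast h.1
  refine (h.2 i).2.trans_le (div_le_div_of_nonneg_right ?_ hN.le)
  exact_mod_cast him

theorem Zone.gt_of_le (h : Zone a N) {i m : ℕ} (him : m ≤ i) : m / N < a i := by
  have hN : (0 : ℝ) < N := by exact_mod_cast h.1
  refine lt_of_le_of_lt (div_le_div_of_nonneg_right ?_ hN.le) (h.2 i).1
  exact_mod_cast him

theorem Zone.cnt_le (h : Zone a N) {m : ℕ} (hx : x ≤ m / N) : cnt a N x ≤ m := by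
  classical
  refine (Finset.card_le_card (t := Finset.range m) ?_).trans (by simp)
  intro i hi
  simp only [Finset.mem_filter, Finset.mem_range] at hi ⊢
  by_contra hh
  linarith [h.gt_of_le (not_lt.1 hh)]

theorem Zone.le_cnt (h : Zone a N) {m : ℕ} (hm : m ≤ N) (hx : m / N ≤ x) : m ≤ cnt a N x := by
  classical
  refine le_trans (by simp) (Finset.card_le_card (s := Finset.range m) ?_)
  intro i hi
  simp only [Finset.mem_filter, Finset.mem_range] at hi ⊢
  exact ⟨by omega, (h.lt_of_le hi).trans_le hx⟩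

theorem Zone.cnt_eq (h : Zone a N) {i : ℕ} (hi : i < N) (h1 : i / N ≤ x) (h2 : x ≤ (i + 1) / N) :
    cnt a N x = if a i < x then i + 1 else i := by
  classical
  have : (Finset.range N).filter (fun i => a i < x) =
      Finset.range (if a i < x then i + 1 else i) := by
    ext k
    simp only [Finset.mem_filter, Finset.mem_range]
    rcases lt_trichotomy k i with hk | rfl | hk
    · have := h.lt_of_le hk
      exact ⟨fun _ => by split_ifs <;> omega, fun _ => ⟨by omega, by linarith⟩⟩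
    · split_ifs with h' <;> simp [h', hi]
    · have := h.gt_of_le (show i + 1 ≤ k from hk)
      push_cast at this
      exact ⟨fun h' => by linarith [h'.2], fun h' => by split_ifs at h' <;> omega⟩
  unfold cnt
  rw [this, Finset.card_range]

theorem cnt_loc (h : ∀ i < N, a i ≠ x) : ∀ᶠ x' in 𝓝 x, cnt a N x' = cnt a N x := by
  classical
  have : ∀ᶠ x' in 𝓝 x, ∀ i ∈ Finset.range N, (a i < x' ↔ a i < x) := by
    rw [eventually_all_finset]
    intro i hi
    rcases lt_or_gt_of_ne (h i (Finset.mem_range.1 hi)) with h' | h'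
    · exact (lt_mem_nhds h').mono fun y hy => ⟨fun _ => h', fun _ => hy⟩
    · exact (gt_mem_nhds h').mono fun y hy => ⟨fun h => (lt_asymm h hy).elim,
        fun h => (lt_asymm h h').elim⟩
  refine this.mono fun y hy => ?_
  unfold cnt
  rw [Finset.filter_congr hy]

theorem Zone.cnt_at (h : Zone a N) {i : ℕ} (hi : i < N) :
    ∀ᶠ x' in 𝓝 (a i), cnt a N x' = if a i < x' then i + 1 else i := by
  filter_upwards [Ioo_mem_nhds (h.2 i).1 (h.2 i).2] with y hy
  exact h.cnt_eq hi hy.1.le hy.2.le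

theorem Zone.cnt_grid (h : Zone a N) {m : ℕ} (hm : m ≤ N) :
    ∀ᶠ x' in 𝓝 ((m : ℝ) / N), cnt a N x' = m := by
  have h1 : cnt a N (m / N) = m := le_antisymm (h.cnt_le le_rfl) (h.le_cnt hm le_rfl)
  have := cnt_loc (a := a) (N := N) (x := m / N) (fun i _ => by
    rcases lt_or_ge i m with h' | h'
    · exact (h.lt_of_le h').ne
    · exact (h.gt_of_le h').ne')
  rwa [h1] at this

theorem exists_col (hN : 0 < N) (h0 : 0 ≤ x) (h1 : x ≤ 1) :
    ∃ i < N, (i : ℝ) / N ≤ x ∧ x ≤ (i + 1) / N := by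
  have hN' : (0 : ℝ) < N := by exact_mod_cast hN
  rcases h1.eq_or_lt with rfl | h1
  · refine ⟨N - 1, by omega, ?_, ?_⟩
    · rw [div_le_one hN']
      exact_mod_cast Nat.sub_le N 1
    · rw [Nat.cast_sub hN, le_div_iff₀ hN']
      simp
  · refine ⟨⌊x * N⌋₊, ?_, ?_, ?_⟩
    · rw [Nat.floor_lt (by positivity)]
      nlinarith
    · rw [div_le_iff₀ hN']
      exact Nat.floor_le (by positivity)
    · rw [le_div_iff₀ hN']
      exact (Nat.lt_floor_add_one _).le

def side : Option Bool → ℝ → ℝ → Prop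
  | none, _, _ => True
  | some true, x, y => x < y
  | some false, x, y => y < x

def Split1 {α : Type} (D : Set ℝ) (f : ℝ → α) : Prop :=
  ∀ x o, (o = none → x ∉ D) → ∃ c, ∀ᶠ x' in 𝓝 x, side o x x' → f x' = c

def Split {α : Type} (D : Set ℝ) (f : ℝ × ℝ → α) : Prop :=
  ∀ (p : ℝ × ℝ) ox oy, (ox = none → p.1 ∉ D) → (oy = none → p.2 ∉ D) →
    ∃ c, ∀ᶠ p' in 𝓝 p, side ox p.1 p'.1 → side oy p.2 p'.2 → f p' = c

variable {α β γ : Type} {D : Set ℝ}

theorem Split1.pair {f : ℝ → α} {g : ℝ → β} (hf : Split1 D f) (hg : Split1 D g) :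
    Split1 D fun x => (f x, g x) := by
  intro x o ho
  obtain ⟨c, hc⟩ := hf x o ho
  obtain ⟨c', hc'⟩ := hg x o ho
  exact ⟨(c, c'), (hc.and hc').mono fun y hy h => Prod.ext (hy.1 h) (hy.2 h)⟩

theorem Split1.split {f : ℝ → α} {g : ℝ → β} (hf : Split1 D f) (hg : Split1 D g)
    (F : α → β → γ) : Split D fun p => F (f p.1) (g p.2) := by
  intro p ox oy h1 h2
  obtain ⟨c, hc⟩ := hf p.1 ox h1
  obtain ⟨c', hc'⟩ := hg p.2 oy h2
  refine ⟨F c c', ?_⟩
  filter_upwards [continuous_fst.continuousAt.eventually hc,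
    continuous_snd.continuousAt.eventually hc'] with q a1 a2 b1 b2
  rw [a1 b1, a2 b2]

theorem Zone.split (h : Zone a N) (G : ℕ → α) (hD : ∀ i < N, G (i + 1) ≠ G i → a i ∈ D) :
    Split1 D fun x => G (cnt a N x) := by
  intro x o ho
  by_cases hx : ∃ i < N, a i = x
  · obtain ⟨i, hi, rfl⟩ := hx
    have := h.cnt_at hi
    rcases o with _ | _ | _
    · have hG : G (i + 1) = G i := by
        by_contra hh
        exact ho rfl (hD i hi hh)
      refine ⟨G i, this.mono fun y hy _ => ?_⟩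
      simp only [hy]
      split_ifs <;> simp [hG]
    · exact ⟨G i, this.mono fun y hy h => by simp only [hy, if_neg (lt_asymm h)]⟩
    · exact ⟨G (i + 1), this.mono fun y hy h => by simp only [hy, if_pos (show a i < y from h)]⟩
  · push Not at hx
    exact ⟨G (cnt a N x), (cnt_loc hx).mono fun y hy _ => by simp only [hy]⟩

open Classical in
theorem split_lt {b : ℝ} (hb : b ∈ D) : Split1 D fun y => decide (y < b) := by
  intro x o ho
  rcases lt_trichotomy x b with h | rfl | h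
  · exact ⟨true, (gt_mem_nhds h).mono fun y hy _ => by simpa using hy⟩
  · rcases o with _ | _ | _
    · exact (ho rfl hb).elim
    · exact ⟨true, Eventually.of_forall fun y hy => by simpa [side] using hy⟩
    · exact ⟨false, Eventually.of_forall fun y hy => by simpa using le_of_lt hy⟩
  · exact ⟨false, (lt_mem_nhds h).mono fun y hy _ => by simpa using hy.le⟩

def LC {X : Type} [TopologicalSpace X] (f : X → α) (p : X) : Prop := ∀ᶠ q in 𝓝 p, f q = f p

theorem lc_of {X : Type} [TopologicalSpace X] {f : X → α} {p : X} {c : α}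
    (h : ∀ᶠ q in 𝓝 p, f q = c) : LC f p :=
  h.mono fun _ hq => hq.trans h.self_of_nhds.symm

theorem jump {a b : ℕ → ℝ} (ha : Zone a N) (hb : Zone b N) (g : ℕ → ℕ → α) (p : ℝ × ℝ)
    (h : ¬ LC (fun q : ℝ × ℝ => g (cnt a N q.1) (cnt b N q.2)) p) :
    (∃ i < N, a i = p.1 ∧ ∃ j ≤ N, ((∀ j' < N, b j' ≠ p.2) → j = cnt b N p.2) ∧
      g (i + 1) j ≠ g i j) ∨
    (∃ j < N, b j = p.2 ∧ ∃ i ≤ N, ((∀ i' < N, a i' ≠ p.1) → i = cnt a N p.1) ∧
      g i (j + 1) ≠ g i j) := by
  by_contra hh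
  push Not at hh
  obtain ⟨h1, h2⟩ := hh
  apply h
  obtain ⟨x, y⟩ := p
  have c1 : ∀ {P : ℝ → Prop}, (∀ᶠ x' in 𝓝 x, P x') → ∀ᶠ q : ℝ × ℝ in 𝓝 (x, y), P q.1 :=
    fun h => continuous_fst.continuousAt.eventually h
  have c2 : ∀ {P : ℝ → Prop}, (∀ᶠ x' in 𝓝 y, P x') → ∀ᶠ q : ℝ × ℝ in 𝓝 (x, y), P q.2 :=
    fun h => continuous_snd.continuousAt.eventually h
  by_cases hx : ∃ i < N, a i = x
  · obtain ⟨i, hi, rfl⟩ := hx
    by_cases hy : ∃ j < N, b j = y
    · obtain ⟨j, hj, rfl⟩ := hy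
      have e1 := h1 i hi rfl j hj.le (fun h => (h j hj rfl).elim)
      have e2 := h1 i hi rfl (j + 1) hj (fun h => (h j hj rfl).elim)
      have e3 := h2 j hj rfl i hi.le (fun h => (h i hi rfl).elim)
      refine lc_of (c := g i j) ?_
      filter_upwards [c1 (ha.cnt_at hi), c2 (hb.cnt_at hj)] with q a1 a2
      rw [a1, a2]
      split_ifs <;> simp [e1, e2, e3]
    · push Not at hy
      have e1 := h1 i hi rfl _ (cnt_le b N y) (fun _ => rfl)
      refine lc_of (c := g i (cnt b N y)) ?_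
      filter_upwards [c1 (ha.cnt_at hi), c2 (cnt_loc hy)] with q a1 a2
      rw [a1, a2]
      split_ifs <;> simp [e1]
  · push Not at hx
    by_cases hy : ∃ j < N, b j = y
    · obtain ⟨j, hj, rfl⟩ := hy
      have e3 := h2 j hj rfl _ (cnt_le a N x) (fun _ => rfl)
      refine lc_of (c := g (cnt a N x) j) ?_
      filter_upwards [c1 (cnt_loc hx), c2 (hb.cnt_at hj)] with q a1 a2
      rw [a1, a2]
      split_ifs <;> simp [e3]
    · push Not at hy
      filter_upwards [c1 (cnt_loc hx), c2 (cnt_loc hy)] with q a1 a2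
      rw [a1, a2]

end Pool.Agent.Lib.MP_840f9c_gt
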