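import Mathlib

namespace Pool.Agent.Lib.MP_840f9c_gt

/-- `IndLT n X` says that the large inductive dimension of `X` is at most `n - 1`. -/
def IndLT : ℕ → (X : Type) → [TopologicalSpace X] → Prop
  | 0, X, _ => IsEmpty X
  | n + 1, X, _ => ∀ A U : Set X, IsClosed A → IsOpen U → A ⊆ U →
      ∃ V : Set X, IsOpen V ∧ A ⊆ V ∧ closure V ⊆ U ∧ IndLT n (frontier V)

open Classical in
/-- The large inductive dimension, with values in `-1, 0, 1, 2, ..., ∞`. -/
noncomputable def Ind (X : Type) [TopologicalSpace X] : WithTop ℤ :=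
  if h : ∃ n, IndLT n X then (((Nat.find h : ℕ) : ℤ) - 1 : ℤ) else ⊤

end Pool.Agent.Lib.MP_840f9c_gt
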