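import Pool.Agent.Lib.MP_840f9c_gt.LMC

namespace Pool.Agent.Lib.MP_840f9c_gt

open Set Topology Filter unitInterval LMC

theorem isOpen_enat {s : Set ℕ∞} (h : ⊤ ∈ s → ∀ᶠ n : ℕ in atTop, (n : ℕ∞) ∈ s) : IsOpen s := by
  rw [isOpen_iff_mem_nhds]
  intro x hx
  induction x using ENat.recTopCoe with
  | top => exact mem_nhds_top.2 ⟨hx, h hx⟩
  | coe n => exact (ENat.mem_nhds_natCast_iff n).2 hx

abbrev psiT : ℝ × C(ℕ∞, I) → C(ℕ∞ × I, I) := fun i => i.2.comp ContinuousMap.fst

/-- A compact space of dimension two which is a union of two closed one-dimensional sets. -/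
abbrev TT : Type := LMC psiT

instance : T2Space TT := inferInstance

instance : CompactSpace TT := inferInstance

def Tc (c : Bool) : Set TT :=
  {z | ∀ i e, z = lv psiT i e → (c = true ↔ Irrational (i.2 ⊤ : ℝ))}

theorem lv_mem_Tc {c : Bool} {i : ℝ × C(ℕ∞, I)} {e : ℕ∞ × I} :
    lv psiT i e ∈ Tc c ↔ (c = true ↔ Irrational (i.2 ⊤ : ℝ)) := by
  constructor
  · exact fun h => h i e rfl
  · intro h i' e' h'
    obtain ⟨rfl, rfl⟩ := lv_inj h'
    exact h

theorem isClosed_Tc (c : Bool) : IsClosed (Tc c) := by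
  rw [← isOpen_compl_iff, isOpen_iff_mem_nhds]
  intro z hz
  rcases cases z with ⟨b, rfl⟩ | ⟨i, e, rfl⟩
  · exact (hz fun i e h => (bs_ne_lv _ _ _ h).elim).elim
  · refine mem_of_superset ((isOpen_image_lv i isOpen_univ).mem_nhds ⟨e, trivial, rfl⟩) ?_
    rintro _ ⟨e', -, rfl⟩ h
    exact hz (lv_mem_Tc.2 (lv_mem_Tc.1 h))

theorem exists_Tc (z : TT) : ∃ c, z ∈ Tc c := by
  rcases cases z with ⟨b, rfl⟩ | ⟨i, e, rfl⟩
  · exact ⟨true, fun i e h => (bs_ne_lv _ _ _ h).elim⟩
  · by_cases h : Irrational (i.2 ⊤ : ℝ)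
    · exact ⟨true, lv_mem_Tc.2 (by simp [h])⟩
    · exact ⟨false, lv_mem_Tc.2 (by simp [h])⟩

theorem std_T (τ : C(ℕ∞, I)) {Ub Vb : Set I} (hU : IsOpen Ub) (hV : IsOpen Vb)
    (hd : Disjoint Ub Vb) : ∃ U V : Set (ℕ∞ × I), IsOpen U ∧ IsOpen V ∧
      (∀ e, τ e.1 ∈ Ub → e ∈ U) ∧ (∀ e, τ e.1 ∈ Vb → e ∈ V) ∧ Disjoint U V ∧
      ∀ e, e ∉ U ∪ V → e.1 = ⊤ ∧ τ ⊤ ∉ Ub ∪ Vb := by
  refine ⟨{e | τ e.1 ∈ Ub}, Prod.fst ⁻¹' {k | τ k ∉ Ub ∧ (k = ⊤ → τ ⊤ ∈ Vb)},
    hU.preimage (τ.continuous.comp continuous_fst), IsOpen.preimage continuous_fst ?_,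
    fun e h => h, fun e h => ⟨disjoint_right.1 hd h, fun h' => h' ▸ h⟩,
    disjoint_left.2 fun e h h' => h'.1 h, ?_⟩
  · refine isOpen_enat fun h => ?_
    have := (mem_nhds_top.1 (τ.continuous.continuousAt (hV.mem_nhds (h.2 rfl)))).2
    exact this.mono fun n hn => ⟨disjoint_right.1 hd hn, fun h' => (ENat.coe_ne_top n h').elim⟩
  · intro e he
    simp only [mem_union, mem_setOf_eq, mem_preimage, not_or, not_and, Classical.not_imp] at he
    obtain ⟨h1, h2⟩ := he.2 he.1
    exact ⟨h1, fun h => h.elim (h1 ▸ he.1) h2⟩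

theorem SLT_lvT : SLT 2 (univ : Set (ℕ∞ × I)) := SLT_prod SLT_two_I

theorem dense_type (c : Bool) : Dense {t : ℝ | c = true ↔ Irrational t} := by
  cases c
  · refine Rat.denseRange_cast.mono ?_
    rintro _ ⟨q, rfl⟩
    simp
  · simpa using dense_irrational

theorem SLT_Tc (c : Bool) : SLT 2 (Tc c) := by
  refine up (isClosed_Tc c) (lf_of_compact _) (fun i => SLT_lvT.mono (subset_univ _)) ?_
  intro A C hA hC hAC
  obtain ⟨Ub, Vb, hU, hV, h1, h2, hd, h3⟩ := cut_I (dense_type (!c)) hA hC hAC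
  have h4 : ∀ x : I, x ∉ Ub ∪ Vb → ¬ (c = true ↔ Irrational (x : ℝ)) := by
    intro x hx h
    have := h3 x hx
    cases c <;> simp_all
  refine ⟨Ub, Vb, hU, hV, h1, h2, hd, SLT_one_I (dense_type c) h4, fun i => ?_⟩
  obtain ⟨U, V, a1, a2, a3, a4, a5, a6⟩ := std_T i.2 hU hV hd
  have : lv psiT i ⁻¹' Tc c \ (U ∪ V) = ∅ :=
    eq_empty_of_forall_notMem fun e he => h4 _ (a6 e he.2).2 (lv_mem_Tc.1 he.1)
  refine ⟨U, V, a1, a2, fun e _ => a3 e, fun e _ => a4 e, a5.mono_left inter_subset_right, ?_, ?_⟩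
  · rw [this]
    exact SLT.empty _
  · simp [this]

theorem SLT_TT : SLT 3 (univ : Set TT) := by
  refine up isClosed_univ (lf_of_compact _) (fun i => SLT_lvT.succ) ?_
  intro A C hA hC hAC
  obtain ⟨Ub, Vb, hU, hV, h1, h2, hd, -⟩ := cut_I dense_univ hA hC hAC
  refine ⟨Ub, Vb, hU, hV, h1, h2, hd, SLT_two_I.mono (subset_univ _), fun i => ?_⟩
  obtain ⟨U, V, a1, a2, a3, a4, a5, a6⟩ := std_T i.2 hU hV hd
  refine ⟨U, V, a1, a2, fun e _ => a3 e, fun e _ => a4 e, a5.mono_left inter_subset_right,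
    SLT_lvT.mono (subset_univ _), fun e he e' he' => ?_⟩
  simp [(a6 e he.2).1, (a6 e' he'.2).1]

theorem dense_I {S : Set I} (h : SLT 1 Sᶜ) : Dense S := by
  rw [dense_iff_inter_open]
  intro O hO hne
  by_contra hh
  obtain ⟨a, b, hab, hsub⟩ := hO.exists_Ioo_subset hne
  obtain ⟨x, hx1, hx2⟩ := exists_between hab
  obtain ⟨y, hy1, hy2⟩ := exists_between hx2
  refine not_SLT_one isPreconnected_Ioo (a := x) (b := y) ⟨hx1, hx2⟩ ⟨hx1.trans hy1, hy2⟩ hy1.ne
    (h.mono fun z hz hS => hh ⟨z, hsub hz, hS⟩)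

theorem not_mem_of_freq {X : Type} [TopologicalSpace X] {U V : Set X} (hU : IsOpen U)
    (hd : Disjoint U V) {f : ℕ∞ → X} (hf : Continuous f) (h : ∃ᶠ n : ℕ in atTop, f n ∈ V) :
    f ⊤ ∉ U := by
  intro hx
  obtain ⟨n, h1, h2⟩ :=
    (h.and_eventually (mem_nhds_top.1 (hf.continuousAt (hU.mem_nhds hx))).2).exists
  exact disjoint_left.1 hd h2 h1

theorem freq_mod (m r : ℕ) (hr : r < m) {p : ℕ → Prop} (h : ∀ n, n % m = r → p n) :
    ∃ᶠ n : ℕ in atTop, p n :=
  (Nat.frequently_mod_eq hr).mono h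

theorem not_SLT_TT : ¬ SLT 2 (univ : Set TT) := by
  intro h
  obtain ⟨U, V, hU, hV, h0, h1, hd, hL⟩ := h {bs psiT 0} {bs psiT 1} isClosed_singleton
    isClosed_singleton (subset_univ _) (subset_univ _)
    (by simpa using fun h => zero_ne_one (α := I) (injective_bs h))
  rw [univ_inter] at hd
  have hden : Dense (bs psiT ⁻¹' U ∪ bs psiT ⁻¹' V) :=
    dense_I ((hL.pull isClosedEmbedding_bs).mono fun x hx => ⟨trivial, hx⟩)
  obtain ⟨t, -, ht1, ht2⟩ := isPreconnected_closed_iff.1 (isPreconnected_univ (α := I))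
    (closure (bs psiT ⁻¹' U)) (closure (bs psiT ⁻¹' V)) isClosed_closure isClosed_closure
    (by rw [← closure_union, hden.closure_eq]) ⟨0, trivial, subset_closure (h0 rfl)⟩
    ⟨1, trivial, subset_closure (h1 rfl)⟩
  let W : ℕ → Set TT := fun n => if n % 2 = 0 then U else V
  have hW : ∀ n, IsOpen (W n) := fun n => by
    simp only [W]
    split_ifs <;> assumption
  obtain ⟨τ, -, hτ⟩ := exists_seq (x := t) (C := fun n => bs psiT ⁻¹' W n) (fun n => by
    simp only [W]
    split_ifs <;> assumption)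
  obtain ⟨α, hα⟩ := exists_good (ψ := psiT) τ (fun n => τ n) W
    (fun n => (hW n).mem_nhds (hτ n))
  have hc : ∀ u : I, Continuous fun k : ℕ∞ => lv psiT (α, τ) (k, u) :=
    fun u => (continuous_lv _).comp (Continuous.prodMk_left u)
  have hc' : Continuous fun u : I => lv psiT (α, τ) (⊤, u) :=
    (continuous_lv _).comp (Continuous.prodMk_right _)
  refine not_SLT_one (isPreconnected_range hc') (mem_range_self 0) (mem_range_self 1)
    (fun h => zero_ne_one (α := I) (congrArg Prod.snd (lv_inj h).2)) (hL.mono ?_)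
  rintro _ ⟨u, rfl⟩
  refine ⟨trivial, fun h => h.elim ?_ ?_⟩
  · refine not_mem_of_freq hU hd (hc u) (freq_mod 2 1 (by norm_num) fun n hn => ?_)
    simpa [W, hn] using hα n (n, u) rfl
  · refine not_mem_of_freq hV hd.symm (hc u) (freq_mod 2 0 (by norm_num) fun n hn => ?_)
    simpa [W, hn] using hα n (n, u) rfl

/-- parity of an index -/
def par (n : ℕ) : Bool := decide (n % 2 = 0)

def Rset : Set (ℕ∞ × TT) := {p | ∀ n : ℕ, p.1 = n → p.2 ∈ Tc (par n)}

theorem isClosed_Rset : IsClosed Rset := by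
  have : Rset = ⋂ n : ℕ, (Prod.fst ⁻¹' {(n : ℕ∞)}ᶜ ∪ Prod.snd ⁻¹' Tc (par n)) := by
    ext p
    simp [Rset, imp_iff_not_or]
  rw [this]
  exact isClosed_iInter fun n =>
    ((ENat.isOpen_singleton (ENat.coe_ne_top n)).isClosed_compl.preimage continuous_fst).union
      ((isClosed_Tc _).preimage continuous_snd)

/-- The gadget attached along convergent sequences. -/
abbrev RR : Type := Rset

instance : CompactSpace RR := isCompact_iff_compactSpace.1 isClosed_Rset.isCompact

instance : T2Space RR := inferInstanceAs (T2Space {x : ℕ∞ × TT // x ∈ Rset})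

def rho : C(RR, ℕ∞) := ⟨fun e => e.1.1, by fun_prop⟩

theorem SLT_RR : SLT 3 (univ : Set RR) := by
  simpa using (SLT_prod SLT_TT).pull isClosed_Rset.isClosedEmbedding_subtypeVal

theorem RR_low {U V : Set RR} (hU : IsOpen U) (hV : IsOpen V) (hd : Disjoint U V)
    (h1 : ∀ (n : ℕ) (e : RR), rho e = n → n % 4 < 2 → e ∈ U)
    (h2 : ∀ (n : ℕ) (e : RR), rho e = n → 2 ≤ n % 4 → e ∈ V) : ¬ SLT 2 (U ∪ V)ᶜ := by
  intro h
  let f : TT → RR := fun ξ => ⟨(⊤, ξ), fun n hn => (ENat.top_ne_coe n hn).elim⟩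
  have hf : Continuous f := by fun_prop
  have hfi : Function.Injective f := fun a b h => congrArg (fun e : RR => e.1.2) h
  refine not_SLT_TT ((h.pull (hf.isClosedEmbedding hfi)).mono fun ξ _ => ?_)
  obtain ⟨c, hc⟩ := exists_Tc ξ
  have key : ∀ {W W' : Set RR}, IsOpen W → Disjoint W W' → ∀ r, r < 4 → par r = c →
      (∀ (n : ℕ) (e : RR), rho e = n → n % 4 = r → e ∈ W') → f ξ ∉ W := by
    intro W W' hW hd r hr hp h' hx
    obtain ⟨W0, hW0, rfl⟩ := isOpen_induced_iff.1 hW
    have := (mem_nhds_top.1 ((Continuous.prodMk_left ξ).continuousAt (hW0.mem_nhds hx))).2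
    obtain ⟨n, a1, a2⟩ := ((Nat.frequently_mod_eq hr).and_eventually this).exists
    have hm : ((n : ℕ∞), ξ) ∈ Rset := by
      intro m hm
      obtain rfl : n = m := by exact_mod_cast (show (n : ℕ∞) = m from hm)
      have : par n = par r := by
        simp only [par, decide_eq_decide]
        omega
      rwa [this, hp]
    exact disjoint_left.1 hd (show (⟨(n, ξ), hm⟩ : RR) ∈ _ from a2) (h' n _ rfl a1)
  rintro (hx | hx)
  · cases c
    · exact key hU hd 3 (by norm_num) rfl (fun n e a b => h2 n e a (by omega)) hx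
    · exact key hU hd 2 (by norm_num) rfl (fun n e a b => h2 n e a (by omega)) hx
  · cases c
    · exact key hV hd.symm 1 (by norm_num) rfl (fun n e a b => h1 n e a (by omega)) hx
    · exact key hV hd.symm 0 (by norm_num) rfl (fun n e a b => h1 n e a (by omega)) hx

theorem RR_up {B : Type} [TopologicalSpace B] (p : C(ℕ∞, B)) (sg : B → ZMod 2) (c : Bool)
    (v : ZMod 2) (hv : ∀ᶠ n : ℕ in atTop, par n = c → sg (p n) = v) :
    ∃ U V : Set RR, IsOpen U ∧ IsOpen V ∧
      (∀ e, p (rho e) ∈ interior {b | sg b = 1} → e ∈ U) ∧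
      (∀ e, p (rho e) ∈ interior {b | sg b = 0} → e ∈ V) ∧ Disjoint U V ∧ SLT 2 (U ∪ V)ᶜ ∧
      ∀ e, e ∉ U ∪ V → rho e = ⊤ := by
  classical
  let κ : RR → ZMod 2 := fun e => if rho e = ⊤ then v else sg (p (rho e))
  have fr : ∃ᶠ n : ℕ in atTop, par n = c := by
    cases c
    · exact freq_mod 2 1 (by norm_num) fun n hn => by simp [par, hn]
    · exact freq_mod 2 0 (by norm_num) fun n hn => by simp [par, hn]
  have comp : ∀ (w : ZMod 2) (e : RR), p (rho e) ∈ interior {b | sg b = w} →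
      e ∈ interior {e | κ e = w} := by
    intro w
    refine interior_maximal (t := {e | p (rho e) ∈ interior {b | sg b = w}}) ?_
      (isOpen_interior.preimage (p.continuous.comp rho.continuous))
    intro e he
    simp only [κ, mem_setOf_eq]
    split_ifs with h
    · simp only [mem_setOf_eq, h] at he
      have := (mem_nhds_top.1 (p.continuous.continuousAt (isOpen_interior.mem_nhds he))).2
      obtain ⟨n, a1, a2, a3⟩ := (fr.and_eventually (hv.and this)).exists
      exact (a2 a1).symm.trans (interior_subset (s := {b | sg b = w}) a3)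
    · exact interior_subset (s := {b | sg b = w}) he
  have lc : ∀ e : RR, (∀ᶠ e' in 𝓝 e, κ e' = κ e) →
      e ∈ interior {e | κ e = 1} ∪ interior {e | κ e = 0} := by
    intro e he
    have : κ e = 1 ∨ κ e = 0 := by
      generalize κ e = z
      revert z
      decide
    rcases this with h | h
    · exact Or.inl (mem_interior_iff_mem_nhds.2 (h ▸ he))
    · exact Or.inr (mem_interior_iff_mem_nhds.2 (h ▸ he))
  have left : ∀ e : RR, e ∉ interior {e | κ e = 1} ∪ interior {e | κ e = 0} →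
      rho e = ⊤ ∧ e.1.2 ∈ Tc (!c) := by
    intro e he
    by_contra hh
    refine he (lc e ?_)
    by_cases h : rho e = ⊤
    · have h2 : e.1.2 ∉ Tc (!c) := fun h' => hh ⟨h, h'⟩
      have m1 : ∀ᶠ e' : RR in 𝓝 e, e'.1.2 ∈ (Tc (!c))ᶜ :=
        (continuous_snd.comp continuous_subtype_val).continuousAt.eventually
          ((isClosed_Tc _).isOpen_compl.mem_nhds h2)
      have m2 : ∀ᶠ k : ℕ∞ in 𝓝 (rho e), ∀ n : ℕ, k = n → par n = c → sg (p n) = v := by
        rw [h]
        refine mem_nhds_top.2 ⟨fun n hn => (ENat.top_ne_coe n hn).elim, hv.mono ?_⟩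
        intro n hn m hm
        obtain rfl : n = m := by exact_mod_cast hm
        exact hn
      filter_upwards [m1, rho.continuous.continuousAt.eventually m2] with e' a1 a2
      simp only [κ, h, if_true]
      split_ifs with h'
      · rfl
      · obtain ⟨n, hn⟩ := ENat.ne_top_iff_exists.1 h'
        rw [← hn]
        refine a2 n hn.symm ?_
        have := e'.2 n hn.symm
        by_contra hne
        apply a1
        have : par n = !c := by
          revert hne
          cases par n <;> cases c <;> simp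
        rwa [← this]
    · have m : ∀ᶠ k in 𝓝 (rho e), k = rho e := by
        rw [ENat.nhds_eq_pure h]
        simp
      filter_upwards [rho.continuous.continuousAt.eventually m] with e' a
      simp only [κ, a]
  refine ⟨interior {e | κ e = 1}, interior {e | κ e = 0}, isOpen_interior, isOpen_interior,
    comp 1, comp 0, ?_, ?_, fun e he => (left e he).1⟩
  · refine Disjoint.mono interior_subset interior_subset (disjoint_left.2 fun e h h' => ?_)
    exact absurd ((show κ e = 1 from h).symm.trans h') (by decide)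
  · have h1 := (SLT_Tc (!c)).image (isEmbedding_prodMkRight (⊤ : ℕ∞))
    refine (h1.pull isClosed_Rset.isClosedEmbedding_subtypeVal).mono fun e he => ?_
    exact ⟨e.1.2, (left e he).2, Prod.ext (left e he).1.symm rfl⟩

end Pool.Agent.Lib.MP_840f9c_gt
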