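import Pool.Agent.Lib.MP_840f9c_gt.Base

namespace Pool.Agent.Lib.MP_840f9c_gt

open Set Topology Filter unitInterval LMC

theorem exists_emb {O : Set I} (hO : IsOpen O) (hne : O.Nonempty) :
    ∃ f : I → I, Continuous f ∧ Function.Injective f ∧ ∀ t, f t ∈ O := by
  obtain ⟨a, b, hab, hsub⟩ := hO.exists_Ioo_subset hne
  obtain ⟨x, hx1, hx2⟩ := exists_between hab
  obtain ⟨y, hy1, hy2⟩ := exists_between hx2
  have hxy : (x : ℝ) < y := hy1
  have h1 : ∀ t : I, (x : ℝ) ≤ x + t * (y - x) := fun t => by nlinarith [t.2.1]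
  have h2 : ∀ t : I, (x : ℝ) + t * (y - x) ≤ y := fun t => by nlinarith [t.2.2]
  refine ⟨fun t => ⟨x + t * (y - x), x.2.1.trans (h1 t), (h2 t).trans y.2.2⟩, by fun_prop,
    fun s t h => ?_, fun t => hsub ⟨hx1.trans_le (h1 t), lt_of_le_of_lt (b := y) (h2 t) hy2⟩⟩
  have := congrArg Subtype.val h
  simp only [add_right_inj, mul_eq_mul_right_iff] at this
  exact this.elim Subtype.ext (fun h => by linarith)

theorem dense_sq {S : Set (I × I)} (h : SLT 2 Sᶜ) : Dense S := by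
  rw [dense_iff_inter_open]
  rintro O hO ⟨q, hq⟩
  by_contra hh
  obtain ⟨u, v, hu, hv, h1, h2, h3⟩ := isOpen_prod_iff.1 hO q.1 q.2 hq
  obtain ⟨f, f1, f2, f3⟩ := exists_emb hu ⟨_, h1⟩
  obtain ⟨g, g1, g2, g3⟩ := exists_emb hv ⟨_, h2⟩
  exact not_SLT_sq ((h.pull ((f1.prodMap g1).isClosedEmbedding (f2.prodMap g2))).mono
    fun z _ hz => hh ⟨_, h3 ⟨f3 z.1, g3 z.2⟩, hz⟩)

def Gam (k : ℕ) (U V : Set (I × I)) (w : Fin 3) : Set (I × I) :=
  {q | ∃ ox oy, ok k w ox q.1 ∧ ok k w oy q.2 ∧ q ∈ closure (U ∩ sec ox oy q) ∧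
    q ∈ closure (V ∩ sec ox oy q)}

theorem side_transfer (k : ℕ) (w : Fin 3) (x x' : ℝ) (o' : Option Bool) (h : ok k w o' x') :
    ∃ o, ok k w o x ∧ ∀ᶠ z in 𝓝 x', side o' x' z → side o x z := by
  rcases lt_trichotomy x x' with h' | rfl | h'
  · exact ⟨some true, by simp [ok], (lt_mem_nhds h').mono fun z hz _ => hz⟩
  · exact ⟨o', h, Eventually.of_forall fun z hz => hz⟩
  · exact ⟨some false, by simp [ok], (gt_mem_nhds h').mono fun z hz _ => hz⟩

theorem isClosed_Gam (k : ℕ) (U V : Set (I × I)) (w : Fin 3) : IsClosed (Gam k U V w) := by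
  rw [← closure_subset_iff_isClosed]
  intro q hq
  let G : Option Bool × Option Bool → Set (I × I) := fun o =>
    {q' | ok k w o.1 q.1 ∧ ok k w o.2 q.2 ∧ q' ∈ closure (U ∩ sec o.1 o.2 q) ∧
      q' ∈ closure (V ∩ sec o.1 o.2 q)}
  have hG : IsClosed (⋃ o, G o) := isClosed_iUnion_of_finite fun o =>
    isClosed_const.and (isClosed_const.and (isClosed_closure.and isClosed_closure))
  have hsub : Gam k U V w ⊆ ⋃ o, G o := by
    rintro q' ⟨ox', oy', h1, h2, h3, h4⟩
    obtain ⟨ox, a1, a2⟩ := side_transfer k w q.1 q'.1 ox' h1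
    obtain ⟨oy, b1, b2⟩ := side_transfer k w q.2 q'.2 oy' h2
    have ev : ∀ᶠ z in 𝓝 q', z ∈ sec ox' oy' q' → z ∈ sec ox oy q := by
      filter_upwards [(continuous_subtype_val.comp continuous_fst).continuousAt.eventually a2,
        (continuous_subtype_val.comp continuous_snd).continuousAt.eventually b2] with z c1 c2 hz
      exact ⟨c1 hz.1, c2 hz.2⟩
    rw [mem_closure_iff_frequently] at h3 h4
    refine mem_iUnion.2 ⟨(ox, oy), a1, b1, ?_, ?_⟩ <;> rw [mem_closure_iff_frequently]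
    · exact (h3.and_eventually ev).mono fun z hz => ⟨hz.1.1, hz.2 hz.1.2⟩
    · exact (h4.and_eventually ev).mono fun z hz => ⟨hz.1.1, hz.2 hz.1.2⟩
  obtain ⟨o, ho⟩ := mem_iUnion.1 (closure_minimal hsub hG hq)
  exact ⟨o.1, o.2, ho⟩

theorem isOpen_side (b : Bool) (x : I) : IsOpen {z : I | side (some b) x z} := by
  cases b
  · exact isOpen_lt continuous_subtype_val continuous_const
  · exact isOpen_lt continuous_const continuous_subtype_val

theorem side_of_ne {x z : I} (h : z ≠ x) : ∃ b, side (some b) x z := by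
  rcases lt_or_gt_of_ne h with h | h
  · exact ⟨false, h⟩
  · exact ⟨true, h⟩

theorem exists_quad {U : Set (I × I)} (hU : IsOpen U) {q : I × I} (hq : q ∈ closure U) :
    ∃ b1 b2, q ∈ closure (U ∩ sec (some b1) (some b2) q) := by
  have hd : Dense (({q.1}ᶜ : Set I) ×ˢ ({q.2}ᶜ : Set I)) :=
    (dense_compl_singleton _).prod (dense_compl_singleton _)
  have h1 : q ∈ closure (U ∩ ({q.1}ᶜ : Set I) ×ˢ ({q.2}ᶜ : Set I)) :=
    closure_minimal (hd.open_subset_closure_inter hU) isClosed_closure hq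
  have h2 : U ∩ ({q.1}ᶜ : Set I) ×ˢ ({q.2}ᶜ : Set I) ⊆
      ⋃ b : Bool × Bool, U ∩ sec (some b.1) (some b.2) q := by
    rintro z ⟨hz, h1, h2⟩
    obtain ⟨b1, h1⟩ := side_of_ne h1
    obtain ⟨b2, h2⟩ := side_of_ne h2
    exact mem_iUnion.2 ⟨(b1, b2), hz, h1, h2⟩
  have h3 := closure_mono h2 h1
  rw [closure_iUnion_of_finite] at h3
  obtain ⟨b, hb⟩ := mem_iUnion.1 h3
  exact ⟨_, _, hb⟩

theorem cover_Gam (k : ℕ) {U V : Set (I × I)} (hU : IsOpen U) (hV : IsOpen V)
    (hd : Dense (U ∪ V)) {q : I × I} (h1 : q ∈ closure U) (h2 : q ∈ closure V) :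
    ∃ w, q ∈ Gam k U V w := by
  have s1 : ∀ a b, sec a b q ⊆ sec none b q := fun a b z hz => ⟨trivial, hz.2⟩
  have s2 : ∀ a b, sec a b q ⊆ sec a none q := fun a b z hz => ⟨hz.1, trivial⟩
  have row : ∀ a a' b, q ∈ closure (U ∩ sec (some a) (some b) q) →
      q ∈ closure (V ∩ sec (some a') (some b) q) → ∃ w, q ∈ Gam k U V w := fun a a' b h h' =>
    ⟨lab k q.1, none, some b, fun _ => rfl, by simp [ok],
      closure_mono (inter_subset_inter_right _ (s1 _ _)) h,
      closure_mono (inter_subset_inter_right _ (s1 _ _)) h'⟩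
  have col : ∀ a b b', q ∈ closure (U ∩ sec (some a) (some b) q) →
      q ∈ closure (V ∩ sec (some a) (some b') q) → ∃ w, q ∈ Gam k U V w := fun a b b' h h' =>
    ⟨lab k q.2, some a, none, by simp [ok], fun _ => rfl,
      closure_mono (inter_subset_inter_right _ (s2 _ _)) h,
      closure_mono (inter_subset_inter_right _ (s2 _ _)) h'⟩
  obtain ⟨a, b, h⟩ := exists_quad hU h1
  obtain ⟨a', b', h'⟩ := exists_quad hV h2
  have e : ∀ a b, sec (some a) (some b) q =
      {z : I | side (some a) q.1 z} ×ˢ {z : I | side (some b) q.2 z} := fun _ _ => rfl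
  have k1 := closure_mono inter_subset_right h
  have k2 := closure_mono inter_subset_right h'
  rw [e, closure_prod_eq] at k1 k2
  have k3 : q ∈ closure (sec (some a') (some b) q) := by
    rw [e, closure_prod_eq]
    exact ⟨k2.1, k1.2⟩
  have k4 := closure_minimal (hd.open_subset_closure_inter
    ((isOpen_side a' q.1).prod (isOpen_side b q.2))) isClosed_closure k3
  rw [← e, inter_comm, union_inter_distrib_right, closure_union] at k4
  exact k4.elim (fun k4 => col _ _ _ k4 h') (fun k4 => row _ _ _ h k4)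

theorem exists_loc (k : ℕ) (q : I × I) : ∃ W ∈ 𝓝 q, ∀ τ : ℕ∞ → I × I, (∀ n, τ n ∈ W) →
    Loc fun n => pg k (τ n) := by
  have hc : Continuous fun z : I × I => (z.2 : ℝ) := by fun_prop
  by_cases hq : q.2 = 0
  · refine ⟨{z | (z.2 : ℝ) < 1 / (k + 1)}, (isOpen_lt hc continuous_const).mem_nhds
      (by simp [hq]; positivity), fun τ h => Or.inl fun n j => ?_⟩
    rw [co_pg]
    split_ifs with e
    · exact e ▸ le_of_lt (h n)
    · positivity
  · have h0 : (0 : ℝ) < q.2 := by exact_mod_cast (unitInterval.pos_iff_ne_zero.2 hq)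
    refine ⟨(fun z : I × I => (z.2 : ℝ)) ⁻¹' Ioo (2 / 3 * q.2) (4 / 3 * q.2),
      hc.continuousAt (Ioo_mem_nhds (by linarith) (by linarith)), fun τ h =>
      Or.inr ⟨k, fun n => ⟨_, rfl⟩, fun n n' => ?_⟩⟩
    simp only [xy_pg]
    linarith [(h n).2, (h n').1]

end Pool.Agent.Lib.MP_840f9c_gt
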