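import Mathlib

namespace Pool.Agent.Lib.MP_840f9c_gt

theorem exists_lab {H : Type} (a k : Equiv.Perm H) (ha : a * a = 1) (hk : k * k = 1)
    (forb : H → Fin 3) : ∃ lab : H → Fin 3, (∀ h, lab (a h) = lab h) ∧ (∀ h, lab (k h) = lab h) ∧
      ∀ h, k h = h → lab h ≠ forb h := by
  classical
  let r : H → H → Prop := fun x y => y = a x ∨ y = k x
  let p : Equiv.Perm H := k * a
  have hki : k⁻¹ = k := inv_eq_of_mul_eq_one_right hk
  have hai : a⁻¹ = a := inv_eq_of_mul_eq_one_right ha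
  have hsc : SemiconjBy k p p⁻¹ := by
    simp only [SemiconjBy, p, mul_inv_rev, hki, hai]
    rw [← mul_assoc, hk, mul_assoc, hk, one_mul, mul_one]
  have hkp : ∀ n : ℤ, k * p ^ n = p ^ (-n) * k := by
    intro n
    have := hsc.zpow_right n
    rwa [inv_zpow', SemiconjBy] at this
  have hak : a = k * p := by
    simp only [p]
    rw [← mul_assoc, hk, one_mul]
  have orb : ∀ h, k h = h → ∀ x y, Relation.EqvGen r x y →
      ((∃ n : ℤ, x = (p ^ n) h) ↔ ∃ n : ℤ, y = (p ^ n) h) := by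
    intro h hh
    have c1 : ∀ x, (∃ n : ℤ, x = (p ^ n) h) → ∃ n : ℤ, k x = (p ^ n) h := by
      rintro _ ⟨n, rfl⟩
      refine ⟨-n, ?_⟩
      rw [← Equiv.Perm.mul_apply, hkp, Equiv.Perm.mul_apply, hh]
    have c2 : ∀ x, (∃ n : ℤ, x = (p ^ n) h) → ∃ n : ℤ, a x = (p ^ n) h := by
      rintro _ ⟨n, rfl⟩
      obtain ⟨m, hm⟩ := c1 _ ⟨1 + n, rfl⟩
      refine ⟨m, ?_⟩
      rw [← hm, hak, zpow_one_add]
      rfl
    have i1 : ∀ x, k (k x) = x := fun x => by rw [← Equiv.Perm.mul_apply, hk]; rfl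
    have i2 : ∀ x, a (a x) = x := fun x => by rw [← Equiv.Perm.mul_apply, ha]; rfl
    intro x y hxy
    induction hxy with
    | rel x y h =>
      rcases h with rfl | rfl
      · exact ⟨c2 x, fun h => i2 x ▸ c2 _ h⟩
      · exact ⟨c1 x, fun h => i1 x ▸ c1 _ h⟩
    | refl x => exact Iff.rfl
    | symm x y _ ih => exact ih.symm
    | trans x y z _ _ ih1 ih2 => exact ih1.trans ih2
  have fix : ∀ h, k h = h → ∀ n : ℤ, k ((p ^ n) h) = (p ^ n) h →
      ((MulAction.period p h : ℕ) : ℤ) ∣ 2 * n := by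
    intro h hh n hn
    rw [← MulAction.zpow_smul_eq_iff_period_dvd]
    rw [← Equiv.Perm.mul_apply, hkp, Equiv.Perm.mul_apply, hh] at hn
    have : (p ^ (2 * n)) h = (p ^ n) ((p ^ n) h) := by
      rw [two_mul, zpow_add]
      rfl
    show (p ^ (2 * n)) h = h
    rw [this, ← hn, ← Equiv.Perm.mul_apply, ← zpow_add]
    simp
  have eqn : ∀ h (n m : ℤ), ((MulAction.period p h : ℕ) : ℤ) ∣ n - m → (p ^ n) h = (p ^ m) h := by
    intro h n m hd
    rw [← MulAction.zpow_smul_eq_iff_period_dvd] at hd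
    have h2 : (p ^ (n - m)) h = h := hd
    calc (p ^ n) h = (p ^ m) ((p ^ (n - m)) h) := by
          rw [← Equiv.Perm.mul_apply, ← zpow_add]
          simp
      _ = (p ^ m) h := by rw [h2]
  have two : ∀ x y z, k x = x → k y = y → k z = z → Relation.EqvGen r x y →
      Relation.EqvGen r x z → y = x ∨ z = x ∨ y = z := by
    intro x y z hx hy hz hxy hxz
    obtain ⟨n, rfl⟩ := (orb x hx _ _ hxy).1 ⟨0, rfl⟩
    obtain ⟨m, rfl⟩ := (orb x hx _ _ hxz).1 ⟨0, rfl⟩
    obtain ⟨s, hs⟩ := fix x hx n hy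
    obtain ⟨t, ht⟩ := fix x hx m hz
    rcases Int.even_or_odd' s with ⟨s', rfl | rfl⟩
    · exact Or.inl (eqn x n 0 ⟨s', by linarith⟩)
    · rcases Int.even_or_odd' t with ⟨t', rfl | rfl⟩
      · exact Or.inr (Or.inl (eqn x m 0 ⟨t', by linarith⟩))
      · exact Or.inr (Or.inr (eqn x n m ⟨s' - t', by linarith⟩))
  have ex : ∀ q : Quot r, ∃ w : Fin 3, ∀ h, Quot.mk r h = q → k h = h → w ≠ forb h := by
    intro q
    by_contra hh
    push Not at hh
    obtain ⟨x, x1, x2, x3⟩ := hh 0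
    obtain ⟨y, y1, y2, y3⟩ := hh 1
    obtain ⟨z, z1, z2, z3⟩ := hh 2
    rcases two x y z x2 y2 z2 (Quot.eqvGen_exact (x1.trans y1.symm))
      (Quot.eqvGen_exact (x1.trans z1.symm)) with rfl | rfl | rfl
    · exact absurd (x3.trans y3.symm) (by decide)
    · exact absurd (x3.trans z3.symm) (by decide)
    · exact absurd (y3.trans z3.symm) (by decide)
  choose w hw using ex
  refine ⟨fun h => w (Quot.mk r h), fun h => ?_, fun h => ?_, fun h hh => hw _ h rfl hh⟩
  · exact congrArg w (Quot.sound (r := r) (Or.inl rfl : r h (a h))).symm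
  · exact congrArg w (Quot.sound (r := r) (Or.inr rfl : r h (k h))).symm

/-- Pairing of the four half-edges at a grid vertex: 0 south, 1 north, 2 west, 3 east. -/
def partner (s n w e : ZMod 2) (d : Fin 4) : Fin 4 :=
  if d = 0 then (if s = 0 then 0 else if w = 1 then 2 else if n = 1 ∧ e = 0 then 1
    else if e = 1 ∧ n = 0 then 3 else 0)
  else if d = 1 then (if n = 0 then 1 else if e = 1 then 3 else if s = 1 ∧ w = 0 then 0
    else if w = 1 ∧ s = 0 then 2 else 1)
  else if d = 2 then (if w = 0 then 2 else if s = 1 then 0 else if n = 1 ∧ e = 0 then 1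
    else if e = 1 ∧ n = 0 then 3 else 2)
  else (if e = 0 then 3 else if n = 1 then 1 else if s = 1 ∧ w = 0 then 0
    else if w = 1 ∧ s = 0 then 2 else 3)

theorem partner_invol : ∀ (s n w e : ZMod 2) (d : Fin 4),
    partner s n w e (partner s n w e d) = d := by decide

theorem partner_spec : ∀ (s n w e : ZMod 2), s + n + w + e = 0 → ∀ l0 l1 l2 l3 : Fin 3,
    (∀ d, ![l0, l1, l2, l3] (partner s n w e d) = ![l0, l1, l2, l3] d) →
    (∀ u : Fin 3, (if l0 = u then s else 0) + (if l1 = u then n else 0) +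
      (if l2 = u then w else 0) + (if l3 = u then e else 0) = 0) ∧
    (n ≠ 0 → e ≠ 0 → l1 = l3) ∧ (s ≠ 0 → w ≠ 0 → l0 = l2) := by decide +kernel

def flipH : ℤ × ℤ × Fin 4 → ℤ × ℤ × Fin 4
  | (i, j, d) => if d = 0 then (i, j - 1, 1) else if d = 1 then (i, j + 1, 0)
      else if d = 2 then (i - 1, j, 3) else (i + 1, j, 2)

theorem flipH_invol : Function.Involutive flipH := by
  rintro ⟨i, j, d⟩
  fin_cases d <;> simp [flipH]

theorem gridZ (N : ℤ) (χ : ℤ → ℤ → ZMod 2) (fT : ℤ → Fin 3) (hN : 0 ≤ N) :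
    ∃ lV lH : ℤ → ℤ → Fin 3, (∀ i, lV i 0 ≠ 2) ∧ (∀ i, lV i N ≠ fT i) ∧
      ∀ i j, 0 ≤ j → j < N →
        (∀ u : Fin 3, (if lV i j = u then χ i j + χ (i + 1) j else 0) +
          (if lV i (j + 1) = u then χ i (j + 1) + χ (i + 1) (j + 1) else 0) +
          (if lH i j = u then χ i j + χ i (j + 1) else 0) +
          (if lH (i + 1) j = u then χ (i + 1) j + χ (i + 1) (j + 1) else 0) = 0) ∧
        (χ i (j + 1) + χ (i + 1) (j + 1) ≠ 0 → χ (i + 1) j + χ (i + 1) (j + 1) ≠ 0 →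
          lV i (j + 1) = lH (i + 1) j) ∧
        (χ i j + χ (i + 1) j ≠ 0 → χ i j + χ i (j + 1) ≠ 0 → lV i j = lH i j) := by
  let P : ℤ → ℤ → Fin 4 → Fin 4 := fun i j => partner (χ i j + χ (i + 1) j)
    (χ i (j + 1) + χ (i + 1) (j + 1)) (χ i j + χ i (j + 1)) (χ (i + 1) j + χ (i + 1) (j + 1))
  let kf : ℤ × ℤ × Fin 4 → ℤ × ℤ × Fin 4 := fun h =>
    (h.1, h.2.1, if 0 ≤ h.2.1 ∧ h.2.1 < N then P h.1 h.2.1 h.2.2 else h.2.2)
  have hk : Function.Involutive kf := by
    rintro ⟨i, j, d⟩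
    simp only [kf]
    split_ifs
    · simp only [P, partner_invol]
    · rfl
  obtain ⟨lab, h1, h2, h3⟩ := exists_lab (flipH_invol.toPerm _) (hk.toPerm _)
    (by ext1 x; exact flipH_invol x) (by ext1 x; exact hk x)
    (fun h => if h.2.1 < 0 then 2 else fT h.1)
  simp only [Function.Involutive.coe_toPerm] at h1 h2 h3
  have e1 : ∀ i j, lab (i, j + 1, 0) = lab (i, j, 1) := fun i j => by
    rw [← h1 (i, j, 1)]
    simp [flipH]
  have e3 : ∀ i j, lab (i + 1, j, 2) = lab (i, j, 3) := fun i j => by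
    rw [← h1 (i, j, 3)]
    simp [flipH]
  refine ⟨fun i j => lab (i, j, 0), fun i j => lab (i, j, 2), fun i => ?_, fun i => ?_,
    fun i j hj hjN => ?_⟩
  · have := h3 (i, -1, 1) (by simp [kf])
    rw [← e1] at this
    simpa using this
  · have := h3 (i, N, 0) (by simp [kf])
    simpa [not_lt.2 hN] using this
  · simp only [e1, e3]
    refine partner_spec _ _ _ _ ?_ _ _ _ _ ?_
    · generalize χ i j = x1
      generalize χ (i + 1) j = x2
      generalize χ i (j + 1) = x3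
      generalize χ (i + 1) (j + 1) = x4
      revert x1 x2 x3 x4
      decide
    · have e : ∀ d : Fin 4, ![lab (i, j, 0), lab (i, j, 1), lab (i, j, 2), lab (i, j, 3)] d =
          lab (i, j, d) := by
        intro d
        fin_cases d <;> rfl
      intro d
      rw [e, e, ← h2 (i, j, d)]
      simp only [kf, hj, hjN, and_self, if_true, P]

/-- Decomposition of a two-colouring of a grid into three colourings with disjoint boundaries. -/
theorem grid (N : ℕ) (χ : ℕ → ℕ → ZMod 2) (fT : ℕ → Fin 3) :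
    ∃ (g : Fin 3 → ℕ → ℕ → ZMod 2) (lV lH : ℕ → ℕ → Fin 3),
      (∀ i j, j ≤ N → ∑ u, g u i j = χ i j) ∧
      (∀ u i j, j ≤ N → g u (i + 1) j ≠ g u i j → lV i j = u ∧ χ (i + 1) j ≠ χ i j) ∧
      (∀ u i j, j < N → g u i (j + 1) ≠ g u i j → lH i j = u ∧ χ i (j + 1) ≠ χ i j) ∧
      (∀ i, lV i 0 ≠ 2) ∧ (∀ i, lV i N ≠ fT i) ∧
      (∀ i j, j < N → χ (i + 1) (j + 1) ≠ χ i (j + 1) → χ (i + 1) (j + 1) ≠ χ (i + 1) j →
        lV i (j + 1) = lH (i + 1) j) ∧
      (∀ i j, j < N → χ (i + 1) j ≠ χ i j → χ i (j + 1) ≠ χ i j → lV i j = lH i j) := by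
  obtain ⟨lV, lH, h1, h2, h3⟩ := gridZ N (fun i j => χ i.toNat j.toNat) (fun i => fT i.toNat)
    (by positivity)
  have h4 := fun (i j : ℕ) (hj : j < N) => h3 i j (by positivity) (by exact_mod_cast hj)
  simp only [Int.toNat_natCast, Int.toNat_natCast_add_one] at h4
  let V : Fin 3 → ℕ → ℕ → ZMod 2 := fun u i j => if lV i j = u then χ i j + χ (i + 1) j else 0
  let Hh : Fin 3 → ℕ → ℕ → ZMod 2 := fun u i j => if lH i j = u then χ i j + χ i (j + 1) else 0
  let g : Fin 3 → ℕ → ℕ → ZMod 2 := fun u i j => (if u = 0 then χ 0 0 else 0) +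
    ∑ j' ∈ Finset.range j, Hh u 0 j' + ∑ i' ∈ Finset.range i, V u i' j
  have gV : ∀ u i j, g u (i + 1) j = g u i j + V u i j := by
    intro u i j
    simp only [g, Finset.sum_range_succ]
    ring
  have z2 : ∀ x y : ZMod 2, (x + y ≠ 0 ↔ y ≠ x) ∧ x + (x + y) = y ∧ (x ≠ y → x + y ≠ 0) := by
    decide
  have z4 : ∀ x a b c d : ZMod 2, a + b + c + d = 0 → x + c + b = x + a + d := by decide
  have gH : ∀ u i j, j < N → g u i (j + 1) = g u i j + Hh u i j := by
    intro u i j hj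
    induction i with
    | zero =>
      simp only [g, Finset.sum_range_succ, Finset.sum_range_zero]
      ring
    | succ i ih =>
      rw [gV, gV, ih]
      refine z4 _ _ _ _ _ ?_
      have := (h4 i j hj).1 u
      simpa [V, Hh] using this
  have sV : ∀ i j, ∑ u, V u i j = χ i j + χ (i + 1) j := by
    intro i j
    simp [V]
  have sH : ∀ i j, ∑ u, Hh u i j = χ i j + χ i (j + 1) := by
    intro i j
    simp [Hh]
  refine ⟨g, fun i j => lV i j, fun i j => lH i j, ?_, ?_, ?_, fun i => h1 i,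
    fun i => by simpa using h2 i, ?_, ?_⟩
  · intro i j hj
    induction i with
    | zero =>
      induction j with
      | zero => simp [g]
      | succ j ih =>
        simp only [gH _ _ _ (show j < N by omega), Finset.sum_add_distrib, ih (by omega), sH]
        exact (z2 _ _).2.1
    | succ i ih =>
      simp only [gV, Finset.sum_add_distrib, ih, sV]
      exact (z2 _ _).2.1
  · intro u i j _ h
    rw [gV] at h
    simp only [V, ne_eq, add_eq_left, ite_eq_right_iff, Classical.not_imp] at h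
    exact ⟨h.1, (z2 _ _).1.1 h.2⟩
  · intro u i j hj h
    rw [gH _ _ _ hj] at h
    simp only [Hh, ne_eq, add_eq_left, ite_eq_right_iff, Classical.not_imp] at h
    exact ⟨h.1, (z2 _ _).1.1 h.2⟩
  · intro i j hj a b
    simpa using (h4 i j hj).2.1 ((z2 _ _).1.2 a) ((z2 _ _).1.2 b)
  · intro i j hj a b
    exact (h4 i j hj).2.2 ((z2 _ _).1.2 a) ((z2 _ _).1.2 b)

end Pool.Agent.Lib.MP_840f9c_gt
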