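import Pool.Agent.Lib.MP_840f9c_gt.H32Cube

namespace Pool.Agent.Lib.MP_840f9c_gt.H32

open Set Topology Filter unitInterval

noncomputable def tx (u s : I) : I :=
  ⟨(min (54 * (s : ℝ)) (max 9 (27 - 27 * (s : ℝ))) + 2 * (u : ℝ)) / 20, by
    have := u.2.1; have := u.2.2; have := s.2.1; have := s.2.2
    simp only [mem_Icc, min_def, max_def]
    split_ifs <;> constructor <;> linarith⟩

noncomputable def ty (v s : I) : I :=
  ⟨(max (54 * (s : ℝ) - 36) (min 9 (18 - 27 * (s : ℝ))) + 2 * (v : ℝ)) / 20, by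
    have := v.2.1; have := v.2.2; have := s.2.1; have := s.2.2
    simp only [mem_Icc, min_def, max_def]
    split_ifs <;> constructor <;> linarith⟩

/-- A thin tube around a curve which crosses itself. -/
noncomputable def tube (p : QQ) : I × I := (tx p.1 p.2.2, ty p.2.1 p.2.2)

theorem continuous_tube : Continuous tube := by
  unfold tube tx ty
  fun_prop

noncomputable def Phi (p : QQ) : I × I × I := (p.2.2, tube p)

theorem isClosedEmbedding_Phi : IsClosedEmbedding Phi := by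
  refine Continuous.isClosedEmbedding ((continuous_snd.comp continuous_snd).prodMk
    continuous_tube) ?_
  rintro ⟨u, v, s⟩ ⟨u', v', s'⟩ h
  obtain rfl : s = s' := congrArg Prod.fst h
  have h1 := congrArg (fun p : QQ => (p.2.1 : ℝ)) h
  have h2 := congrArg (fun p : QQ => (p.2.2 : ℝ)) h
  simp only [Phi, tube, tx, ty] at h1 h2
  obtain rfl : u = u' := Subtype.ext (by linarith)
  obtain rfl : v = v' := Subtype.ext (by linarith)
  rfl

theorem ty_low (v s : I) (e : (s : ℝ) ≤ 1 / 3) :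
    (9 / 20 : ℝ) ≤ ty v s ∧ (ty v s : ℝ) ≤ 11 / 20 := by
  have := v.2.1
  have := v.2.2
  simp only [ty, min_def, max_def]
  split_ifs <;> constructor <;> linarith

theorem tx_high (u s : I) (e : 2 / 3 ≤ (s : ℝ)) :
    (9 / 20 : ℝ) ≤ tx u s ∧ (tx u s : ℝ) ≤ 11 / 20 := by
  have := u.2.1
  have := u.2.2
  simp only [tx, min_def, max_def]
  split_ifs <;> constructor <;> linarith

instance : LocallyPathConnectedSpace I := (convex_Icc (0 : ℝ) 1).locallyPathConnectedSpace

theorem noCross {W : Set (I × I)} (hW : IsClosed W) (h : C(I × I, I × I))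
    (h1 : ∀ b, dist (h b) b < 1 / 10) (h2 : ∀ b ∈ W, h b ∈ interior W) {K : Set QQ}
    (hK : IsPreconnected K) (k0 : ∃ p ∈ K, p.2.2 = 0) (k1 : ∃ p ∈ K, p.2.2 = 1)
    (hγ : ∀ p ∈ K, tube p ∈ frontier W) : False := by
  obtain ⟨G1, G2, g1, g2, g3, g4, g5⟩ := normal_separation isClosed_frontier
    (hW.isCompact.image h.continuous).isClosed (s := frontier W) (by
      rw [disjoint_left]
      rintro _ hb ⟨b, hb', rfl⟩
      exact hb.2 (h2 b hb'))
  let O : Set QQ := tube ⁻¹' (G1 ∩ h ⁻¹' G2)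
  have hO : IsOpen O := (g1.inter (g2.preimage h.continuous)).preimage continuous_tube
  have hKO : K ⊆ O := fun p hp => ⟨g3 (hγ p hp), g4 ⟨_, hW.frontier_subset (hγ p hp), rfl⟩⟩
  obtain ⟨a, ha, a0⟩ := k0
  obtain ⟨b, hb, b1⟩ := k1
  have hc : IsPathConnected (connectedComponentIn O a) :=
    hO.connectedComponentIn.isConnected_iff_isPathConnected.1
      (isConnected_connectedComponentIn_iff.2 (hKO ha))
  have hsub := hK.subset_connectedComponentIn ha hKO
  obtain ⟨π, hπ⟩ := (hc.joinedIn a (hsub ha) b (hsub hb)).mono (connectedComponentIn_subset _ _)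
  let t1 : I := ⟨1 / 3, by norm_num, by norm_num⟩
  let t2 : I := ⟨2 / 3, by norm_num, by norm_num⟩
  let P1 : I → I × I := fun s => tube ((π s).1, (π s).2.1, min (π s).2.2 t1)
  let P2 : I → I × I := fun s => tube ((π s).1, (π s).2.1, max (π s).2.2 t2)
  have c1 : Continuous P1 := continuous_tube.comp (by fun_prop)
  have c2 : Continuous P2 := continuous_tube.comp (by fun_prop)
  have d : ∀ s, |((h (P2 s)).1 : ℝ) - (P2 s).1| < 1 / 10 ∧
      |((h (P2 s)).2 : ℝ) - (P2 s).2| < 1 / 10 := fun s => by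
    have := h1 (P2 s)
    rwa [Prod.dist_eq, max_lt_iff] at this
  have y1 : ∀ s, (9 / 20 : ℝ) ≤ (P1 s).2 ∧ ((P1 s).2 : ℝ) ≤ 11 / 20 := fun s =>
    ty_low _ _ (min_le_right (π s).2.2 t1)
  have x2 : ∀ s, (9 / 20 : ℝ) ≤ (P2 s).1 ∧ ((P2 s).1 : ℝ) ≤ 11 / 20 := fun s =>
    tx_high _ _ (le_max_right (π s).2.2 t2)
  have x1 : ∀ s, t1 ≤ (π s).2.2 → (9 / 10 : ℝ) ≤ (P1 s).1 := fun s hs => by
    have := (π s).1.2.1
    simp only [P1, tube, tx, min_eq_right hs, t1]
    norm_num
    linarith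
  have y2 : ∀ s, (π s).2.2 ≤ t2 → ((P2 s).2 : ℝ) ≤ 1 / 10 := fun s hs => by
    have := (π s).2.1.2.2
    simp only [P2, tube, ty, max_eq_right hs, t2]
    norm_num
    linarith
  have x0 : ((P1 0).1 : ℝ) ≤ 1 / 10 := by
    have := a.1.2.2
    have e : min (0 : I) t1 = 0 := min_eq_left t1.2.1
    simp only [P1, tube, tx, π.source, a0, e]
    norm_num
    linarith
  have y3 : (9 / 10 : ℝ) ≤ (P2 1).2 := by
    have := b.2.1.2.1
    have e : max (1 : I) t2 = 1 := max_eq_left t2.2.2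
    simp only [P2, tube, ty, π.target, b1, e]
    norm_num
    linarith
  obtain ⟨⟨s, t⟩, e1, e2⟩ := miranda (f := fun p => ((P1 p.1).1 : ℝ) - (h (P2 p.2)).1)
    (g := fun p => ((h (P2 p.2)).2 : ℝ) - (P1 p.1).2) (by fun_prop) (by fun_prop)
    (fun t => by linarith [x2 t, abs_lt.1 (d t).1])
    (fun t => by
      have := x1 1 (by rw [π.target, b1]; exact t1.2.2)
      linarith [x2 t, abs_lt.1 (d t).1])
    (fun s => by
      have := y2 0 (by rw [π.source, a0]; exact t2.2.1)
      linarith [y1 s, abs_lt.1 (d 0).2])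
    (fun s => by linarith [y1 s, abs_lt.1 (d 1).2])
  simp only at e1 e2
  have q1 : (π s).2.2 ≤ t1 := by
    by_contra hh
    linarith [x1 s (not_le.1 hh).le, x2 t, abs_lt.1 (d t).1]
  have q2 : t2 ≤ (π t).2.2 := by
    by_contra hh
    linarith [y2 t (not_le.1 hh).le, y1 s, abs_lt.1 (d t).2]
  have r1 : P1 s = tube (π s) := by simp only [P1, min_eq_left q1]
  have r2 : P2 t = tube (π t) := by simp only [P2, max_eq_left q2]
  have r3 : P1 s = h (P2 t) :=
    Prod.ext (Subtype.ext (by linarith)) (Subtype.ext (by linarith))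
  refine disjoint_left.1 g5 (hπ s).1 ?_
  rw [← r1, r3, r2]
  exact (hπ t).2

end Pool.Agent.Lib.MP_840f9c_gt.H32
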