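import Pool.Agent.Lib.MP_840f9c_gt.Gadget
import Pool.Agent.Shared.Kuhn.Sperner

namespace Pool.Agent.Lib.MP_840f9c_gt.H32

open Set Topology Filter unitInterval

abbrev QQ : Type := I × I × I

theorem miranda3 {f g h : QQ → ℝ} (hf : Continuous f) (hg : Continuous g) (hh : Continuous h)
    (f0 : ∀ p, p.1 = 0 → f p ≤ 0) (f1 : ∀ p, p.1 = 1 → 0 ≤ f p)
    (g0 : ∀ p, p.2.1 = 0 → g p ≤ 0) (g1 : ∀ p, p.2.1 = 1 → 0 ≤ g p)
    (h0 : ∀ p, p.2.2 = 0 → h p ≤ 0) (h1 : ∀ p, p.2.2 = 1 → 0 ≤ h p) :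
    ∃ p, f p = 0 ∧ g p = 0 ∧ h p = 0 := by
  let c : (Fin 3 → ℝ) → QQ := fun x => (projIcc 0 1 zero_le_one (x 0),
    projIcc 0 1 zero_le_one (x 1), projIcc 0 1 zero_le_one (x 2))
  have hc : Continuous c := by
    refine (continuous_projIcc.comp (continuous_apply 0)).prodMk
      ((continuous_projIcc.comp (continuous_apply 1)).prodMk
        (continuous_projIcc.comp (continuous_apply 2)))
  obtain ⟨x, -, hx⟩ := Pool.Agent.Shared.Kuhn.poincare_miranda (a := fun _ : Fin 3 => 0)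
    (b := fun _ => 1) (fun _ => zero_le_one) (fun x => ![f (c x), g (c x), h (c x)])
    (Continuous.continuousOn (continuous_pi fun i => by
      fin_cases i
      · exact hf.comp hc
      · exact hg.comp hc
      · exact hh.comp hc))
    (by
      intro x _ i hi
      fin_cases i
      · exact f0 _ (by simp only [c]; rw [show x 0 = 0 from hi]; simp)
      · exact g0 _ (by simp only [c]; rw [show x 1 = 0 from hi]; simp)
      · exact h0 _ (by simp only [c]; rw [show x 2 = 0 from hi]; simp))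
    (by
      intro x _ i hi
      fin_cases i
      · exact f1 _ (by simp only [c]; rw [show x 0 = 1 from hi]; simp)
      · exact g1 _ (by simp only [c]; rw [show x 1 = 1 from hi]; simp)
      · exact h1 _ (by simp only [c]; rw [show x 2 = 1 from hi]; simp))
  exact ⟨c x, congrFun hx 0, congrFun hx 1, congrFun hx 2⟩

/-- A sign function attached to two closed sets and one coordinate. -/
theorem sgn_fun {π : QQ → I} (hπ : Continuous π) (hs : Function.Surjective π) {P0 P1 : Set QQ}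
    (h0 : IsClosed P0) (h1 : IsClosed P1) (a0 : ∀ p ∈ P0, π p ≠ 1) (a1 : ∀ p ∈ P1, π p ≠ 0) :
    ∃ f : QQ → ℝ, Continuous f ∧ (∀ p, π p = 0 → f p ≤ 0) ∧ (∀ p, π p = 1 → 0 ≤ f p) ∧
      ∀ p ∈ P0 ∪ P1, f p = 0 → p ∈ P0 ∩ P1 := by
  let R0 := P0 ∪ {p | π p = 0}
  let R1 := P1 ∪ {p | π p = 1}
  have c0 : IsClosed R0 := h0.union (isClosed_eq hπ continuous_const)
  have c1 : IsClosed R1 := h1.union (isClosed_eq hπ continuous_const)
  have n0 : R0.Nonempty := let ⟨p, hp⟩ := hs 0; ⟨p, Or.inr hp⟩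
  have n1 : R1.Nonempty := let ⟨p, hp⟩ := hs 1; ⟨p, Or.inr hp⟩
  refine ⟨fun p => Metric.infDist p R0 - Metric.infDist p R1,
    (Metric.continuous_infDist_pt _).sub (Metric.continuous_infDist_pt _), fun p hp => ?_,
    fun p hp => ?_, fun p hp hf => ?_⟩
  · simp only [Metric.infDist_zero_of_mem (show p ∈ R0 from Or.inr hp)]
    linarith [Metric.infDist_nonneg (x := p) (s := R1)]
  · simp only [Metric.infDist_zero_of_mem (show p ∈ R1 from Or.inr hp)]
    linarith [Metric.infDist_nonneg (x := p) (s := R0)]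
  · have e : p ∈ R0 ∧ p ∈ R1 := by
      rw [c0.mem_iff_infDist_zero n0, c1.mem_iff_infDist_zero n1]
      rcases hp with hp | hp
      · have := Metric.infDist_zero_of_mem (show p ∈ R0 from Or.inl hp)
        exact ⟨this, by simp only at hf; linarith⟩
      · have := Metric.infDist_zero_of_mem (show p ∈ R1 from Or.inl hp)
        exact ⟨by simp only at hf; linarith, this⟩
    rcases e with ⟨e0 | e0, e1 | e1⟩
    · exact ⟨e0, e1⟩
    · exact (a0 p e0 e1).elim
    · exact (a1 p e1 e0).elim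
    · exact (zero_ne_one (α := I) (e0.symm.trans e1)).elim

theorem ess3 {P0 P1 R0 R1 T0 T1 : Set QQ} (p0 : IsClosed P0) (p1 : IsClosed P1)
    (r0 : IsClosed R0) (r1 : IsClosed R1) (t0 : IsClosed T0) (t1 : IsClosed T1)
    (a0 : ∀ p ∈ P0, p.1 ≠ 1) (a1 : ∀ p ∈ P1, p.1 ≠ 0)
    (b0 : ∀ p ∈ R0, p.2.1 ≠ 1) (b1 : ∀ p ∈ R1, p.2.1 ≠ 0)
    (c0 : ∀ p ∈ T0, p.2.2 ≠ 1) (c1 : ∀ p ∈ T1, p.2.2 ≠ 0)
    (hP : ∀ p, p ∈ P0 ∪ P1) (hR : P0 ∩ P1 ⊆ R0 ∪ R1) (hT : P0 ∩ P1 ∩ (R0 ∩ R1) ⊆ T0 ∪ T1) :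
    (T0 ∩ T1).Nonempty := by
  obtain ⟨f, f1, f2, f3, f4⟩ := sgn_fun (π := fun p => p.1) continuous_fst
    (fun x => ⟨(x, 0, 0), rfl⟩) p0 p1 a0 a1
  obtain ⟨g, g1, g2, g3, g4⟩ := sgn_fun (π := fun p => p.2.1) (by fun_prop)
    (fun x => ⟨(0, x, 0), rfl⟩) r0 r1 b0 b1
  obtain ⟨h, h1, h2, h3, h4⟩ := sgn_fun (π := fun p => p.2.2) (by fun_prop)
    (fun x => ⟨(0, 0, x), rfl⟩) t0 t1 c0 c1
  obtain ⟨p, e1, e2, e3⟩ := miranda3 f1 g1 h1 f2 f3 g2 g3 h2 h3
  have k1 := f4 p (hP p) e1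
  have k2 := g4 p (hR k1) e2
  exact ⟨p, h4 p (hT ⟨k1, k2⟩) e3⟩

theorem face_step {π : QQ → I} (hπ : Continuous π) {S : Set QQ} (hS : IsClosed S) {n : ℕ}
    (h : SLT (n + 1) S) : ∃ R0 R1 : Set QQ, IsClosed R0 ∧ IsClosed R1 ∧ (∀ p ∈ R0, π p ≠ 1) ∧
      (∀ p ∈ R1, π p ≠ 0) ∧ S ⊆ R0 ∪ R1 ∧ SLT n (R0 ∩ R1) := by
  obtain ⟨U, V, hU, hV, h1, h2, hd, hL⟩ := h (S ∩ {p | π p = 0}) (S ∩ {p | π p = 1})
    (hS.inter (isClosed_eq hπ continuous_const)) (hS.inter (isClosed_eq hπ continuous_const))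
    inter_subset_left inter_subset_left
    (disjoint_left.2 fun p h h' => zero_ne_one (α := I) (h.2.symm.trans h'.2))
  refine ⟨S \ V, S \ U, hS.sdiff hV, hS.sdiff hU, fun p hp e => hp.2 (h2 ⟨hp.1, e⟩),
    fun p hp e => hp.2 (h1 ⟨hp.1, e⟩), fun p hp => ?_,
    hL.mono fun p hp => ⟨hp.1.1, fun h => h.elim hp.2.2 hp.1.2⟩⟩
  by_cases hpV : p ∈ V
  · exact Or.inr ⟨hp, fun h => disjoint_left.1 hd ⟨hp, h⟩ hpV⟩
  · exact Or.inl ⟨hp, hpV⟩

theorem not_SLT_part {P0 P1 : Set QQ} (p0 : IsClosed P0) (p1 : IsClosed P1)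
    (a0 : ∀ p ∈ P0, p.1 ≠ 1) (a1 : ∀ p ∈ P1, p.1 ≠ 0) (hP : ∀ p, p ∈ P0 ∪ P1) :
    ¬ SLT 2 (P0 ∩ P1) := by
  intro h
  obtain ⟨R0, R1, r0, r1, b0, b1, hR, h'⟩ := face_step (π := fun p => p.2.1) (by fun_prop)
    (p0.inter p1) h
  obtain ⟨T0, T1, t0, t1, c0, c1, hT, h''⟩ := face_step (π := fun p => p.2.2) (by fun_prop)
    (r0.inter r1) h'
  exact (ess3 p0 p1 r0 r1 t0 t1 a0 a1 b0 b1 c0 c1 hP hR fun p hp => hT hp.2).ne_empty h''

theorem not_SLT_cube : ¬ SLT 3 (univ : Set QQ) := by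
  intro h
  obtain ⟨P0, P1, p0, p1, a0, a1, hP, h'⟩ := face_step (π := fun p => p.1) continuous_fst
    isClosed_univ h
  exact not_SLT_part p0 p1 a0 a1 (fun p => hP trivial) h'

/-- convex combination in the unit interval -/
noncomputable def cv (a b t : I) : I :=
  ⟨(1 - t) * a + t * b, by
    have := a.2.1; have := a.2.2; have := b.2.1; have := b.2.2; have := t.2.1; have := t.2.2
    constructor <;> nlinarith⟩

theorem continuous_cv {X : Type} [TopologicalSpace X] {a b t : X → I} (ha : Continuous a)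
    (hb : Continuous b) (ht : Continuous t) : Continuous fun x => cv (a x) (b x) (t x) := by
  unfold cv
  fun_prop

theorem dist_cv (a b t z : I) {r : ℝ} (ha : dist a z ≤ r) (hb : dist b z ≤ r) :
    dist (cv a b t) z ≤ r := by
  have := t.2.1
  have := t.2.2
  rw [Subtype.dist_eq, Real.dist_eq, abs_le] at *
  simp only [cv]
  constructor <;> nlinarith [ha.1, ha.2, hb.1, hb.2]

theorem dist_cv' (a b t : I) : dist (cv a b t) a ≤ t := by
  have := a.2.1; have := a.2.2; have := b.2.1; have := b.2.2; have := t.2.1; have := t.2.2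
  rw [Subtype.dist_eq, Real.dist_eq, abs_le]
  simp only [cv]
  constructor <;> nlinarith

theorem thin (a b : QQ) {ε : ℝ} (hε : 0 < ε) : ∃ φ : QQ → QQ, IsClosedEmbedding φ ∧
    (∀ p, p.1 = 0 → dist (φ p) a ≤ ε) ∧ (∀ p, p.1 = 1 → dist (φ p) b ≤ ε) ∧
    ∀ z r, dist a z ≤ r → dist b z ≤ r → ∀ p, dist (φ p) z ≤ r + ε := by
  let e : I := ⟨min ε 1, le_min hε.le zero_le_one, min_le_right _ _⟩
  have e0 : (0 : ℝ) < e := lt_min hε one_pos
  have e1 : (e : ℝ) ≤ ε := min_le_left _ _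
  let w : I → I := fun u => if a.1 ≤ b.1 then u else σ u
  have hw : Continuous w := by
    simp only [w]
    split_ifs <;> fun_prop
  let l : I → QQ := fun u => (cv a.1 b.1 u, cv a.2.1 b.2.1 u, cv a.2.2 b.2.2 u)
  let φ : QQ → QQ := fun p => (cv (l p.1).1 (w p.1) e, cv (l p.1).2.1 p.2.1 e,
    cv (l p.1).2.2 p.2.2 e)
  have hl : ∀ p, dist (φ p) (l p.1) ≤ ε := fun p => by
    rw [Prod.dist_eq, Prod.dist_eq]
    exact max_le ((dist_cv' _ _ _).trans e1)
      (max_le ((dist_cv' _ _ _).trans e1) ((dist_cv' _ _ _).trans e1))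
  have c1 : ∀ x y : I, Continuous fun p : QQ => cv x y p.1 := fun x y =>
    continuous_cv continuous_const continuous_const continuous_fst
  have hc : Continuous φ :=
    (continuous_cv (c1 _ _) (hw.comp continuous_fst) continuous_const).prodMk
      ((continuous_cv (c1 _ _) (by fun_prop) continuous_const).prodMk
        (continuous_cv (c1 _ _) (by fun_prop) continuous_const))
  refine ⟨φ, hc.isClosedEmbedding ?_, fun p hp => ?_, fun p hp => ?_, fun z r ha hb p => ?_⟩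
  · rintro ⟨u, v, s⟩ ⟨u', v', s'⟩ h
    have h1 := congrArg (fun p : QQ => (p.1 : ℝ)) h
    have h2 := congrArg (fun p : QQ => (p.2.1 : ℝ)) h
    have h3 := congrArg (fun p : QQ => (p.2.2 : ℝ)) h
    simp only [φ, l, cv] at h1 h2 h3
    have e2 : (e : ℝ) ≤ 1 := e.2.2
    obtain rfl : u = u' := by
      apply Subtype.ext
      simp only [w] at h1
      split_ifs at h1 with hab
      · have hab' : (a.1 : ℝ) ≤ b.1 := hab
        have : ((u : ℝ) - u') * ((1 - e) * (b.1 - a.1) + e) = 0 := by linarith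
        rcases mul_eq_zero.1 this with h | h
        · linarith
        · nlinarith
      · have hab' : (b.1 : ℝ) ≤ a.1 := (not_le.1 hab).le
        simp only [coe_symm_eq] at h1
        have : ((u : ℝ) - u') * ((1 - e) * (a.1 - b.1) + e) = 0 := by linarith
        rcases mul_eq_zero.1 this with h | h
        · linarith
        · nlinarith
    obtain rfl : v = v' := Subtype.ext (mul_left_cancel₀ e0.ne' (by linarith))
    obtain rfl : s = s' := Subtype.ext (mul_left_cancel₀ e0.ne' (by linarith))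
    rfl
  · have : l p.1 = a := by
      rw [hp]
      ext <;> simp [l, cv]
    exact this ▸ hl p
  · have : l p.1 = b := by
      rw [hp]
      ext <;> simp [l, cv]
    exact this ▸ hl p
  · have : dist (l p.1) z ≤ r := by
      rw [Prod.dist_eq, Prod.dist_eq, max_le_iff, max_le_iff] at ha hb ⊢
      exact ⟨dist_cv _ _ _ _ ha.1 hb.1, dist_cv _ _ _ _ ha.2.1 hb.2.1,
        dist_cv _ _ _ _ ha.2.2 hb.2.2⟩
    linarith [dist_triangle (φ p) (l p.1) z, hl p]

theorem dense_of_SLT {S : Set QQ} (h : SLT 3 S) : Dense Sᶜ := by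
  intro z
  rw [Metric.mem_closure_iff]
  intro ε hε
  by_contra hh
  push Not at hh
  obtain ⟨φ, h1, -, -, h2⟩ := thin z z (half_pos hε)
  refine not_SLT_cube ((h.pull h1).mono fun p _ => ?_)
  by_contra hp
  have := hh (φ p) hp
  have := h2 z 0 (by simp) (by simp) p
  rw [dist_comm] at this
  linarith

theorem not_SLT_loc {U V : Set QQ} (hU : IsOpen U) (hV : IsOpen V) (hd : Disjoint U V)
    (hden : Dense (U ∪ V)) {z : QQ} (hz : z ∈ closure U ∩ closure V) {ε : ℝ} (hε : 0 < ε) :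
    ¬ SLT 2 (closure U ∩ closure V ∩ Metric.ball z ε) := by
  intro h
  obtain ⟨a, ha, da⟩ := Metric.mem_closure_iff.1 hz.1 (ε / 3) (by positivity)
  obtain ⟨b, hb, db⟩ := Metric.mem_closure_iff.1 hz.2 (ε / 3) (by positivity)
  obtain ⟨ra, ra0, hra⟩ := Metric.isOpen_iff.1 hU a ha
  obtain ⟨rb, rb0, hrb⟩ := Metric.isOpen_iff.1 hV b hb
  obtain ⟨e, e0, e1, e2, e3⟩ : ∃ e > 0, e < ra ∧ e < rb ∧ e < ε / 3 := by
    have : 0 < min ra (min rb (ε / 3)) := by positivity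
    refine ⟨min ra (min rb (ε / 3)) / 2, by positivity, ?_, ?_, ?_⟩
    · linarith [min_le_left ra (min rb (ε / 3))]
    · linarith [min_le_right ra (min rb (ε / 3)), min_le_left rb (ε / 3)]
    · linarith [min_le_right ra (min rb (ε / 3)), min_le_right rb (ε / 3)]
  obtain ⟨φ, h1, h2, h3, h4⟩ := thin a b e0
  refine not_SLT_part (isClosed_closure.preimage h1.continuous)
    (isClosed_closure.preimage h1.continuous) (P0 := φ ⁻¹' closure U) (P1 := φ ⁻¹' closure V)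
    (fun p hp e => ?_) (fun p hp e => ?_) (fun p => ?_) ((h.pull h1).mono fun p hp => ⟨hp, ?_⟩)
  · exact disjoint_left.1 (hd.closure_left hV) hp (hrb ((h3 p e).trans_lt e2))
  · exact disjoint_left.1 (hd.closure_right hU) (hra ((h2 p e).trans_lt e1)) hp
  · have := hden (φ p)
    rwa [closure_union] at this
  · have := h4 z (ε / 3) (by rw [dist_comm]; exact da.le) (by rw [dist_comm]; exact db.le) p
    rw [Metric.mem_ball]
    linarith

theorem conn_or_sep {X : Type} [TopologicalSpace X] [T2Space X] {L A C : Set X} (hL : IsCompact L)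
    (hA : IsClosed A) (hC : IsClosed C)
    (h : ∀ K ⊆ L, IsPreconnected K → (K ∩ A).Nonempty → (K ∩ C).Nonempty → False) :
    ∃ T0 T1 : Set X, IsClosed T0 ∧ IsClosed T1 ∧ Disjoint T0 C ∧ Disjoint T1 A ∧ L ⊆ T0 ∪ T1 ∧
      Disjoint T0 T1 := by
  have : CompactSpace L := isCompact_iff_compactSpace.1 hL
  have hC' : IsCompact (Subtype.val ⁻¹' C : Set L) := (hC.preimage continuous_subtype_val).isCompact
  have hA' : IsCompact (Subtype.val ⁻¹' A : Set L) := (hA.preimage continuous_subtype_val).isCompact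
  have key : ∀ a : L, a.1 ∈ A → ∃ Z : Set L, IsClopen Z ∧ a ∈ Z ∧ Disjoint Z (Subtype.val ⁻¹' C) := by
    intro a ha
    have h1 : (Subtype.val ⁻¹' C : Set L) ∩ ⋂ Z : {Z : Set L // IsClopen Z ∧ a ∈ Z}, Z.1 = ∅ := by
      rw [← connectedComponent_eq_iInter_isClopen, eq_empty_iff_forall_notMem]
      rintro c ⟨hc, hc'⟩
      exact h (Subtype.val '' connectedComponent a) (by rintro _ ⟨x, -, rfl⟩; exact x.2)
        (isPreconnected_connectedComponent.image _ continuous_subtype_val.continuousOn)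
        ⟨a, ⟨a, mem_connectedComponent, rfl⟩, ha⟩ ⟨c, ⟨c, hc', rfl⟩, hc⟩
    obtain ⟨t, ht⟩ := hC'.elim_finite_subfamily_closed _ (fun Z => Z.2.1.isClosed) h1
    refine ⟨⋂ Z ∈ t, Z.1, isClopen_biInter_finset fun Z _ => Z.2.1,
      mem_iInter₂.2 fun Z _ => Z.2.2, ?_⟩
    rw [disjoint_comm, disjoint_iff_inter_eq_empty]
    exact ht
  choose! Z z1 z2 z3 using key
  obtain ⟨t, t1, t2⟩ := hA'.elim_nhds_subcover Z fun a ha => (z1 a ha).isOpen.mem_nhds (z2 a ha)
  have hZ : IsClopen (⋃ a ∈ t, Z a) := isClopen_biUnion_finset fun a ha => z1 a (t1 a ha)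
  have ce := hL.isClosed.isClosedEmbedding_subtypeVal
  refine ⟨Subtype.val '' ⋃ a ∈ t, Z a, Subtype.val '' (⋃ a ∈ t, Z a)ᶜ,
    ce.isClosedMap _ hZ.isClosed, ce.isClosedMap _ hZ.compl.isClosed, ?_, ?_, ?_,
    (disjoint_image_iff Subtype.val_injective).2 disjoint_compl_right⟩
  · rw [disjoint_left]
    rintro _ ⟨x, hx, rfl⟩ hc
    obtain ⟨a, ha, hx⟩ := mem_iUnion₂.1 hx
    exact disjoint_left.1 (z3 a (t1 a ha)) hx hc
  · rw [disjoint_left]
    rintro _ ⟨x, hx, rfl⟩ hc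
    exact hx (t2 hc)
  · intro x hx
    by_cases h : (⟨x, hx⟩ : L) ∈ ⋃ a ∈ t, Z a
    · exact Or.inl ⟨_, h, rfl⟩
    · exact Or.inr ⟨_, h, rfl⟩

/-- The bichromatic set of two successive partitions. -/
def Lam {X : Type} [TopologicalSpace X] (U V U' V' : Set X) : Set X :=
  closure (closure U ∩ closure V ∩ U') ∩ closure (closure U ∩ closure V ∩ V')

theorem cube_main {U V U' V' : Set QQ} (hU : IsOpen U) (hV : IsOpen V) (hU' : IsOpen U')
    (hV' : IsOpen V') (hd : Disjoint U V) (hd' : Disjoint ((U ∪ V)ᶜ ∩ U') V')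
    (a0 : ∀ p, p.1 = 0 → p ∈ U) (a1 : ∀ p, p.1 = 1 → p ∈ V)
    (b0 : ∀ p ∈ (U ∪ V)ᶜ, p.2.1 = 0 → p ∈ U') (b1 : ∀ p ∈ (U ∪ V)ᶜ, p.2.1 = 1 → p ∈ V')
    (h3 : SLT 3 (U ∪ V)ᶜ) (h2 : SLT 2 ((U ∪ V)ᶜ \ (U' ∪ V'))) :
    ∃ K ⊆ Lam U V U' V', IsPreconnected K ∧ (∃ p ∈ K, p.2.2 = 0) ∧ ∃ p ∈ K, p.2.2 = 1 := by
  by_contra hh
  have hden : Dense (U ∪ V) := compl_compl (U ∪ V) ▸ dense_of_SLT h3
  have hS : closure U ∩ closure V ⊆ (U ∪ V)ᶜ := by
    rintro p ⟨h1, h2⟩ (h | h)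
    · exact disjoint_left.1 (hd.closure_right hU) h h2
    · exact disjoint_left.1 (hd.closure_left hV) h1 h
  have hSc : IsClosed (closure U ∩ closure V) := isClosed_closure.inter isClosed_closure
  obtain ⟨T0, T1, t0, t1, c0, c1, hT, hTT⟩ := conn_or_sep (L := Lam U V U' V')
    (A := {p | p.2.2 = 0}) (C := {p | p.2.2 = 1})
    (isClosed_closure.inter isClosed_closure).isCompact
    (isClosed_eq (by fun_prop) continuous_const) (isClosed_eq (by fun_prop) continuous_const)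
    (fun K h1 h2 h3 h4 => hh ⟨K, h1, h2, h3, h4⟩)
  refine (ess3 (P0 := closure U) (P1 := closure V) (R0 := closure (closure U ∩ closure V ∩ U'))
    (R1 := closure (closure U ∩ closure V ∩ V')) isClosed_closure isClosed_closure
    isClosed_closure isClosed_closure t0 t1
    (fun p hp e => disjoint_left.1 (hd.closure_left hV) hp (a1 p e))
    (fun p hp e => disjoint_left.1 (hd.closure_right hU) (a0 p e) hp) (fun p hp e => ?_)
    (fun p hp e => ?_) (fun p hp e => disjoint_left.1 c0 hp e)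
    (fun p hp e => disjoint_left.1 c1 hp e) (fun p => by rw [← closure_union]; exact hden p)
    (fun p hp => ?_) (fun p hp => hT hp.2)).ne_empty (disjoint_iff_inter_eq_empty.1 hTT)
  · obtain ⟨x, x1, x2⟩ := mem_closure_iff.1 hp V' hV'
      (b1 p (hS (closure_minimal inter_subset_left hSc hp)) e)
    exact disjoint_left.1 hd' ⟨hS x2.1, x2.2⟩ x1
  · obtain ⟨x, x1, x2⟩ := mem_closure_iff.1 hp U' hU'
      (b0 p (hS (closure_minimal inter_subset_left hSc hp)) e)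
    exact disjoint_left.1 hd' ⟨hS x2.1, x1⟩ x2.2
  · rw [← closure_union, ← inter_union_distrib_left, Metric.mem_closure_iff]
    intro ε hε
    by_contra h
    push Not at h
    refine not_SLT_loc hU hV hd hden hp hε (h2.mono fun x hx => ⟨hS hx.1, fun h' => ?_⟩)
    have := h x ⟨hx.1, h'⟩
    have := hx.2
    rw [Metric.mem_ball, dist_comm] at this
    linarith

end Pool.Agent.Lib.MP_840f9c_gt.H32
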