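import Pool.Agent.Lib.MP_840f9c_gt.Gadget

namespace Pool.Agent.Lib.MP_840f9c_gt.H32

open Set Topology Filter unitInterval

/-- A family of closed subsets of the square whose boundaries are in general position. -/
structure Fam where
  κ : Type
  W : κ → Set (I × I)
  closed : ∀ k, IsClosed (W k)
  sep : ∀ A C : Set (I × I), IsClosed A → IsClosed C → Disjoint A C →
    ∃ k, A ⊆ interior (W k) ∧ C ⊆ (W k)ᶜ
  aux : ∀ k (A C : Set (I × I)), IsClosed A → IsClosed C → Disjoint A C →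
    ∃ W' : Set (I × I), IsClosed W' ∧ A ⊆ interior W' ∧ C ⊆ W'ᶜ ∧
      (frontier (W k) ∩ frontier W').Finite ∧
      ∀ b ∈ frontier (W k) ∩ frontier W', ∀ l, b ∈ frontier (W l) → l = k
  two : ∀ b k l m, b ∈ frontier (W k) → b ∈ frontier (W l) → b ∈ frontier (W m) →
    k = l ∨ k = m ∨ l = m
  fin : ∀ k l, k ≠ l → (frontier (W k) ∩ frontier (W l)).Finite
  push : ∀ k (η : ℝ), 0 < η → ∃ h : C(I × I, I × I), (∀ b, dist (h b) b < η) ∧
    ∀ b ∈ W k, h b ∈ interior (W k)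

/-- The cosets `ℚ + j √2`. -/
def DD (j : ℤ) : Set ℝ := {x | ∃ r : ℚ, x = r + j * √2}

theorem DD_eq {j j' : ℤ} {x : ℝ} (h : x ∈ DD j) (h' : x ∈ DD j') : j = j' := by
  obtain ⟨r, hr⟩ := h
  obtain ⟨r', hr'⟩ := h'
  by_contra hne
  have h1 : ((j - j' : ℤ) : ℝ) ≠ 0 := by exact_mod_cast sub_ne_zero.2 hne
  refine irrational_sqrt_two ⟨(r' - r) / (j - j' : ℤ), ?_⟩
  push_cast at h1 ⊢
  field_simp
  linarith

theorem DD_dense (j : ℤ) {a b : ℝ} (h : a < b) : ∃ x ∈ DD j, a < x ∧ x < b := by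
  obtain ⟨r, h1, h2⟩ := exists_rat_btwn (show a - j * √2 < b - j * √2 by linarith)
  exact ⟨r + j * √2, ⟨r, rfl⟩, by linarith, by linarith⟩

abbrev KK : Type := (Finset (ℚ × ℚ) × ℕ) × Bool

noncomputable def enc (k : KK) : ℤ := (Encodable.encode k : ℤ) + 1

theorem enc_pos (k : KK) : 0 < enc k := by
  unfold enc
  omega

theorem enc_inj {k l : KK} (h : enc k = enc l) : k = l := by
  unfold enc at h
  exact Encodable.encode_injective (by omega)

theorem exists_th (k : KK) :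
    ∃ x ∈ DD (enc k), 1 / ((k.1.2 : ℝ) + 2) < x ∧ x < 1 / ((k.1.2 : ℝ) + 1) :=
  DD_dense _ (one_div_lt_one_div_of_lt (by positivity) (by linarith))

noncomputable def th (k : KK) : ℝ := (exists_th k).choose

def WW (k : KK) : Set (I × I) :=
  {b | ∃ c ∈ k.1.1, |(b.1 : ℝ) - c.1| ≤ th k ∧ |(b.2 : ℝ) - c.2| ≤ th k}

def LL (k : KK) : Set ℝ := {x | ∃ c ∈ k.1.1, x = c.1 - th k ∨ x = c.2 - th k}

def RS (k : KK) : Set ℝ := {x | ∃ c ∈ k.1.1, x = c.1 + th k ∨ x = c.2 + th k}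

theorem LL_fin (k : KK) : (LL k).Finite := by
  refine ((k.1.1.finite_toSet.image fun c => (c.1 : ℝ) - th k).union
    (k.1.1.finite_toSet.image fun c => (c.2 : ℝ) - th k)).subset ?_
  rintro x ⟨c, hc, h | h⟩
  · exact Or.inl ⟨c, hc, h.symm⟩
  · exact Or.inr ⟨c, hc, h.symm⟩

theorem RS_fin (k : KK) : (RS k).Finite := by
  refine ((k.1.1.finite_toSet.image fun c => (c.1 : ℝ) + th k).union
    (k.1.1.finite_toSet.image fun c => (c.2 : ℝ) + th k)).subset ?_
  rintro x ⟨c, hc, h | h⟩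
  · exact Or.inl ⟨c, hc, h.symm⟩
  · exact Or.inr ⟨c, hc, h.symm⟩

theorem LL_sub (k : KK) : LL k ⊆ DD (-enc k) := by
  obtain ⟨r, hr⟩ := (exists_th k).choose_spec.1
  rintro x ⟨c, -, h | h⟩
  · exact ⟨c.1 - r, by rw [h, th, hr]; push_cast; ring⟩
  · exact ⟨c.2 - r, by rw [h, th, hr]; push_cast; ring⟩

theorem RS_sub (k : KK) : RS k ⊆ DD (enc k) := by
  obtain ⟨r, hr⟩ := (exists_th k).choose_spec.1
  rintro x ⟨c, -, h | h⟩
  · exact ⟨c.1 + r, by rw [h, th, hr]; push_cast; ring⟩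
  · exact ⟨c.2 + r, by rw [h, th, hr]; push_cast; ring⟩

theorem XX_eq {k l : KK} {x : ℝ} (h : x ∈ LL k ∪ RS k) (h' : x ∈ LL l ∪ RS l) : k = l := by
  have := enc_pos k
  have := enc_pos l
  rcases h with h | h <;> rcases h' with h' | h'
  · exact enc_inj (by have := DD_eq (LL_sub k h) (LL_sub l h'); omega)
  · have := DD_eq (LL_sub k h) (RS_sub l h')
    omega
  · have := DD_eq (RS_sub k h) (LL_sub l h')
    omega
  · exact enc_inj (DD_eq (RS_sub k h) (RS_sub l h'))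

theorem WW_closed (k : KK) : IsClosed (WW k) := by
  have : WW k = ⋃ c ∈ k.1.1, {b : I × I | |(b.1 : ℝ) - c.1| ≤ th k ∧ |(b.2 : ℝ) - c.2| ≤ th k} := by
    ext b
    simp only [WW, mem_ofPred_eq, mem_iUnion, exists_prop]
  rw [this]
  exact k.1.1.finite_toSet.isClosed_biUnion fun c _ =>
    (isClosed_le (by fun_prop) continuous_const).and (isClosed_le (by fun_prop) continuous_const)

theorem mem_int {k : KK} {b : I × I} {c : ℚ × ℚ} (hc : c ∈ k.1.1)
    (h1 : |(b.1 : ℝ) - c.1| < th k) (h2 : |(b.2 : ℝ) - c.2| < th k) : b ∈ interior (WW k) := by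
  refine interior_maximal
    (t := {b : I × I | |(b.1 : ℝ) - c.1| < th k ∧ |(b.2 : ℝ) - c.2| < th k})
    (fun b hb => show b ∈ WW k from ⟨c, hc, hb.1.le, hb.2.le⟩)
    ((isOpen_lt (by fun_prop) continuous_const).and (isOpen_lt (by fun_prop) continuous_const))
    ⟨h1, h2⟩

theorem fr_sub {k : KK} {b : I × I} (hb : b ∈ frontier (WW k)) :
    (b.1 : ℝ) ∈ LL k ∪ RS k ∨ (b.2 : ℝ) ∈ LL k ∪ RS k := by
  rw [(WW_closed k).frontier_eq] at hb
  obtain ⟨⟨c, hc, h1, h2⟩, h3⟩ := hb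
  rcases h1.lt_or_eq with h1 | h1
  · rcases h2.lt_or_eq with h2 | h2
    · exact (h3 (mem_int hc h1 h2)).elim
    · rcases (abs_eq (h2 ▸ abs_nonneg _)).1 h2 with h | h
      · exact Or.inr (Or.inr ⟨c, hc, Or.inr (by linarith)⟩)
      · exact Or.inr (Or.inl ⟨c, hc, Or.inr (by linarith)⟩)
  · rcases (abs_eq (h1 ▸ abs_nonneg _)).1 h1 with h | h
    · exact Or.inl (Or.inr ⟨c, hc, Or.inl (by linarith)⟩)
    · exact Or.inl (Or.inl ⟨c, hc, Or.inl (by linarith)⟩)

theorem WW_two {b : I × I} {k l m : KK} (hk : b ∈ frontier (WW k)) (hl : b ∈ frontier (WW l))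
    (hm : b ∈ frontier (WW m)) : k = l ∨ k = m ∨ l = m := by
  rcases fr_sub hk with h1 | h1 <;> rcases fr_sub hl with h2 | h2 <;>
    rcases fr_sub hm with h3 | h3 <;>
    first
    | exact Or.inl (XX_eq h1 h2)
    | exact Or.inr (Or.inl (XX_eq h1 h3))
    | exact Or.inr (Or.inr (XX_eq h2 h3))

theorem WW_fin {k l : KK} (h : k ≠ l) : (frontier (WW k) ∩ frontier (WW l)).Finite := by
  have f : ∀ k, (Subtype.val ⁻¹' (LL k ∪ RS k) : Set I).Finite := fun k =>
    ((LL_fin k).union (RS_fin k)).preimage Subtype.val_injective.injOn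
  refine (((f k).prod (f l)).union ((f l).prod (f k))).subset ?_
  rintro b ⟨hk, hl⟩
  rcases fr_sub hk with h1 | h1 <;> rcases fr_sub hl with h2 | h2
  · exact (h (XX_eq h1 h2)).elim
  · exact Or.inl ⟨h1, h2⟩
  · exact Or.inr ⟨h2, h1⟩
  · exact (h (XX_eq h1 h2)).elim

theorem WW_sep (w : Bool) {A C : Set (I × I)} (hA : IsClosed A) (hC : IsClosed C)
    (hAC : Disjoint A C) : ∃ k, A ⊆ interior (WW (k, w)) ∧ C ⊆ (WW (k, w))ᶜ := by
  obtain ⟨d, hd, h⟩ := (hA.isCompact.prod hC.isCompact).exists_forall_le'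
    (f := fun p => dist p.1 p.2) (by fun_prop) (a := 0) (by
      rintro ⟨a, c⟩ ⟨ha, hc⟩
      refine dist_pos.2 fun e => ?_
      obtain rfl : a = c := e
      exact disjoint_left.1 hAC ha hc)
  obtain ⟨n, hn⟩ := exists_nat_one_div_lt (half_pos hd)
  have hp : (0 : ℝ) < 1 / ((n : ℝ) + 2) := by positivity
  have hlt : 1 / ((n : ℝ) + 2) < 1 / ((n : ℝ) + 1) :=
    one_div_lt_one_div_of_lt (by positivity) (by linarith)
  let G : ℚ × ℚ → Set (I × I) := fun c =>
    {b | |(b.1 : ℝ) - c.1| < 1 / ((n : ℝ) + 2) ∧ |(b.2 : ℝ) - c.2| < 1 / ((n : ℝ) + 2)}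
  obtain ⟨t, ht⟩ := hA.isCompact.elim_finite_subcover G (fun c =>
    (isOpen_lt (by fun_prop) continuous_const).and (isOpen_lt (by fun_prop) continuous_const)) (by
      intro b _
      obtain ⟨r, hr⟩ := exists_rat_near (b.1 : ℝ) hp
      obtain ⟨s, hs⟩ := exists_rat_near (b.2 : ℝ) hp
      exact mem_iUnion.2 ⟨(r, s), hr, hs⟩)
  classical
  let k : KK := ((t.filter fun c => (A ∩ G c).Nonempty, n), w)
  have h1 : 1 / ((n : ℝ) + 2) < th k := (exists_th k).choose_spec.2.1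
  have h2 : th k < 1 / ((n : ℝ) + 1) := (exists_th k).choose_spec.2.2
  refine ⟨k.1, fun b hb => ?_, ?_⟩
  · obtain ⟨c, hc, hb'⟩ := mem_iUnion₂.1 (ht hb)
    exact mem_int (k := k) (Finset.mem_filter.2 ⟨hc, b, hb, hb'⟩) (hb'.1.trans h1) (hb'.2.trans h1)
  · rintro b hb ⟨c, hc, b1, b2⟩
    obtain ⟨-, a, ha, a1, a2⟩ := Finset.mem_filter.1 hc
    have := h (a, b) ⟨ha, hb⟩
    have e : dist a b < d := by
      change |(b.1 : ℝ) - c.1| ≤ th k at b1
      change |(b.2 : ℝ) - c.2| ≤ th k at b2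
      rw [Prod.dist_eq, max_lt_iff, Subtype.dist_eq, Subtype.dist_eq, Real.dist_eq, Real.dist_eq]
      rw [abs_lt] at a1 a2 ⊢
      rw [abs_lt]
      rw [abs_le] at b1 b2
      refine ⟨⟨?_, ?_⟩, ?_, ?_⟩ <;> linarith [a1.1, a1.2, a2.1, a2.2, b1.1, b1.2, b2.1, b2.2]
    exact absurd this (not_le.2 e)

theorem push_line {L R : Set ℝ} (hL : L.Finite) (hR : R.Finite) (hd : Disjoint L R)
    (h1 : (1 : ℝ) ∉ L) (h0 : (0 : ℝ) ∉ R) {η : ℝ} (hη : 0 < η) :
    ∃ g : C(I, I), (∀ x, dist (g x) x < η) ∧ (∀ a ∈ L, ∀ x : I, a ≤ x → a < g x) ∧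
      ∀ a ∈ R, ∀ x : I, x ≤ a → g x < a := by
  obtain ⟨φ, f0, f1, f2⟩ := exists_continuous_zero_one_of_isClosed hR.isClosed hL.isClosed hd.symm
  obtain ⟨δ, hδ, hu⟩ : ∃ δ > 0, ∀ a ∈ L ∪ R, ∀ x, |x - a| < δ → |φ x - φ a| < 1 / 2 := by
    have : ∀ᶠ δ in 𝓝[>] (0 : ℝ), ∀ a ∈ L ∪ R, ∀ x, |x - a| < δ → |φ x - φ a| < 1 / 2 := by
      rw [(hL.union hR).eventually_all]
      intro a _
      obtain ⟨δ, hδ, h⟩ := Metric.continuousAt_iff.1 (φ.continuous.continuousAt (x := a)) (1 / 2)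
        (by norm_num)
      filter_upwards [Ioo_mem_nhdsGT hδ] with e he x hx
      exact h (hx.trans he.2)
    obtain ⟨δ, h, h'⟩ := (this.and self_mem_nhdsWithin).exists
    exact ⟨δ, h', h⟩
  obtain ⟨e, he, e1, e2⟩ : ∃ e > 0, e < η ∧ e < δ :=
    ⟨min η δ / 2, by positivity, by linarith [min_le_left η δ, lt_min hη hδ],
      by linarith [min_le_right η δ, lt_min hη hδ]⟩
  let g0 : ℝ → ℝ := fun x => x + e * (2 * φ x - 1)
  have b1 : ∀ x, x - e ≤ g0 x := fun x => by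
    have := (f2 x).1
    simp only [g0]
    nlinarith
  have b2 : ∀ x, g0 x ≤ x + e := fun x => by
    have := (f2 x).2
    simp only [g0]
    nlinarith
  refine ⟨⟨fun x => projIcc 0 1 zero_le_one (g0 x), by fun_prop⟩, fun x => ?_, ?_, ?_⟩
  · have := x.2.1
    have := x.2.2
    have := b1 x
    have := b2 x
    simp only [ContinuousMap.coe_mk, Subtype.dist_eq, Real.dist_eq, coe_projIcc, abs_lt]
    constructor
    · simp only [max_def, min_def]
      split_ifs <;> linarith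
    · simp only [max_def, min_def]
      split_ifs <;> linarith
  · intro a ha x hx
    have k1 : a < g0 x := by
      by_cases h : (x : ℝ) - a < δ
      · have := hu a (Or.inl ha) x (by rwa [abs_of_nonneg (by linarith)])
        rw [f1 ha, abs_lt] at this
        have h3 : 0 < 2 * φ x - 1 := by
          have := this.1
          simp only [Pi.one_apply] at this
          linarith
        have := mul_pos he h3
        simp only [g0]
        linarith
      · linarith [b1 x]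
    have k2 : a < 1 := lt_of_le_of_ne (hx.trans x.2.2) fun h => h1 (h ▸ ha)
    simp only [ContinuousMap.coe_mk, coe_projIcc]
    exact lt_max_of_lt_right (lt_min k2 k1)
  · intro a ha x hx
    have k1 : g0 x < a := by
      by_cases h : a - (x : ℝ) < δ
      · have := hu a (Or.inr ha) x (by rwa [abs_sub_comm, abs_of_nonneg (by linarith)])
        rw [f0 ha, abs_lt] at this
        have h3 : 2 * φ x - 1 < 0 := by
          have := this.2
          simp only [Pi.zero_apply] at this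
          linarith
        have := mul_neg_of_pos_of_neg he h3
        simp only [g0]
        linarith
      · linarith [b2 x]
    have k2 : 0 < a := lt_of_le_of_ne (x.2.1.trans hx) fun h => h0 (h ▸ ha)
    simp only [ContinuousMap.coe_mk, coe_projIcc]
    exact max_lt k2 (min_lt_of_right_lt k1)

theorem WW_push (k : KK) {η : ℝ} (hη : 0 < η) : ∃ h : C(I × I, I × I),
    (∀ b, dist (h b) b < η) ∧ ∀ b ∈ WW k, h b ∈ interior (WW k) := by
  have hp := enc_pos k
  obtain ⟨g, g1, g2, g3⟩ := push_line (LL_fin k) (RS_fin k)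
    (disjoint_left.2 fun x h h' => by have := DD_eq (LL_sub k h) (RS_sub k h'); omega)
    (fun h => by have := DD_eq (LL_sub k h) (show (1 : ℝ) ∈ DD 0 from ⟨1, by simp⟩); omega)
    (fun h => by have := DD_eq (RS_sub k h) (show (0 : ℝ) ∈ DD 0 from ⟨0, by simp⟩); omega) hη
  refine ⟨g.prodMap g, fun b => ?_, ?_⟩
  · rw [Prod.dist_eq, max_lt_iff]
    exact ⟨g1 _, g1 _⟩
  · rintro b ⟨c, hc, b1, b2⟩
    rw [abs_le] at b1 b2
    have a1 := g2 _ ⟨c, hc, Or.inl rfl⟩ b.1 (by linarith [b1.1])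
    have a2 := g3 _ ⟨c, hc, Or.inl rfl⟩ b.1 (by linarith [b1.2])
    have a3 := g2 _ ⟨c, hc, Or.inr rfl⟩ b.2 (by linarith [b2.1])
    have a4 := g3 _ ⟨c, hc, Or.inr rfl⟩ b.2 (by linarith [b2.2])
    refine mem_int hc (abs_lt.2 ⟨?_, ?_⟩) (abs_lt.2 ⟨?_, ?_⟩)
    all_goals
      simp only [ContinuousMap.prodMap_apply, Prod.map_fst, Prod.map_snd]
      linarith

/-- The family used for the example. -/
noncomputable def fam : Fam where
  κ := Finset (ℚ × ℚ) × ℕ
  W k := WW (k, true)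
  closed k := WW_closed _
  sep A C hA hC hAC := WW_sep true hA hC hAC
  aux k A C hA hC hAC := by
    obtain ⟨l, h1, h2⟩ := WW_sep false hA hC hAC
    refine ⟨WW (l, false), WW_closed _, h1, h2, WW_fin (by simp), ?_⟩
    rintro b ⟨b1, b2⟩ m hm
    rcases WW_two b1 b2 hm with h | h | h
    · simp at h
    · exact (congrArg Prod.fst h).symm
    · simp at h
  two b k l m hk hl hm := by simpa using WW_two hk hl hm
  fin k l h := WW_fin (by simpa using h)
  push k η hη := WW_push _ hη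

end Pool.Agent.Lib.MP_840f9c_gt.H32
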