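import Pool.Agent.Lib.MP_840f9c_gt.H32Upper
import Pool.Agent.Lib.MP_840f9c_gt.H32Cube

namespace Pool.Agent.Lib.MP_840f9c_gt.H32

open Set Topology Filter unitInterval LMC

namespace Fam

variable {F : Fam}

/-- The base cube inside the product. -/
def bb (F : Fam) (z : I × I × I) : I × F.YY := (z.1, bs F.psi z.2)

theorem isClosedEmbedding_bb : IsClosedEmbedding F.bb :=
  IsClosedEmbedding.id.prodMap isClosedEmbedding_bs

/-- Two successive partitions of the product. -/
structure Two (F : Fam) where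
  U : Bool → Set (I × F.YY)
  V : Bool → Set (I × F.YY)
  hU : ∀ w, IsOpen (U w)
  hV : ∀ w, IsOpen (V w)
  dU : Disjoint (U true) (U false)
  dV : Disjoint ((U true ∪ U false)ᶜ ∩ V true) (V false)

namespace Two

variable (T : Two F)

def L : Set (I × F.YY) := (T.U true ∪ T.U false)ᶜ \ (T.V true ∪ T.V false)

def Se : Set (I × I × I) := closure (F.bb ⁻¹' T.U true) ∩ closure (F.bb ⁻¹' T.U false)

theorem mem_L {x : I × F.YY} (h : ∀ w, x ∈ closure ((T.U true ∪ T.U false)ᶜ ∩ T.V w)) :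
    x ∈ T.L := by
  refine ⟨closure_minimal inter_subset_left ((T.hU _).union (T.hU _)).isClosed_compl (h true), ?_⟩
  rintro (hx | hx)
  · obtain ⟨y, y1, y2⟩ := mem_closure_iff.1 (h false) _ (T.hV true) hx
    exact disjoint_left.1 T.dV ⟨y2.1, y1⟩ y2.2
  · obtain ⟨y, y1, y2⟩ := mem_closure_iff.1 (h true) _ (T.hV false) hx
    exact disjoint_left.1 T.dV y2 y1

theorem gad {q : I × I} {z : ℕ → I × I × I} {Act : ℕ → Prop} {col : ℕ → Bool}
    {O : ℕ → Set (I × I)} (hO : ∀ n, IsOpen (O n)) (hz : ∀ n, (z n).2 ∈ O n)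
    (hq : Tendsto (fun n => (z n).2) atTop (𝓝 q))
    (hA : ∀ n, Act n → z n ∈ T.Se ∩ F.bb ⁻¹' T.V (col n))
    (adm : ∀ k, q ∈ F.gam k → ∃ c v, ∀ n, (par n = c ∨ F.NC k q) → O n ⊆ F.Side k v) :
    ∃ j : TT → F.YY, IsClosedEmbedding j ∧ ∀ c t, (∀ w, ∀ N ∈ 𝓝 t,
      ∃ᶠ n in atTop, Act n ∧ par n = c ∧ col n = w ∧ (z n).1 ∈ N) → ∀ ξ ∈ Tc c, (t, j ξ) ∈ T.L := by
  classical
  have hcl : ∀ n m, z n ∈ closure ({x : I × I × I | x.2 ∈ O n ∩ Metric.ball (z n).2 (1 / (n + 1))} ∩
      (if Act n then F.bb ⁻¹' T.U (par m) else univ)) := by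
    intro n m
    refine ((hO n).inter Metric.isOpen_ball).preimage continuous_snd |>.inter_closure
      ⟨⟨hz n, Metric.mem_ball_self (by positivity)⟩, ?_⟩
    split_ifs with h
    · cases par m
      · exact (hA n h).1.2
      · exact (hA n h).1.1
    · simp
  choose τ τ1 τ2 using fun n => exists_seq (hcl n)
  have τ3 : ∀ n m, (τ n m).2 ∈ O n ∩ Metric.ball (z n).2 (1 / (n + 1)) := by
    intro n m
    induction m using ENat.recTopCoe with
    | top =>
      rw [τ1 n]
      exact ⟨hz n, Metric.mem_ball_self (by positivity)⟩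
    | coe m => exact (τ2 n m).1
  let P : ℕ∞ → C(ℕ∞, I × I) := fun n =>
    ENat.recTopCoe (ContinuousMap.const _ q) (fun n => ContinuousMap.snd.comp (τ n)) n
  have hP : Continuous P := by
    refine continuous_enat ?_
    rw [tendsto_iff_dist_tendsto_zero]
    have h1 := (tendsto_one_div_add_atTop_nhds_zero_nat (𝕜 := ℝ)).add
      (tendsto_iff_dist_tendsto_zero.1 hq)
    rw [add_zero] at h1
    refine squeeze_zero (fun _ => dist_nonneg) (fun n => ?_) h1
    refine (ContinuousMap.dist_le (by positivity)).2 fun m => ?_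
    have : dist (τ n m).2 (z n).2 < 1 / (n + 1) := (τ3 n m).2
    show dist (τ n m).2 q ≤ _
    linarith [dist_triangle (τ n m).2 (z n).2 q]
  let p : F.Adm := ⟨ContinuousMap.uncurry ⟨P, hP⟩, fun m => rfl, fun k hk => by
    obtain ⟨c, v, h⟩ := adm k hk
    exact ⟨c, v, Eventually.of_forall fun n hn m => h n hn (τ3 n m).1⟩⟩
  let R : ℕ → ℕ∞ → Set (I × F.YY) := fun n m =>
    if Act n then ENat.recTopCoe (T.V (col n)) (fun m => T.U (par m)) m else univ
  have hR : ∀ n m, IsOpen (R n m) ∧ F.bb (τ n m) ∈ R n m := by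
    intro n m
    simp only [R]
    split_ifs with h
    · induction m using ENat.recTopCoe with
      | top => exact ⟨T.hV _, τ1 n ▸ (hA n h).2⟩
      | coe m => exact ⟨T.hU _, by simpa [h] using (τ2 n m).2⟩
    · simp
  obtain ⟨s, hs⟩ := exists_surjective_nat (ℕ × ℕ∞)
  obtain ⟨α, hα⟩ := exists_good (ψ := F.psi) p (fun i => (τ (s i).1 (s i).2).2)
    (fun i => Prod.mk (τ (s i).1 (s i).2).1 ⁻¹' R (s i).1 (s i).2)
    (fun i => ((hR _ _).1.preimage (Continuous.prodMk_right _)).mem_nhds (hR _ _).2)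
  have good : ∀ (n : ℕ) (m : ℕ∞) (e : RR), rho e = n →
      ((τ n m).1, lv F.psi (α, p) (m, e)) ∈ R n m := by
    intro n m e he
    obtain ⟨i, hi⟩ := hs (n, m)
    have := hα i (m, e) (by
      show P (rho e) m = _
      rw [hi, he]
      rfl)
    simpa only [hi, mem_preimage] using this
  have mid : ∀ (n : ℕ) (e : RR), rho e = n → Act n → ((z n).1, lv F.psi (α, p) (⊤, e)) ∈
      (T.U true ∪ T.U false)ᶜ ∩ T.V (col n) := by
    intro n e he hn
    have hc : Continuous fun m : ℕ∞ => ((τ n m).1, lv F.psi (α, p) (m, e)) :=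
      (continuous_fst.comp (τ n).continuous).prodMk
        ((continuous_lv _).comp (Continuous.prodMk_left e))
    have g1 : ∀ m : ℕ, ((τ n m).1, lv F.psi (α, p) (m, e)) ∈ T.U (par m) := fun m => by
      simpa [R, hn] using good n m e he
    rw [← τ1 n]
    refine ⟨?_, by simpa [R, hn] using good n ⊤ e he⟩
    rintro (h | h)
    · refine not_mem_of_freq (T.hU _) T.dU hc (freq_mod 2 1 (by norm_num) fun m hm => ?_) h
      simpa [par, hm] using g1 m
    · refine not_mem_of_freq (T.hU _) T.dU.symm hc (freq_mod 2 0 (by norm_num) fun m hm => ?_) h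
      simpa [par, hm] using g1 m
  let f : TT → RR := fun ξ => ⟨(⊤, ξ), fun n hn => (ENat.top_ne_coe n hn).elim⟩
  have hf : Continuous f := by fun_prop
  refine ⟨fun ξ => lv F.psi (α, p) (⊤, f ξ), Continuous.isClosedEmbedding
    ((continuous_lv _).comp (continuous_const.prodMk hf)) fun a b h =>
      congrArg (fun e : EE => e.2.1.2) (lv_inj h).2, fun c t ht ξ hξ => T.mem_L fun w => ?_⟩
  rw [mem_closure_iff_nhds]
  intro M hM
  have hG : Continuous fun x : I × RR => (x.1, lv F.psi (α, p) (⊤, x.2)) :=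
    continuous_fst.prodMk ((continuous_lv _).comp (continuous_const.prodMk continuous_snd))
  obtain ⟨N, hN, N', hN', hsub⟩ := mem_nhds_prod_iff.1 (hG.continuousAt (x := (t, f ξ)) hM)
  rw [nhds_subtype] at hN'
  obtain ⟨N'', hN'', hsub'⟩ := hN'
  have := (mem_nhds_top.1 ((Continuous.prodMk_left ξ).continuousAt hN'')).2
  obtain ⟨n, ⟨a1, a2, a3, a4⟩, a5⟩ := ((ht w N hN).and_eventually this).exists
  have hm : ((n : ℕ∞), ξ) ∈ Rset := by
    intro m hm
    obtain rfl : n = m := by exact_mod_cast (show (n : ℕ∞) = m from hm)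
    rwa [a2]
  exact ⟨_, hsub (show ((z n).1, (⟨_, hm⟩ : RR)) ∈ N ×ˢ N' from ⟨a4, hsub' a5⟩),
    a3 ▸ mid n ⟨_, hm⟩ rfl a1⟩

theorem gad2 (hL : SLT 2 T.L) {z : I × I × I} {O : Bool → Set (I × I)} (hO : ∀ c, IsOpen (O c))
    (hz : ∀ c w, z ∈ closure (T.Se ∩ F.bb ⁻¹' T.V w ∩ Prod.snd ⁻¹' O c))
    (adm : ∀ k, z.2 ∈ F.gam k → ∃ c v, ∀ c', (c' = c ∨ F.NC k z.2) → O c' ⊆ F.Side k v) :
    False := by
  obtain ⟨τ, τ1, τ2⟩ := exists_seq fun n : ℕ => hz (par n) (par (n / 2))
  have ht : Tendsto (fun n : ℕ => τ n) atTop (𝓝 z) :=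
    τ1 ▸ (τ.continuous.tendsto ⊤).comp ENat.tendsto_natCast_nhds_top
  obtain ⟨j, hj, h⟩ := T.gad (q := z.2) (z := fun n => τ n) (Act := fun _ => True)
    (col := fun n => par (n / 2)) (O := fun n => O (par n)) (fun n => hO _) (fun n => (τ2 n).2)
    ((continuous_snd.tendsto z).comp ht) (fun n _ => (τ2 n).1) (fun k hk =>
      let ⟨c, v, h⟩ := adm k hk; ⟨c, v, fun n hn => h _ hn⟩)
  have he : IsClosedEmbedding fun ξ => (z.1, j ξ) :=
    (continuous_const.prodMk hj.continuous).isClosedEmbedding fun a b h =>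
      hj.injective (congrArg Prod.snd h)
  refine not_SLT_TT ((hL.pull he).mono fun ξ _ => ?_)
  obtain ⟨c, hc⟩ := exists_Tc ξ
  refine h c z.1 (fun w N hN => ?_) ξ hc
  have h1 : ∃ᶠ n in atTop, par n = c ∧ par (n / 2) = w := by
    cases c <;> cases w
    · exact freq_mod 4 3 (by norm_num) fun n hn => by simp only [par]; constructor <;> simp <;> omega
    · exact freq_mod 4 1 (by norm_num) fun n hn => by simp only [par]; constructor <;> simp <;> omega
    · exact freq_mod 4 2 (by norm_num) fun n hn => by simp only [par]; constructor <;> simp <;> omega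
    · exact freq_mod 4 0 (by norm_num) fun n hn => by simp only [par]; constructor <;> simp <;> omega
  exact (h1.and_eventually ((continuous_fst.tendsto z).comp ht hN)).mono
    fun n hn => ⟨trivial, hn.1.1, hn.1.2, hn.2⟩

theorem exists_quadrant (F : Fam) (k l : F.κ) (q : I × I) :
    ∃ v v', q ∈ closure (F.Side k v ∩ F.Side l v') := by
  have d : ∀ k, Dense (F.gam k)ᶜ := fun k =>
    interior_eq_empty_iff_dense_compl.1 (interior_frontier (F.closed k))
  have h1 := (d k).inter_of_isOpen_left (d l) isClosed_frontier.isOpen_compl q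
  have h2 : (F.gam k)ᶜ ∩ (F.gam l)ᶜ ⊆ ⋃ v : Bool × Bool, F.Side k v.1 ∩ F.Side l v.2 := by
    rintro b ⟨b1, b2⟩
    obtain ⟨v, hv⟩ := F.not_gam.1 b1
    obtain ⟨v', hv'⟩ := F.not_gam.1 b2
    exact mem_iUnion.2 ⟨(v, v'), hv, hv'⟩
  have h3 := closure_mono h2 h1
  rw [closure_iUnion_of_finite] at h3
  obtain ⟨v, hv⟩ := mem_iUnion.1 h3
  exact ⟨v.1, v.2, hv⟩

theorem gadV (hL : SLT 2 T.L) {q : I × I} {k l : F.κ} (hkl : k ≠ l) (hk : q ∈ F.gam k)
    (hl : q ∈ F.gam l) {a b : I} (hab : a < b)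
    (h : ∀ t ∈ Icc a b, ∀ w, (t, q) ∈ closure (T.Se ∩ F.bb ⁻¹' T.V w)) : False := by
  classical
  obtain ⟨v, v', hv⟩ := exists_quadrant F k l q
  obtain ⟨β, β1, β2⟩ := exists_seq fun _ : ℕ => hv
  have hβ : Tendsto (fun n : ℕ => β n) atTop (𝓝 q) :=
    β1 ▸ (β.continuous.tendsto ⊤).comp ENat.tendsto_natCast_nhds_top
  have hm : ∀ s : I, cv a b s ∈ Icc a b := by
    intro s
    have := s.2.1
    have := s.2.2
    have hab' : (a : ℝ) < b := hab
    constructor
    · show (a : ℝ) ≤ (1 - s) * a + s * b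
      nlinarith
    · show (1 - s) * a + s * b ≤ (b : ℝ)
      nlinarith
  obtain ⟨d, hd⟩ := TopologicalSpace.exists_dense_seq I
  obtain ⟨e, he⟩ := exists_surjective_nat ((ℕ × Bool) × ℕ)
  have hy : ∀ n : ℕ, ∃ y ∈ T.Se ∩ F.bb ⁻¹' T.V (e (n / 2)).1.2,
      dist (cv a b (d (e (n / 2)).1.1), q) y < 1 / (n + 1) := fun n =>
    Metric.mem_closure_iff.1 (h _ (hm _) _) _ (by positivity)
  choose y y1 y2 using hy
  have y3 : Tendsto (fun n => (y n).2) atTop (𝓝 q) := by
    rw [tendsto_iff_dist_tendsto_zero]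
    refine squeeze_zero (fun _ => dist_nonneg) (fun n => ?_)
      (tendsto_one_div_add_atTop_nhds_zero_nat (𝕜 := ℝ))
    have := y2 n
    rw [Prod.dist_eq, max_lt_iff, dist_comm q] at this
    exact this.2.le
  obtain ⟨j, hj, h⟩ := T.gad (q := q) (z := fun n => if par n then y n else (0, β n))
    (Act := fun n => par n = true) (col := fun n => (e (n / 2)).1.2)
    (O := fun n => if par n then univ else F.Side k v ∩ F.Side l v')
    (fun n => by
      split_ifs
      · exact isOpen_univ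
      · exact (F.isOpen_Side _ _).inter (F.isOpen_Side _ _))
    (fun n => by
      split_ifs
      · trivial
      · exact β2 n)
    (by simpa only [apply_ite Prod.snd] using y3.if' hβ)
    (fun n hn => by simpa only [hn, if_true] using y1 n)
    (fun m hm => by
      have hn : ¬ F.NC m q := fun h => hkl ((h k hk).trans (h l hl).symm)
      rcases F.two q k l m hk hl hm with h | rfl | rfl
      · exact (hkl h).elim
      · exact ⟨false, v, fun n hn' => by simp [hn'.resolve_right hn]⟩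
      · exact ⟨false, v', fun n hn' => by simp [hn'.resolve_right hn]⟩)
  have hc : Continuous (cv a b) := continuous_cv continuous_const continuous_const continuous_id
  have hemb : IsClosedEmbedding fun x : I × I => (cv a b x.1, j (bs psiT x.2)) := by
    refine ((hc.comp continuous_fst).prodMk (hj.continuous.comp
      (continuous_bs.comp continuous_snd))).isClosedEmbedding ?_
    rintro ⟨s, x⟩ ⟨s', x'⟩ hh
    have h1 : (1 - s) * a + s * b = (1 - s') * (a : ℝ) + s' * b :=
      congrArg (fun p : I × F.YY => (p.1 : ℝ)) hh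
    have hab' : (0 : ℝ) < b - a := sub_pos.2 hab
    obtain rfl : s = s' := Subtype.ext (mul_right_cancel₀ hab'.ne' (by linarith))
    exact Prod.ext rfl (injective_bs (hj.injective (congrArg Prod.snd hh)))
  refine not_SLT_sq ((hL.pull hemb).mono fun x _ => ?_)
  refine h true _ (fun w N hN => ?_) _ (fun i e h => (bs_ne_lv _ _ _ h).elim)
  obtain ⟨ε, hε, hN'⟩ := Metric.mem_nhds_iff.1 hN
  obtain ⟨i, hi⟩ := hd.exists_mem_open (Metric.isOpen_ball.preimage hc)
    ⟨x.1, Metric.mem_ball_self (half_pos hε)⟩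
  rw [frequently_atTop]
  intro M
  obtain ⟨M', hM'⟩ := exists_nat_one_div_lt (half_pos hε)
  have hinf : (e ⁻¹' {r | r.1 = (i, w)}).Infinite := by
    refine Infinite.preimage ?_ (by simp [he.range_eq])
    exact infinite_of_injective_forall_mem (f := fun n : ℕ => ((i, w), n))
      (fun a b h => congrArg Prod.snd h) fun _ => rfl
  obtain ⟨r, r1, r2⟩ := hinf.exists_gt (max M M')
  have e1 : 2 * r / 2 = r := by omega
  have e2 : par (2 * r) = true := by simp [par]
  have r1' : (e r).1 = (i, w) := r1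
  refine ⟨2 * r, by omega, e2, e2, by simp only [e1, r1'], hN' ?_⟩
  have := y2 (2 * r)
  rw [e1, r1', Prod.dist_eq, max_lt_iff] at this
  have h3 : (1 : ℝ) / ((2 * r : ℕ) + 1) ≤ 1 / (M' + 1) :=
    Nat.one_div_le_one_div (by omega)
  simp only [e2, if_true, Metric.mem_ball]
  have h4 : dist (cv a b (d i)) (cv a b x.1) < ε / 2 := hi
  linarith [dist_triangle_left (y (2 * r)).1 (cv a b x.1) (cv a b (d i)), this.1]

end Two

end Fam

end Pool.Agent.Lib.MP_840f9c_gt.H32
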