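import Pool.Agent.Lib.MP_840f9c_gt.H32Gad
import Pool.Agent.Lib.MP_840f9c_gt.H32Cross

namespace Pool.Agent.Lib.MP_840f9c_gt.H32

open Set Topology Filter unitInterval LMC

namespace Fam

variable {F : Fam}

namespace Two

variable (T : Two F)

/-- Points of the base cube approached by both colours of the second partition. -/
def La : Set (I × I × I) := {z | ∀ w, z ∈ closure (T.Se ∩ F.bb ⁻¹' T.V w)}

/-- Points near which the bichromatic set lies over the curve `k`. -/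
def G (k : F.κ) : Set (I × I × I) := interior {z | z ∈ T.La → z.2 ∈ F.gam k}

theorem bi {z : I × I × I} {k : F.κ} (h : z ∉ T.G k) :
    ∃ v, ∀ w, z ∈ closure (T.Se ∩ F.bb ⁻¹' T.V w ∩ Prod.snd ⁻¹' F.Side k v) := by
  have h1 : z ∈ closure (⋃ v, T.La ∩ Prod.snd ⁻¹' F.Side k v) := by
    rw [G, ← mem_compl_iff, ← closure_compl] at h
    refine closure_mono (fun x hx => ?_) h
    simp only [mem_compl_iff, mem_ofPred_eq, Classical.not_imp] at hx
    obtain ⟨v, hv⟩ := F.not_gam.1 hx.2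
    exact mem_iUnion.2 ⟨v, hx.1, hv⟩
  rw [closure_iUnion_of_finite] at h1
  obtain ⟨v, hv⟩ := mem_iUnion.1 h1
  refine ⟨v, fun w => closure_minimal (fun x hx => ?_) isClosed_closure hv⟩
  exact ((F.isOpen_Side k v).preimage continuous_snd).closure_inter ⟨hx.1 w, hx.2⟩

theorem cover (hL : SLT 2 T.L) {z : I × I × I} (hz : z ∈ T.La) : ∃ k, z ∈ T.G k := by
  by_contra hh
  push Not at hh
  choose v hv using fun k => T.bi (hh k)
  by_cases h0 : ∃ k, z.2 ∈ F.gam k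
  · obtain ⟨k, hk⟩ := h0
    by_cases h1 : F.NC k z.2
    · refine T.gad2 hL (O := fun _ => F.Side k (v k)) (fun _ => F.isOpen_Side _ _)
        (fun _ => hv k) fun m hm => ?_
      obtain rfl := h1 m hm
      exact ⟨true, v m, fun _ _ => subset_rfl⟩
    · simp only [NC, not_forall] at h1
      obtain ⟨l, hl, hlk⟩ := h1
      refine T.gad2 hL (O := fun c => if c then F.Side k (v k) else F.Side l (v l))
        (fun c => by cases c <;> exact F.isOpen_Side _ _)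
        (fun c => by
          cases c
          · exact hv l
          · exact hv k) fun m hm => ?_
      have hn : ¬ F.NC m z.2 := fun h => hlk ((h l hl).trans (h k hk).symm)
      rcases F.two z.2 k l m hk hl hm with h | rfl | rfl
      · exact (hlk h.symm).elim
      · exact ⟨true, v k, fun c hc => by simp [hc.resolve_right hn]⟩
      · exact ⟨false, v l, fun c hc => by simp [hc.resolve_right hn]⟩
  · exact T.gad2 hL (O := fun _ => univ) (fun _ => isOpen_univ) (fun _ w => by simpa using hz w)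
      fun m hm => (h0 ⟨m, hm⟩).elim

theorem gap (hL : SLT 2 T.L) {q : I × I} {k l : F.κ} (hkl : k ≠ l) (hk : q ∈ F.gam k)
    (hl : q ∈ F.gam l) {a b : ℝ} (hab : a < b) :
    ∃ t ∈ Ioo a b, ∀ z ∈ T.La, z.2 = q → (z.1 : ℝ) ≠ t := by
  by_contra hh
  push Not at hh
  obtain ⟨z1, -, -, e1⟩ := hh ((2 * a + b) / 3) ⟨by linarith, by linarith⟩
  obtain ⟨z2, -, -, e2⟩ := hh ((a + 2 * b) / 3) ⟨by linarith, by linarith⟩
  refine T.gadV hL hkl hk hl (a := z1.1) (b := z2.1) (show (z1.1 : ℝ) < z2.1 by linarith) ?_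
  intro t ht
  have t1 : (z1.1 : ℝ) ≤ t := ht.1
  have t2 : (t : ℝ) ≤ z2.1 := ht.2
  obtain ⟨z, hz, e3, e4⟩ := hh t ⟨by linarith, by linarith⟩
  have : z = (t, q) := Prod.ext (Subtype.ext e4) e3
  exact this ▸ hz

theorem no_overlap (hL : SLT 2 T.L) {K : Set (I × I × I)} (hK : IsPreconnected K)
    (hKL : K ⊆ T.La) (k0 : ∃ p ∈ K, p.1 = 0) (k1 : ∃ p ∈ K, p.1 = 1) {k l : F.κ} (hkl : k ≠ l)
    {z : I × I × I} (hz : z ∈ K) (hk : z ∈ T.G k) (hl : z ∈ T.G l) : False := by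
  have q1 : z.2 ∈ F.gam k := interior_subset hk (hKL hz)
  have q2 : z.2 ∈ F.gam l := interior_subset hl (hKL hz)
  have hc : IsClosed ((F.gam k ∩ F.gam l) \ {z.2}) := ((F.fin k l hkl).subset diff_subset).isClosed
  have hN : T.G k ∩ T.G l ∩ Prod.snd ⁻¹' ((F.gam k ∩ F.gam l) \ {z.2})ᶜ ∈ 𝓝 z :=
    ((isOpen_interior.inter isOpen_interior).inter
      (hc.isOpen_compl.preimage continuous_snd)).mem_nhds ⟨⟨hk, hl⟩, fun h => h.2 rfl⟩
  obtain ⟨ε, hε, hsub⟩ := Metric.nhds_basis_closedBall.mem_iff.1 hN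
  obtain ⟨δ, δ0, δ1, δ2⟩ : ∃ δ > 0, δ ≤ ε ∧ δ ≤ 1 / 2 :=
    ⟨min ε (1 / 2), by positivity, min_le_left _ _, min_le_right _ _⟩
  obtain ⟨t1, ⟨a1, a2⟩, a3⟩ := T.gap hL hkl q1 q2 (show (z.1 : ℝ) - δ < z.1 by linarith)
  obtain ⟨t2, ⟨b1, b2⟩, b3⟩ := T.gap hL hkl q1 q2 (show (z.1 : ℝ) < z.1 + δ by linarith)
  have hc1 : Continuous fun x : I × I × I => (x.1 : ℝ) := by fun_prop
  have hc2 : Continuous fun x : I × I × I => dist x.2 z.2 := by fun_prop
  obtain ⟨x, -, x1, x2⟩ := hK {x | (t1 < x.1 ∧ (x.1 : ℝ) < t2) ∧ dist x.2 z.2 < ε}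
    {x | (t1 ≤ x.1 ∧ (x.1 : ℝ) ≤ t2) ∧ dist x.2 z.2 ≤ ε}ᶜ
    (((isOpen_lt continuous_const hc1).and (isOpen_lt hc1 continuous_const)).and
      (isOpen_lt hc2 continuous_const))
    (((isClosed_le continuous_const hc1).and (isClosed_le hc1 continuous_const)).and
      (isClosed_le hc2 continuous_const)).isOpen_compl (by
      intro x hx
      by_cases h : (t1 ≤ x.1 ∧ (x.1 : ℝ) ≤ t2) ∧ dist x.2 z.2 ≤ ε
      · left
        have h1 : x ∈ Metric.closedBall z ε := by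
          rw [Metric.mem_closedBall, Prod.dist_eq, Subtype.dist_eq, Real.dist_eq]
          exact max_le (abs_le.2 ⟨by linarith [h.1.1], by linarith [h.1.2]⟩) h.2
        obtain ⟨⟨g1, g2⟩, g3⟩ := hsub h1
        have e : x.2 = z.2 := by
          by_contra hne
          exact g3 ⟨⟨interior_subset g1 (hKL hx), interior_subset g2 (hKL hx)⟩, hne⟩
        exact ⟨⟨h.1.1.lt_of_ne (a3 x (hKL hx) e).symm, h.1.2.lt_of_ne (b3 x (hKL hx) e)⟩,
          by simpa [e] using hε⟩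
      · exact Or.inr h) ⟨z, hz, ⟨a2, b1⟩, by simpa using hε⟩ (by
      obtain ⟨p0, hp0, e0⟩ := k0
      obtain ⟨p1, hp1, e1⟩ := k1
      by_cases h : t1 ≤ 0
      · refine ⟨p1, hp1, fun h' => ?_⟩
        have := h'.1.2
        rw [e1, Icc.coe_one] at this
        linarith
      · refine ⟨p0, hp0, fun h' => h ?_⟩
        have := h'.1.1
        rwa [e0, Icc.coe_zero] at this)
  exact x2 ⟨⟨x1.1.1.le, x1.1.2.le⟩, x1.2.le⟩

theorem single (hL : SLT 2 T.L) {K : Set (I × I × I)} (hK : IsPreconnected K)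
    (hKL : K ⊆ T.La) (k0 : ∃ p ∈ K, p.1 = 0) (k1 : ∃ p ∈ K, p.1 = 1) :
    ∃ k, ∀ p ∈ K, p.2 ∈ F.gam k := by
  obtain ⟨z, hz, e⟩ := id k0
  obtain ⟨k, hk⟩ := T.cover hL (hKL hz)
  refine ⟨k, fun p hp => ?_⟩
  by_contra hh
  have cov : ∀ x ∈ K, x ∉ T.G k → x ∈ ⋃ l ∈ {l | k ≠ l}, T.G l := fun x hx h => by
    obtain ⟨l, hl⟩ := T.cover hL (hKL hx)
    exact mem_biUnion (show k ≠ l from fun e => h (e ▸ hl)) hl
  obtain ⟨x, x1, x2, x3⟩ := hK (T.G k) (⋃ l ∈ {l | k ≠ l}, T.G l) isOpen_interior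
    (isOpen_biUnion fun _ _ => isOpen_interior) (fun x hx => or_iff_not_imp_left.2 (cov x hx))
    ⟨z, hz, hk⟩ ⟨p, hp, cov p hp fun h => hh (interior_subset h (hKL hp))⟩
  obtain ⟨l, hl, x4⟩ := mem_iUnion₂.1 x3
  exact T.no_overlap hL hK hKL k0 k1 hl x1 x2 x4

end Two

theorem not_SLT_four (F : Fam) : ¬ SLT 4 (univ : Set (I × F.YY)) := by
  intro h
  have hf : IsClosedEmbedding (F.bb ∘ Phi) := isClosedEmbedding_bb.comp isClosedEmbedding_Phi
  have face : ∀ π : QQ → I, Continuous π → ∀ a, IsClosed ((F.bb ∘ Phi) '' {p | π p = a}) :=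
    fun π hπ a => hf.isClosedMap _ (isClosed_eq hπ continuous_const)
  have dis : ∀ π : QQ → I, Disjoint ((F.bb ∘ Phi) '' {p | π p = 0})
      ((F.bb ∘ Phi) '' {p | π p = 1}) := fun π => (disjoint_image_iff hf.injective).2
    (disjoint_left.2 fun p h h' => zero_ne_one (α := I) (h.symm.trans h'))
  obtain ⟨U, V, hU, hV, a0, a1, hd, h3⟩ := h _ _ (face (fun p => p.1) continuous_fst 0)
    (face (fun p => p.1) continuous_fst 1) (subset_univ _) (subset_univ _) (dis _)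
  rw [univ_inter] at hd
  rw [← compl_eq_univ_diff] at h3
  have hS : IsClosed (U ∪ V)ᶜ := (hU.union hV).isClosed_compl
  obtain ⟨U', V', hU', hV', b0, b1, hd', h2⟩ := h3 _ _
    (hS.inter (face (fun p => p.2.1) (by fun_prop) 0))
    (hS.inter (face (fun p => p.2.1) (by fun_prop) 1)) inter_subset_left inter_subset_left
    ((dis _).mono inter_subset_right inter_subset_right)
  let T : Two F := ⟨fun w => if w then U else V, fun w => if w then U' else V',
    fun w => by cases w <;> assumption, fun w => by cases w <;> assumption, hd, hd'⟩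
  obtain ⟨K, k1, k2, ⟨p0, k3, k4⟩, p1, k5, k6⟩ := cube_main (hU.preimage hf.continuous)
    (hV.preimage hf.continuous) (hU'.preimage hf.continuous) (hV'.preimage hf.continuous)
    (hd.preimage _) (hd'.preimage (F.bb ∘ Phi)) (fun p hp => a0 ⟨p, hp, rfl⟩)
    (fun p hp => a1 ⟨p, hp, rfl⟩) (fun p hp e => b0 ⟨hp, p, e, rfl⟩)
    (fun p hp e => b1 ⟨hp, p, e, rfl⟩) (h3.pull hf) (h2.pull hf)
  have hc := isClosedEmbedding_Phi.continuous
  have key : ∀ (W : Set (I × F.YY)) (p : QQ), p ∈ closure (closure ((F.bb ∘ Phi) ⁻¹' U) ∩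
      closure ((F.bb ∘ Phi) ⁻¹' V) ∩ (F.bb ∘ Phi) ⁻¹' W) →
      Phi p ∈ closure (T.Se ∩ F.bb ⁻¹' W) := fun W p hp =>
    map_mem_closure hc hp fun x hx => ⟨⟨map_mem_closure hc hx.1.1 fun _ h => h,
      map_mem_closure hc hx.1.2 fun _ h => h⟩, hx.2⟩
  obtain ⟨k, hk⟩ := T.single h2 (k2.image Phi hc.continuousOn) (by
    rintro _ ⟨p, hp, rfl⟩ w
    cases w
    · exact key _ p (k1 hp).2
    · exact key _ p (k1 hp).1) ⟨_, ⟨p0, k3, rfl⟩, k4⟩ ⟨_, ⟨p1, k5, rfl⟩, k6⟩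
  obtain ⟨g, g1, g2⟩ := F.push k (1 / 10) (by norm_num)
  exact noCross (F.closed k) g g1 g2 k2 ⟨p0, k3, k4⟩ ⟨p1, k5, k6⟩
    fun p hp => hk _ ⟨p, hp, rfl⟩

end Fam

end Pool.Agent.Lib.MP_840f9c_gt.H32
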