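import Pool.Agent.Lib.MP_840f9c_gt.H32Fam

namespace Pool.Agent.Lib.MP_840f9c_gt.H32

open Set Topology Filter unitInterval LMC

section Step

variable {B E ι : Type} [TopologicalSpace B] [TopologicalSpace E] {ψ : ι → C(E, B)}
  [CompactSpace E] [T2Space E] [CompactSpace B]

theorem step' {S : Set (LMC ψ)} (hS : IsClosed S) {n : ℕ}
    (h1 : ∀ i, SLT (n + 1) (lv ψ i ⁻¹' S)) {A C : Set (LMC ψ)} (hA : IsClosed A)
    (hC : IsClosed C) (hAS : A ⊆ S) (hCS : C ⊆ S) (hAC : Disjoint A C) {Ub Vb : Set B}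
    (hUb : IsOpen Ub) (hVb : IsOpen Vb) (hAU : bs ψ ⁻¹' A ⊆ Ub) (hCV : bs ψ ⁻¹' C ⊆ Vb)
    (hd : Disjoint (bs ψ ⁻¹' S ∩ Ub) Vb) {X : Set ι} (hX : X.Finite)
    {P : ι → Set E → Prop}
    (h2 : ∀ i ∉ X, ∃ U V : Set E, IsOpen U ∧ IsOpen V ∧
      (∀ e, lv ψ i e ∈ S → ψ i e ∈ Ub → e ∈ U) ∧ (∀ e, lv ψ i e ∈ S → ψ i e ∈ Vb → e ∈ V) ∧
      Disjoint (lv ψ i ⁻¹' S ∩ U) V ∧ P i (lv ψ i ⁻¹' S \ (U ∪ V))) :
    ∃ U V : Set (LMC ψ), IsOpen U ∧ IsOpen V ∧ A ⊆ U ∧ C ⊆ V ∧ Disjoint (S ∩ U) V ∧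
      bs ψ ⁻¹' (S \ (U ∪ V)) = bs ψ ⁻¹' S \ (Ub ∪ Vb) ∧ ∃ X' : Set ι, X'.Finite ∧
      (∀ i ∈ X', SLT n (lv ψ i ⁻¹' (S \ (U ∪ V)))) ∧
      ∀ i ∉ X', P i (lv ψ i ⁻¹' (S \ (U ∪ V))) := by
  let D : Set (LMC ψ) := (A \ rt ⁻¹' Ub) ∪ (C \ rt ⁻¹' Vb)
  have hD : IsClosed D := (hA.sdiff (hUb.preimage continuous_rt)).union
    (hC.sdiff (hVb.preimage continuous_rt))
  have hDb : ∀ b, bs ψ b ∉ D := by
    rintro b (h | h)
    · exact h.2 (hAU h.1)
    · exact h.2 (hCV h.1)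
  let X' : Set ι := {i | i ∈ X ∨ ∃ e, lv ψ i e ∈ D}
  have hX' : X'.Finite := by
    obtain ⟨G, -, hG, hf⟩ := fin_compact hD hDb isCompact_univ
    refine (hX.union hf).subset ?_
    rintro i (hi | ⟨e, he⟩)
    · exact Or.inl hi
    · exact Or.inr ⟨e, he, hG trivial⟩
  have key : ∀ i, ∃ U V : Set E, IsOpen U ∧ IsOpen V ∧ lv ψ i ⁻¹' A ⊆ U ∧ lv ψ i ⁻¹' C ⊆ V ∧
      Disjoint (lv ψ i ⁻¹' S ∩ U) V ∧ (i ∈ X' → SLT n (lv ψ i ⁻¹' S \ (U ∪ V))) ∧ (i ∉ X' →
      (∀ e, lv ψ i e ∈ S → ψ i e ∈ Ub → e ∈ U) ∧ (∀ e, lv ψ i e ∈ S → ψ i e ∈ Vb → e ∈ V) ∧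
      P i (lv ψ i ⁻¹' S \ (U ∪ V))) := by
    intro i
    by_cases hi : i ∈ X'
    · obtain ⟨U, V, hU, hV, a1, a2, a3, a4⟩ := h1 i (lv ψ i ⁻¹' A) (lv ψ i ⁻¹' C)
        (hA.preimage (continuous_lv i)) (hC.preimage (continuous_lv i)) (preimage_mono hAS)
        (preimage_mono hCS) (hAC.preimage _)
      exact ⟨U, V, hU, hV, a1, a2, a3, fun _ => a4, fun h => (h hi).elim⟩
    · obtain ⟨U, V, hU, hV, a1, a2, a3, a4⟩ := h2 i (fun h => hi (Or.inl h))
      refine ⟨U, V, hU, hV, fun e he => a1 e (hAS he) ?_, fun e he => a2 e (hCS he) ?_, a3,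
        fun h => (hi h).elim, fun _ => ⟨a1, a2, a4⟩⟩
      · by_contra h
        exact hi (Or.inr ⟨e, Or.inl ⟨he, h⟩⟩)
      · by_contra h
        exact hi (Or.inr ⟨e, Or.inr ⟨he, h⟩⟩)
  choose U V hU hV k1 k2 k3 k4 k5 using key
  obtain ⟨W, hW, w1, w2⟩ := glue_open hS hUb hU (fun b =>
    ⟨univ, univ_mem, _, hX', fun i hi e he _ hu => (k5 i hi).1 e he hu⟩)
  obtain ⟨W', hW', w1', w2'⟩ := glue_open hS hVb hV (fun b =>
    ⟨univ, univ_mem, _, hX', fun i hi e he _ hu => (k5 i hi).2.1 e he hu⟩)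
  have tr : ∀ i, lv ψ i ⁻¹' (S \ (W ∪ W')) = lv ψ i ⁻¹' S \ (U i ∪ V i) := by
    intro i
    ext e
    exact and_congr_right fun he => not_congr (or_congr (w2 i e he) (w2' i e he))
  refine ⟨W, W', hW, hW', ?_, ?_, ?_, ?_, X', hX', fun i hi => tr i ▸ k4 i hi,
    fun i hi => tr i ▸ (k5 i hi).2.2⟩
  · intro z hz
    rcases cases z with ⟨b, rfl⟩ | ⟨i, e, rfl⟩
    · exact (w1 b (hAS hz)).2 (hAU hz)
    · exact (w2 i e (hAS hz)).2 (k1 i hz)
  · intro z hz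
    rcases cases z with ⟨b, rfl⟩ | ⟨i, e, rfl⟩
    · exact (w1' b (hCS hz)).2 (hCV hz)
    · exact (w2' i e (hCS hz)).2 (k2 i hz)
  · rw [disjoint_left]
    rintro z ⟨hz, hz1⟩ hz2
    rcases cases z with ⟨b, rfl⟩ | ⟨i, e, rfl⟩
    · exact disjoint_left.1 hd ⟨hz, (w1 b hz).1 hz1⟩ ((w1' b hz).1 hz2)
    · exact disjoint_left.1 (k3 i) ⟨hz, (w2 i e hz).1 hz1⟩ ((w2' i e hz).1 hz2)
  · ext b
    exact and_congr_right fun hb => not_congr (or_congr (w1 b hb) (w1' b hb))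

end Step

namespace Fam

variable (F : Fam)

/-- The boundary curve of a member of the family. -/
def gam (k : F.κ) : Set (I × I) := frontier (F.W k)

/-- The two open sides of a curve. -/
def Side (k : F.κ) (v : Bool) : Set (I × I) := if v then interior (F.W k) else (F.W k)ᶜ

/-- No other curve passes through the point. -/
def NC (k : F.κ) (q : I × I) : Prop := ∀ l, q ∈ F.gam l → l = k

theorem isOpen_Side (k : F.κ) (v : Bool) : IsOpen (F.Side k v) := by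
  cases v
  · exact (F.closed k).isOpen_compl
  · exact isOpen_interior

theorem not_gam {k : F.κ} {q : I × I} : q ∉ F.gam k ↔ ∃ v, q ∈ F.Side k v := by
  simp only [gam, (F.closed k).frontier_eq, Side, mem_diff, Bool.exists_bool]
  constructor
  · intro h
    by_cases h' : q ∈ F.W k
    · exact Or.inr (by simpa [h'] using h)
    · exact Or.inl (by simpa using h')
  · rintro (h | h)
    · exact fun h' => (by simpa using h : q ∉ F.W k) h'.1
    · exact fun h' => h'.2 (by simpa using h)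

open Classical in
theorem side_val {k : F.κ} {q : I × I} {v : Bool} (h : q ∈ F.Side k v) :
    decide (q ∈ F.W k) = v := by
  cases v
  · simpa [Side] using h
  · simpa using interior_subset (s := F.W k) (by simpa [Side] using h)

/-- Admissible double sequences. -/
def Adm : Type := {p : C(ℕ∞ × ℕ∞, I × I) // (∀ m, p (⊤, m) = p (⊤, ⊤)) ∧
  ∀ k, p (⊤, ⊤) ∈ F.gam k → ∃ c v, ∀ᶠ n : ℕ in atTop, (par n = c ∨ F.NC k (p (⊤, ⊤))) →
    ∀ m, p (n, m) ∈ F.Side k v}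

abbrev EE : Type := ℕ∞ × RR

def pr : C(EE, ℕ∞ × ℕ∞) := ⟨fun e => (rho e.2, e.1), by fun_prop⟩

abbrev psi : ℝ × F.Adm → C(EE, I × I) := fun i => i.2.1.comp pr

/-- The compact factor. -/
abbrev YY : Type := LMC F.psi

instance : T2Space F.YY := inferInstance

instance : CompactSpace F.YY := inferInstance

theorem SLT_levels {c : Bool} {N : ℕ} {P : Set EE}
    (h : ∀ e ∈ P, (N : ℕ∞) ≤ rho e.2 → e.2.1.2 ∈ Tc c) : SLT 2 P := by
  classical
  let S : ℕ∞ → Set TT := fun n => if (N : ℕ∞) ≤ n then Tc c else Tc (par n.toNat)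
  have h1 : SLT 2 {p : ℕ∞ × TT | p.2 ∈ S p.1} := by
    refine SLT_fam ?_ fun k => ?_
    · filter_upwards [Ici_mem_nhds (ENat.coe_lt_top N)] with k hk
      simp only [S, if_pos (mem_Ici.1 hk), le_top, if_true]
    · simp only [S]
      split_ifs <;> exact SLT_Tc _
  have h2 := SLT_fam (S := fun _ => Subtype.val ⁻¹' {p : ℕ∞ × TT | p.2 ∈ S p.1}) (X := RR)
    (by simp) (fun _ => h1.pull isClosed_Rset.isClosedEmbedding_subtypeVal)
  refine h2.mono fun e he => ?_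
  show e.2.1.2 ∈ S e.2.1.1
  simp only [S]
  split_ifs with hN
  · exact h e he hN
  · obtain ⟨n, hn⟩ := ENat.ne_top_iff_exists.1 (ne_top_of_lt (not_le.1 hN))
    rw [← hn]
    exact e.2.2 n hn.symm

theorem level1 (p : F.Adm) (k : F.κ) : ∃ U V : Set EE, IsOpen U ∧ IsOpen V ∧
    (∀ e, p.1 (pr e) ∈ F.Side k true → e ∈ U) ∧ (∀ e, p.1 (pr e) ∈ F.Side k false → e ∈ V) ∧
    Disjoint U V ∧ SLT 2 (U ∪ V)ᶜ ∧ (∀ e ∉ U ∪ V, p.1 (pr e) = p.1 (rho e.2, ⊤)) ∧
    ((p.1 (⊤, ⊤) ∈ F.gam k → F.NC k (p.1 (⊤, ⊤))) → ∀ e ∉ U ∪ V, rho e.2 ≠ ⊤) := by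
  classical
  obtain ⟨c, v, N, hN, hv⟩ : ∃ (c v : Bool) (N : ℕ), (∀ n : ℕ, N ≤ n →
      (par n = c ∨ (p.1 (⊤, ⊤) ∈ F.gam k → F.NC k (p.1 (⊤, ⊤)))) →
      ∀ m, p.1 (n, m) ∈ F.Side k v) ∧ (p.1 (⊤, ⊤) ∉ F.gam k → p.1 (⊤, ⊤) ∈ F.Side k v) := by
    by_cases hq : p.1 (⊤, ⊤) ∈ F.gam k
    · obtain ⟨c, v, h⟩ := p.2.2 k hq
      obtain ⟨N, hN⟩ := eventually_atTop.1 h
      exact ⟨c, v, N, fun n hn h => hN n hn (h.imp_right fun h => h hq), fun h => (h hq).elim⟩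
    · obtain ⟨v, hv⟩ := F.not_gam.1 hq
      have := isCompact_univ.eventually_forall_of_forall_eventually (x₀ := (⊤ : ℕ∞))
        (P := fun n m => p.1 (n, m) ∈ F.Side k v) (fun m _ =>
          p.1.continuous.continuousAt.eventually
            ((F.isOpen_Side k v).mem_nhds (by rwa [p.2.1 m])))
      obtain ⟨N, hN⟩ := eventually_atTop.1 (mem_nhds_top.1 this).2
      exact ⟨true, v, N, fun n hn _ m => hN n hn m trivial, fun _ => hv⟩
  let col : EE → Bool := fun e => if rho e.2 = ⊤ then v else decide (p.1 (pr e) ∈ F.W k)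
  have hpr : ∀ e : EE, rho e.2 = ⊤ → p.1 (pr e) = p.1 (⊤, ⊤) := fun e he => by
    show p.1 (rho e.2, e.1) = _
    rw [he, p.2.1]
  have comp : ∀ w e, p.1 (pr e) ∈ F.Side k w → e ∈ interior {e | col e = w} := by
    intro w
    refine interior_maximal (t := {e | p.1 (pr e) ∈ F.Side k w}) ?_
      ((F.isOpen_Side k w).preimage (p.1.continuous.comp pr.continuous))
    intro e he
    simp only [col, mem_ofPred_eq] at he ⊢
    split_ifs with h
    · rw [hpr e h] at he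
      exact (F.side_val (hv (F.not_gam.2 ⟨w, he⟩))).symm.trans (F.side_val he)
    · exact F.side_val he
  have lc : ∀ e w, (∀ᶠ e' in 𝓝 e, col e' = w) →
      e ∈ interior {e | col e = true} ∪ interior {e | col e = false} := by
    intro e w he
    cases w
    · exact Or.inr (mem_interior_iff_mem_nhds.2 he)
    · exact Or.inl (mem_interior_iff_mem_nhds.2 he)
  have far : ∀ e : EE, (N : ℕ∞) ≤ rho e.2 → ((p.1 (⊤, ⊤) ∈ F.gam k → F.NC k (p.1 (⊤, ⊤))) ∨
      e.2.1.2 ∉ Tc (!c)) → col e = v := by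
    intro e h1 h2
    simp only [col]
    split_ifs with h
    · rfl
    · obtain ⟨n, hn⟩ := ENat.ne_top_iff_exists.1 h
      refine F.side_val ?_
      show p.1 (rho e.2, e.1) ∈ _
      rw [← hn] at h1 ⊢
      refine hN n (by exact_mod_cast h1) (h2.symm.imp_left fun h3 => ?_) _
      have := e.2.2 n hn.symm
      by_contra hne
      apply h3
      have e1 : par n = !c := by
        revert hne
        cases par n <;> cases c <;> simp
      rwa [← e1]
  have opn : IsOpen {e : EE | (N : ℕ∞) ≤ rho e.2} :=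
    (isOpen_enat (s := Ici (N : ℕ∞)) fun _ => (eventually_ge_atTop N).mono fun n hn => by
      simpa using hn).preimage (rho.continuous.comp continuous_snd)
  refine ⟨interior {e | col e = true}, interior {e | col e = false}, isOpen_interior,
    isOpen_interior, comp true, comp false, ?_, SLT_levels (c := !c) (N := N) ?_, ?_, ?_⟩
  · refine Disjoint.mono interior_subset interior_subset (disjoint_left.2 fun e h h' => ?_)
    exact absurd ((show col e = true from h).symm.trans h') (by decide)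
  · intro e he h1
    by_contra h2
    refine he (lc e v ?_)
    have m1 : ∀ᶠ e' : EE in 𝓝 e, e'.2.1.2 ∈ (Tc (!c))ᶜ :=
      (by fun_prop : Continuous fun e' : EE => e'.2.1.2).continuousAt.eventually
        ((isClosed_Tc _).isOpen_compl.mem_nhds h2)
    filter_upwards [m1, opn.mem_nhds h1] with e' a1 a2
    exact far e' a2 (Or.inr a1)
  · intro e he
    by_cases h : rho e.2 = ⊤
    · rw [hpr e h, h]
    · by_cases h' : e.1 = ⊤
      · show p.1 (rho e.2, e.1) = _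
        rw [h']
      · refine (he (lc e (col e) ?_)).elim
        have m : ∀ᶠ x in 𝓝 (pr e), x = pr e := by
          show ∀ᶠ x in 𝓝 (rho e.2, e.1), x = (rho e.2, e.1)
          rw [nhds_prod_eq, ENat.nhds_eq_pure h, ENat.nhds_eq_pure h']
          simp
        filter_upwards [pr.continuous.continuousAt.eventually m] with e' a
        have a' : rho e'.2 = rho e.2 := congrArg (Prod.fst : ℕ∞ × ℕ∞ → ℕ∞) a
        simp only [col, a, a']
  · intro hq e he h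
    refine he (lc e v ?_)
    filter_upwards [opn.mem_nhds (show (N : ℕ∞) ≤ rho e.2 from h ▸ le_top)] with e' a
    exact far e' a (Or.inl hq)

theorem level2 (f : C(ℕ∞, I × I)) {Ub Vb : Set (I × I)} (hU : IsOpen Ub) (hV : IsOpen Vb)
    (hd : Disjoint Ub Vb) : ∃ U V : Set ℕ∞, IsOpen U ∧ IsOpen V ∧ (∀ n, f n ∈ Ub → n ∈ U) ∧
      (∀ n, f n ∈ Vb → n ∈ V) ∧ Disjoint U V ∧ ∀ n ∉ U ∪ V, n = ⊤ ∧ f ⊤ ∉ Ub ∪ Vb := by
  refine ⟨f ⁻¹' Ub, {k | f k ∉ Ub ∧ (k = ⊤ → f ⊤ ∈ Vb)}, hU.preimage f.continuous, ?_,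
    fun n h => h, fun n h => ⟨disjoint_right.1 hd h, fun h' => h' ▸ h⟩,
    disjoint_left.2 fun e h h' => h'.1 h, ?_⟩
  · refine isOpen_enat fun h => ?_
    have := (mem_nhds_top.1 (f.continuous.continuousAt (hV.mem_nhds (h.2 rfl)))).2
    exact this.mono fun n hn => ⟨disjoint_right.1 hd hn, fun h' => (ENat.coe_ne_top n h').elim⟩
  · intro e he
    simp only [mem_union, mem_ofPred_eq, mem_preimage, not_or, not_and,
      Classical.not_imp] at he
    obtain ⟨h1, h2⟩ := he.2 he.1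
    exact ⟨h1, fun h => h.elim (h1 ▸ he.1) h2⟩

theorem SLT_one_pt {X : Type} [TopologicalSpace X] (k : X) : SLT 1 ({k} : Set X) := by
  intro A B _ _ hA hB hAB
  by_cases h : k ∈ A
  · exact ⟨univ, ∅, isOpen_univ, isOpen_empty, subset_univ _,
      fun x hx => disjoint_left.1 hAB h (hB hx ▸ hx), by simp, by simp [SLT]⟩
  · exact ⟨∅, univ, isOpen_empty, isOpen_univ, fun x hx => h (hA hx ▸ hx), subset_univ _,
      by simp, by simp [SLT]⟩

theorem SLT_YY : SLT 3 (univ : Set F.YY) := by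
  intro A C hA hC _ _ hAC
  obtain ⟨k, k1, k2⟩ := F.sep _ _ (hA.preimage continuous_bs) (hC.preimage continuous_bs)
    (hAC.preimage (bs F.psi))
  obtain ⟨U, V, hU, hV, a1, a2, a3, a4, X, hX, a5, a6⟩ := step' (ψ := F.psi) isClosed_univ (n := 2)
    (fun i => SLT_prod SLT_RR) hA hC (subset_univ _) (subset_univ _) hAC
    (F.isOpen_Side k true) (F.isOpen_Side k false) k1 k2
    (disjoint_left.2 fun b hb hb' => hb' (interior_subset hb.2)) finite_empty
    (P := fun i P => SLT 2 P ∧ (∀ e ∈ P, i.2.1 (pr e) = i.2.1 (rho e.2, ⊤)) ∧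
      ((i.2.1 (⊤, ⊤) ∈ F.gam k → F.NC k (i.2.1 (⊤, ⊤))) → ∀ e ∈ P, rho e.2 ≠ ⊤)) (by
      intro i _
      obtain ⟨U, V, hU, hV, b1, b2, b3, b4, b5, b6⟩ := F.level1 i.2 k
      exact ⟨U, V, hU, hV, fun e _ => b1 e, fun e _ => b2 e, b3.mono_left inter_subset_right,
        b4.mono fun e he => he.2, fun e he => b5 e he.2, fun h e he => b6 h e he.2⟩)
  refine ⟨U, V, hU, hV, a1, a2, a3, ?_⟩
  have hS : IsClosed (univ \ (U ∪ V)) := isClosed_univ.sdiff (hU.union hV)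
  generalize univ \ (U ∪ V) = S at *
  intro A' C' hA' hC' hAS hCS hAC'
  obtain ⟨W', w0, w1, w2, w3, w4⟩ := F.aux k _ _ (hA'.preimage continuous_bs)
    (hC'.preimage continuous_bs) (hAC'.preimage (bs F.psi))
  have hd : Disjoint (interior W') W'ᶜ :=
    disjoint_left.2 fun b hb hb' => hb' (interior_subset hb)
  have fr : ∀ b, b ∉ interior W' ∪ W'ᶜ → b ∈ frontier W' := fun b hb => by
    rw [w0.frontier_eq]
    exact ⟨not_not.1 fun h => hb (Or.inr h), fun h => hb (Or.inl h)⟩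
  obtain ⟨U', V', hU', hV', c1, c2, c3, c4, X', hX', c5, c6⟩ := step' (ψ := F.psi) hS (n := 1)
    (fun i => by
      by_cases hi : i ∈ X
      · exact a5 i hi
      · exact (a6 i hi).1) hA' hC' hAS hCS hAC' isOpen_interior w0.isOpen_compl w1 w2
    (hd.mono_left inter_subset_right) hX (P := fun _ P => P = ∅) (by
      intro i hi
      obtain ⟨-, b1, b2⟩ := a6 i hi
      obtain ⟨U, V, hU, hV, d1, d2, d3, d4⟩ := level2
        (i.2.1.comp ⟨fun n => (n, ⊤), by fun_prop⟩) isOpen_interior w0.isOpen_compl hd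
      have hc : Continuous fun e : EE => rho e.2 := by fun_prop
      refine ⟨_, _, hU.preimage hc, hV.preimage hc, fun e he h => d1 _ ?_, fun e he h => d2 _ ?_,
        (d3.preimage _).mono_left inter_subset_right, eq_empty_of_forall_notMem fun e he => ?_⟩
      · exact (b1 e he : i.2.1 (pr e) = _) ▸ h
      · exact (b1 e he : i.2.1 (pr e) = _) ▸ h
      · obtain ⟨e1, e2⟩ := d4 _ he.2
        exact b2 (fun h l hl => w4 _ ⟨h, fr _ e2⟩ l hl) e he.1 e1)
  refine ⟨U', V', hU', hV', c1, c2, c3, ?_⟩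
  have hR : IsClosed (S \ (U' ∪ V')) := hS.sdiff (hU'.union hV')
  generalize S \ (U' ∪ V') = R at *
  have := w3.to_subtype
  have := hX'.to_subtype
  refine (sum0 (ι := ↥(frontier (F.W k) ∩ frontier W') ⊕ X') (Q := Sum.elim
    (fun z => {bs F.psi z.1}) (fun i => lv F.psi i.1 '' (lv F.psi i.1 ⁻¹' R))) ?_ ?_).mono ?_
  · rintro (z | i)
    · exact isClosed_singleton
    · exact (isClosedEmbedding_lv _).isClosedMap _ (hR.preimage (continuous_lv _))
  · rintro (z | i)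
    · exact SLT_one_pt _
    · exact (c5 i.1 i.2).image (isClosedEmbedding_lv _).isEmbedding
  · intro z hz
    rcases cases z with ⟨b, rfl⟩ | ⟨i, e, rfl⟩
    · have h1 : b ∈ bs F.psi ⁻¹' R := hz
      rw [c4, a4] at h1
      refine mem_iUnion.2 ⟨Sum.inl ⟨b, ?_, fr b h1.2⟩, rfl⟩
      by_contra h
      obtain ⟨v, hv⟩ := F.not_gam.1 h
      cases v
      · exact h1.1.2 (Or.inr hv)
      · exact h1.1.2 (Or.inl hv)
    · by_cases hi : i ∈ X'
      · exact mem_iUnion.2 ⟨Sum.inr ⟨i, hi⟩, e, hz, rfl⟩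
      · exact (eq_empty_iff_forall_notMem.1 (c6 i hi) e hz).elim

end Fam

end Pool.Agent.Lib.MP_840f9c_gt.H32
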