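import Pool.Agent.Lib.MP_840f9c_gt.Sq

namespace Pool.Agent.Lib.MP_840f9c_gt

open Set Topology Filter OnePoint

variable {B E ι : Type} [TopologicalSpace B] [TopologicalSpace E]

instance sigmaWLC [CompactSpace E] : WeaklyLocallyCompactSpace (Σ _ : ι, E) where
  exists_compact_mem_nhds := by
    rintro ⟨i, e⟩
    exact ⟨range (Sigma.mk i), isCompact_range continuous_sigmaMk,
      isOpen_range_sigmaMk.mem_nhds ⟨e, rfl⟩⟩

/-- Base `B` with many copies of `E` accumulating to it along the maps `ψ i`. -/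
abbrev LMC (ψ : ι → C(E, B)) : Type :=
  {z : B × OnePoint (Σ _ : ι, E) // ∀ s : (Σ _ : ι, E), z.2 = s → z.1 = ψ s.1 s.2}

namespace LMC

variable {ψ : ι → C(E, B)}

def bs (ψ : ι → C(E, B)) (b : B) : LMC ψ := ⟨(b, ∞), by simp⟩

def lv (ψ : ι → C(E, B)) (i : ι) (e : E) : LMC ψ :=
  ⟨(ψ i e, ((⟨i, e⟩ : Σ _ : ι, E) : OnePoint (Σ _ : ι, E))), by
    intro s hs
    obtain rfl := coe_eq_coe.1 hs
    rfl⟩

def rt (z : LMC ψ) : B := z.1.1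

@[simp] theorem rt_bs (b : B) : rt (bs ψ b) = b := rfl

@[simp] theorem rt_lv (i : ι) (e : E) : rt (lv ψ i e) = ψ i e := rfl

theorem continuous_rt : Continuous (rt : LMC ψ → B) := continuous_fst.comp continuous_subtype_val

theorem continuous_bs : Continuous (bs ψ) := by
  unfold bs
  fun_prop

theorem continuous_lv (i : ι) : Continuous (lv ψ i) :=
  Continuous.subtype_mk ((ψ i).continuous.prodMk (continuous_coe.comp continuous_sigmaMk)) _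

theorem cases (z : LMC ψ) : (∃ b, z = bs ψ b) ∨ ∃ i e, z = lv ψ i e := by
  obtain ⟨⟨b, o⟩, h⟩ := z
  induction o using OnePoint.rec with
  | infty => exact Or.inl ⟨b, rfl⟩
  | coe s =>
    obtain ⟨i, e⟩ := s
    obtain rfl : b = ψ i e := h ⟨i, e⟩ rfl
    exact Or.inr ⟨i, e, rfl⟩

theorem bs_ne_lv (b : B) (i : ι) (e : E) : bs ψ b ≠ lv ψ i e := by
  intro h
  have := congrArg (fun z : LMC ψ => z.1.2) h
  simp [bs, lv] at this

theorem lv_inj {i i' : ι} {e e' : E} (h : lv ψ i e = lv ψ i' e') : i = i' ∧ e = e' := by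
  have := congrArg (fun z : LMC ψ => z.1.2) h
  simpa [lv] using this

theorem injective_lv (i : ι) : Function.Injective (lv ψ i) := fun _ _ h => (lv_inj h).2

theorem injective_bs : Function.Injective (bs ψ) := fun _ _ h => congrArg rt h

theorem isOpen_image_lv (i : ι) {W : Set E} (hW : IsOpen W) : IsOpen (lv ψ i '' W) := by
  have h1 : IsOpen (((↑) : (Σ _ : ι, E) → OnePoint (Σ _ : ι, E)) '' (Sigma.mk i '' W)) :=
    isOpen_image_coe.2 (isOpenMap_sigmaMk _ hW)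
  have h2 := h1.preimage (continuous_snd.comp
    (continuous_subtype_val : Continuous (Subtype.val : LMC ψ → _)))
  convert h2 using 1
  ext z
  constructor
  · rintro ⟨e, he, rfl⟩
    exact ⟨_, ⟨e, he, rfl⟩, rfl⟩
  · rintro ⟨_, ⟨e, he, rfl⟩, h⟩
    refine ⟨e, he, ?_⟩
    rcases cases z with ⟨b, rfl⟩ | ⟨i', e', rfl⟩
    · simp [bs] at h
    · have : i = i' ∧ e = e' := by simpa [lv] using h
      rw [this.1, this.2]

theorem nhds_bs {U : Set (LMC ψ)} {b : B} (hU : U ∈ 𝓝 (bs ψ b)) :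
    ∃ N ∈ 𝓝 b, ∃ F : Set ι, F.Finite ∧ (∀ b' ∈ N, bs ψ b' ∈ U) ∧
      ∀ i ∉ F, ∀ e, ψ i e ∈ N → lv ψ i e ∈ U := by
  rw [nhds_subtype] at hU
  obtain ⟨U', hU', hsub⟩ := hU
  obtain ⟨N, hN, O, hO, hNO⟩ := mem_nhds_prod_iff.1 hU'
  obtain ⟨K, ⟨-, hK⟩, hKO⟩ := hasBasis_nhds_infty.mem_iff.1 hO
  obtain ⟨F, t, hF, -, rfl⟩ := hK.sigma_exists_finite_sigma_eq
  refine ⟨N, hN, F, hF, fun b' hb' => hsub (hNO ⟨hb', hKO (Or.inr rfl)⟩), fun i hi e he =>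
    hsub (hNO ⟨he, hKO (Or.inl ⟨⟨i, e⟩, fun h => hi h.1, rfl⟩)⟩)⟩

theorem isOpen_of [CompactSpace E] [T2Space E] {W : Set (LMC ψ)}
    (h1 : ∀ i, IsOpen (lv ψ i ⁻¹' W))
    (h2 : ∀ b, bs ψ b ∈ W → ∃ N ∈ 𝓝 b, ∃ F : Set ι, F.Finite ∧ (∀ b' ∈ N, bs ψ b' ∈ W) ∧
      ∀ i ∉ F, ∀ e, ψ i e ∈ N → lv ψ i e ∈ W) : IsOpen W := by
  rw [isOpen_iff_mem_nhds]
  intro z hz
  rcases cases z with ⟨b, rfl⟩ | ⟨i, e, rfl⟩
  · obtain ⟨N, hN, F, hF, h3, h4⟩ := h2 b hz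
    have hK : IsCompact (⋃ i ∈ F, range (@Sigma.mk ι (fun _ => E) i)) :=
      hF.isCompact_biUnion fun i _ => isCompact_range continuous_sigmaMk
    have hO := isOpen_compl_image_coe.2 ⟨hK.isClosed, hK⟩
    have hc : Continuous fun z : LMC ψ => z.1.2 := continuous_snd.comp continuous_subtype_val
    have m1 := (hO.preimage hc).mem_nhds (x := bs ψ b) (by simp [bs])
    have m2 : rt ⁻¹' N ∈ 𝓝 (bs ψ b) := continuous_rt.continuousAt hN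
    filter_upwards [m1, m2] with z hz1 hz2
    rcases cases z with ⟨b', rfl⟩ | ⟨i, e, rfl⟩
    · exact h3 b' hz2
    · refine h4 i (fun hi => hz1 ?_) e hz2
      exact ⟨⟨i, e⟩, mem_biUnion hi ⟨e, rfl⟩, rfl⟩
  · exact mem_of_superset ((isOpen_image_lv i (h1 i)).mem_nhds ⟨e, hz, rfl⟩)
      (image_preimage_subset _ _)

theorem isClosed_carrier [T2Space B] : IsClosed {z : B × OnePoint (Σ _ : ι, E) |
    ∀ s : (Σ _ : ι, E), z.2 = s → z.1 = ψ s.1 s.2} := by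
  rw [← isOpen_compl_iff]
  have hc : Continuous fun s : (Σ _ : ι, E) => ψ s.1 s.2 :=
    continuous_sigma fun i => (ψ i).continuous
  have h1 : IsOpen {z : B × (Σ _ : ι, E) | z.1 ≠ ψ z.2.1 z.2.2} :=
    isOpen_ne_fun continuous_fst (hc.comp continuous_snd)
  have h2 := (IsOpenMap.id.prodMap isOpenMap_coe) _ h1
  convert h2 using 1
  ext ⟨b, o⟩
  simp only [mem_compl_iff, mem_setOf_eq, not_forall, mem_image, Prod.exists, Prod.map_apply,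
    id_eq, Prod.mk.injEq]
  constructor
  · rintro ⟨s, rfl, h⟩
    exact ⟨b, s, h, rfl, rfl⟩
  · rintro ⟨b', s, h, rfl, rfl⟩
    exact ⟨s, rfl, h⟩

theorem isCompact_rt [T2Space B] {K : Set B} (hK : IsCompact K) :
    IsCompact (rt ⁻¹' K : Set (LMC ψ)) := by
  have := isClosed_carrier (ψ := ψ).isClosedEmbedding_subtypeVal.isCompact_preimage
    (hK.prod isCompact_univ)
  have h : (rt ⁻¹' K : Set (LMC ψ)) = Subtype.val ⁻¹' (K ×ˢ univ) := by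
    ext z
    simp [rt]
  rw [h]
  exact this

instance [T2Space B] [CompactSpace B] : CompactSpace (LMC ψ) :=
  ⟨by simpa using isCompact_rt (ψ := ψ) isCompact_univ⟩

instance [T2Space B] [SigmaCompactSpace B] : SigmaCompactSpace (LMC ψ) :=
  isClosed_carrier.sigmaCompactSpace

variable [T2Space B] [CompactSpace E] [T2Space E]

theorem isClosedEmbedding_bs : IsClosedEmbedding (bs ψ) :=
  Function.LeftInverse.isClosedEmbedding (f := rt) rt_bs continuous_rt continuous_bs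

theorem isClosedEmbedding_lv (i : ι) : IsClosedEmbedding (lv ψ i) :=
  (continuous_lv i).isClosedEmbedding (injective_lv i)

omit [T2Space B] [CompactSpace E] [T2Space E] in
theorem fin_nhds {D : Set (LMC ψ)} (hD : IsClosed D) (hb : ∀ b, bs ψ b ∉ D) (b : B) :
    ∃ N ∈ 𝓝 b, {i | ∃ e, lv ψ i e ∈ D ∧ ψ i e ∈ N}.Finite := by
  obtain ⟨N, hN, F, hF, -, h⟩ := nhds_bs (hD.isOpen_compl.mem_nhds (hb b))
  refine ⟨N, hN, hF.subset ?_⟩
  rintro i ⟨e, he, heN⟩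
  by_contra hi
  exact h i hi e heN he

omit [T2Space B] [CompactSpace E] [T2Space E] in
theorem fin_compact {D : Set (LMC ψ)} (hD : IsClosed D) (hb : ∀ b, bs ψ b ∉ D) {K : Set B}
    (hK : IsCompact K) :
    ∃ G : Set B, IsOpen G ∧ K ⊆ G ∧ {i | ∃ e, lv ψ i e ∈ D ∧ ψ i e ∈ G}.Finite := by
  refine hK.induction_on (p := fun K => ∃ G : Set B, IsOpen G ∧ K ⊆ G ∧
    {i | ∃ e, lv ψ i e ∈ D ∧ ψ i e ∈ G}.Finite) ⟨∅, isOpen_empty, subset_rfl, by simp⟩ ?_ ?_ ?_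
  · rintro s t hst ⟨G, h1, h2, h3⟩
    exact ⟨G, h1, hst.trans h2, h3⟩
  · rintro s t ⟨G, h1, h2, h3⟩ ⟨G', h1', h2', h3'⟩
    refine ⟨G ∪ G', h1.union h1', union_subset_union h2 h2', (h3.union h3').subset ?_⟩
    rintro i ⟨e, he, h | h⟩
    · exact Or.inl ⟨e, he, h⟩
    · exact Or.inr ⟨e, he, h⟩
  · intro b _
    obtain ⟨N, hN, hf⟩ := fin_nhds hD hb b
    refine ⟨interior N, mem_nhdsWithin_of_mem_nhds (interior_mem_nhds.2 hN), interior N,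
      isOpen_interior, subset_rfl, hf.subset ?_⟩
    rintro i ⟨e, he, h⟩
    exact ⟨e, he, interior_subset h⟩

omit [T2Space B] in
theorem glue_open {S : Set (LMC ψ)} (hS : IsClosed S) {Ub : Set B} (hUb : IsOpen Ub)
    {U : ι → Set E} (hU : ∀ i, IsOpen (U i))
    (hc : ∀ b, ∃ N ∈ 𝓝 b, ∃ F : Set ι, F.Finite ∧
      ∀ i ∉ F, ∀ e, lv ψ i e ∈ S → ψ i e ∈ N → ψ i e ∈ Ub → e ∈ U i) :
    ∃ W : Set (LMC ψ), IsOpen W ∧ (∀ b, bs ψ b ∈ S → (bs ψ b ∈ W ↔ b ∈ Ub)) ∧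
      ∀ i e, lv ψ i e ∈ S → (lv ψ i e ∈ W ↔ e ∈ U i) := by
  let W : Set (LMC ψ) := Sᶜ ∪ (bs ψ '' Ub ∪ ⋃ i, lv ψ i '' U i)
  have w1 : ∀ b, bs ψ b ∈ W ↔ bs ψ b ∉ S ∨ b ∈ Ub := by
    intro b
    refine or_congr Iff.rfl ⟨?_, fun h => Or.inl ⟨b, h, rfl⟩⟩
    rintro (⟨b', h, h'⟩ | h)
    · exact injective_bs h' ▸ h
    · obtain ⟨i, e, -, h⟩ := mem_iUnion.1 h
      exact (bs_ne_lv _ _ _ h.symm).elim
  have w2 : ∀ i e, lv ψ i e ∈ W ↔ lv ψ i e ∉ S ∨ e ∈ U i := by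
    intro i e
    refine or_congr Iff.rfl ⟨?_, fun h => Or.inr (mem_iUnion.2 ⟨i, e, h, rfl⟩)⟩
    rintro (⟨b', -, h'⟩ | h)
    · exact (bs_ne_lv _ _ _ h').elim
    · obtain ⟨i', e', h'', h'⟩ := mem_iUnion.1 h
      obtain ⟨rfl, rfl⟩ := lv_inj h'
      exact h''
  refine ⟨W, isOpen_of ?_ ?_, fun b hb => by simp [w1, hb], fun i e he => by simp [w2, he]⟩
  · intro i
    have : lv ψ i ⁻¹' W = (lv ψ i ⁻¹' S)ᶜ ∪ U i := by
      ext e
      exact w2 i e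
    rw [this]
    exact (hS.preimage (continuous_lv i)).isOpen_compl.union (hU i)
  · intro b hb
    rcases (w1 b).1 hb with h | h
    · obtain ⟨N, hN, F, hF, h3, h4⟩ := nhds_bs (hS.isOpen_compl.mem_nhds h)
      exact ⟨N, hN, F, hF, fun b' hb' => Or.inl (h3 b' hb'), fun i hi e he =>
        Or.inl (h4 i hi e he)⟩
    · obtain ⟨N, hN, F, hF, h3⟩ := hc b
      refine ⟨N ∩ Ub, inter_mem hN (hUb.mem_nhds h), F, hF, fun b' hb' => (w1 b').2 (Or.inr hb'.2),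
        fun i hi e he => (w2 i e).2 ?_⟩
      by_cases hs : lv ψ i e ∈ S
      · exact Or.inr (h3 i hi e hs he.1 he.2)
      · exact Or.inl hs

/-- Off a locally finite family of levels, the trace of `S` on a level lies over one point. -/
def Const (S : Set (LMC ψ)) : Prop :=
  ∀ b, ∃ N ∈ 𝓝 b, ∃ F : Set ι, F.Finite ∧ ∀ i ∉ F, ∀ e e', lv ψ i e ∈ S → lv ψ i e' ∈ S →
    ψ i e ∈ N → ψ i e' = ψ i e

/-- Local finiteness of the levels meeting a closed set that misses the base. -/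
def LF (S : Set (LMC ψ)) : Prop :=
  ∀ D : Set (LMC ψ), IsClosed D → D ⊆ S → (∀ b, bs ψ b ∉ D) → ∀ b, ∃ N ∈ 𝓝 b,
    {i | (∃ e, lv ψ i e ∈ D) ∧ ∃ e, lv ψ i e ∈ S ∧ ψ i e ∈ N}.Finite

omit [T2Space B] [CompactSpace E] [T2Space E] in
theorem Const.lf {S : Set (LMC ψ)} (h : Const S) : LF S := by
  intro D hD hDS hb b
  obtain ⟨N, hN, F, hF, h1⟩ := h b
  obtain ⟨N', hN', hf⟩ := fin_nhds hD hb b
  refine ⟨N ∩ N', inter_mem hN hN', (hF.union hf).subset ?_⟩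
  rintro i ⟨⟨e, he⟩, e', he', hn⟩
  by_cases hi : i ∈ F
  · exact Or.inl hi
  · refine Or.inr ⟨e, he, ?_⟩
    rw [h1 i hi e' e he' (hDS he) hn.1]
    exact hn.2

omit [T2Space B] [CompactSpace E] [T2Space E] in
theorem lf_of_compact [CompactSpace B] (S : Set (LMC ψ)) : LF S := by
  intro D hD _ hb b
  obtain ⟨G, -, hG, hf⟩ := fin_compact hD hb isCompact_univ
  exact ⟨univ, univ_mem, hf.subset fun i hi => let ⟨⟨e, he⟩, _⟩ := hi; ⟨e, he, hG trivial⟩⟩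

omit [T2Space B] in
/-- One step of the upper bound: standard pieces off a locally finite family `X` of levels. -/
theorem step {S : Set (LMC ψ)} (hS : IsClosed S) (hLF : LF S) {n : ℕ}
    (h1 : ∀ i, SLT (n + 1) (lv ψ i ⁻¹' S)) {A C : Set (LMC ψ)} (hA : IsClosed A)
    (hC : IsClosed C) (hAS : A ⊆ S) (hCS : C ⊆ S) (hAC : Disjoint A C) {Ub Vb : Set B}
    (hUb : IsOpen Ub) (hVb : IsOpen Vb) (hAU : bs ψ ⁻¹' A ⊆ Ub) (hCV : bs ψ ⁻¹' C ⊆ Vb)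
    (hd : Disjoint (bs ψ ⁻¹' S ∩ Ub) Vb) {X : Set ι}
    (hX : ∀ b, ∃ N ∈ 𝓝 b, {i | i ∈ X ∧ ∃ e, lv ψ i e ∈ S ∧ ψ i e ∈ N}.Finite)
    (h2 : ∀ i ∉ X, ∃ U V : Set E, IsOpen U ∧ IsOpen V ∧
      (∀ e, lv ψ i e ∈ S → ψ i e ∈ Ub → e ∈ U) ∧ (∀ e, lv ψ i e ∈ S → ψ i e ∈ Vb → e ∈ V) ∧
      Disjoint (lv ψ i ⁻¹' S ∩ U) V ∧ SLT n (lv ψ i ⁻¹' S \ (U ∪ V)) ∧
      ∀ e ∈ lv ψ i ⁻¹' S \ (U ∪ V), ∀ e' ∈ lv ψ i ⁻¹' S \ (U ∪ V), ψ i e' = ψ i e) :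
    ∃ U V : Set (LMC ψ), IsOpen U ∧ IsOpen V ∧ A ⊆ U ∧ C ⊆ V ∧ Disjoint (S ∩ U) V ∧
      Const (S \ (U ∪ V)) ∧ bs ψ ⁻¹' (S \ (U ∪ V)) = bs ψ ⁻¹' S \ (Ub ∪ Vb) ∧
      ∀ i, SLT n (lv ψ i ⁻¹' (S \ (U ∪ V))) := by
  let D : Set (LMC ψ) := (A \ rt ⁻¹' Ub) ∪ (C \ rt ⁻¹' Vb)
  have hD : IsClosed D := (hA.sdiff (hUb.preimage continuous_rt)).union
    (hC.sdiff (hVb.preimage continuous_rt))
  have hDS : D ⊆ S := union_subset (fun z hz => hAS hz.1) (fun z hz => hCS hz.1)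
  have hDb : ∀ b, bs ψ b ∉ D := by
    rintro b (h | h)
    · exact h.2 (hAU h.1)
    · exact h.2 (hCV h.1)
  let X' : Set ι := {i | i ∈ X ∨ ∃ e, lv ψ i e ∈ D}
  have hX' : ∀ b, ∃ N ∈ 𝓝 b, {i | i ∈ X' ∧ ∃ e, lv ψ i e ∈ S ∧ ψ i e ∈ N}.Finite := by
    intro b
    obtain ⟨N, hN, hf⟩ := hX b
    obtain ⟨N', hN', hf'⟩ := hLF D hD hDS hDb b
    refine ⟨N ∩ N', inter_mem hN hN', (hf.union hf').subset ?_⟩
    rintro i ⟨hi | hi, e, he, hn⟩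
    · exact Or.inl ⟨hi, e, he, hn.1⟩
    · exact Or.inr ⟨hi, e, he, hn.2⟩
  have key : ∀ i, ∃ U V : Set E, IsOpen U ∧ IsOpen V ∧ lv ψ i ⁻¹' A ⊆ U ∧ lv ψ i ⁻¹' C ⊆ V ∧
      Disjoint (lv ψ i ⁻¹' S ∩ U) V ∧ SLT n (lv ψ i ⁻¹' S \ (U ∪ V)) ∧ (i ∉ X' →
      (∀ e, lv ψ i e ∈ S → ψ i e ∈ Ub → e ∈ U) ∧ (∀ e, lv ψ i e ∈ S → ψ i e ∈ Vb → e ∈ V) ∧
      ∀ e ∈ lv ψ i ⁻¹' S \ (U ∪ V), ∀ e' ∈ lv ψ i ⁻¹' S \ (U ∪ V), ψ i e' = ψ i e) := by
    intro i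
    by_cases hi : i ∈ X'
    · obtain ⟨U, V, hU, hV, a1, a2, a3, a4⟩ := h1 i (lv ψ i ⁻¹' A) (lv ψ i ⁻¹' C)
        (hA.preimage (continuous_lv i)) (hC.preimage (continuous_lv i)) (preimage_mono hAS)
        (preimage_mono hCS) (hAC.preimage _)
      exact ⟨U, V, hU, hV, a1, a2, a3, a4, fun h => (h hi).elim⟩
    · obtain ⟨U, V, hU, hV, a1, a2, a3, a4, a5⟩ := h2 i (fun h => hi (Or.inl h))
      refine ⟨U, V, hU, hV, fun e he => a1 e (hAS he) ?_, fun e he => a2 e (hCS he) ?_, a3, a4,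
        fun _ => ⟨a1, a2, a5⟩⟩
      · by_contra h
        exact hi (Or.inr ⟨e, Or.inl ⟨he, h⟩⟩)
      · by_contra h
        exact hi (Or.inr ⟨e, Or.inr ⟨he, h⟩⟩)
  choose U V hU hV k1 k2 k3 k4 k5 using key
  have nm : ∀ {N : Set B} {i : ι} {e : E},
      i ∉ {i | i ∈ X' ∧ ∃ e, lv ψ i e ∈ S ∧ ψ i e ∈ N} → lv ψ i e ∈ S → ψ i e ∈ N → i ∉ X' :=
    fun hi he hn h => hi ⟨h, _, he, hn⟩
  obtain ⟨W, hW, w1, w2⟩ := glue_open hS hUb hU (fun b => by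
    obtain ⟨N, hN, hf⟩ := hX' b
    exact ⟨N, hN, _, hf, fun i hi e he hn hu => (k5 i (nm hi he hn)).1 e he hu⟩)
  obtain ⟨W', hW', w1', w2'⟩ := glue_open hS hVb hV (fun b => by
    obtain ⟨N, hN, hf⟩ := hX' b
    exact ⟨N, hN, _, hf, fun i hi e he hn hu => (k5 i (nm hi he hn)).2.1 e he hu⟩)
  have tr : ∀ i, lv ψ i ⁻¹' (S \ (W ∪ W')) = lv ψ i ⁻¹' S \ (U i ∪ V i) := by
    intro i
    ext e
    exact and_congr_right fun he => not_congr (or_congr (w2 i e he) (w2' i e he))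
  refine ⟨W, W', hW, hW', ?_, ?_, ?_, ?_, ?_, fun i => tr i ▸ k4 i⟩
  · intro z hz
    rcases cases z with ⟨b, rfl⟩ | ⟨i, e, rfl⟩
    · exact (w1 b (hAS hz)).2 (hAU hz)
    · exact (w2 i e (hAS hz)).2 (k1 i hz)
  · intro z hz
    rcases cases z with ⟨b, rfl⟩ | ⟨i, e, rfl⟩
    · exact (w1' b (hCS hz)).2 (hCV hz)
    · exact (w2' i e (hCS hz)).2 (k2 i hz)
  · rw [disjoint_left]
    rintro z ⟨hz, hz1⟩ hz2
    rcases cases z with ⟨b, rfl⟩ | ⟨i, e, rfl⟩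
    · exact disjoint_left.1 hd ⟨hz, (w1 b hz).1 hz1⟩ ((w1' b hz).1 hz2)
    · exact disjoint_left.1 (k3 i) ⟨hz, (w2 i e hz).1 hz1⟩ ((w2' i e hz).1 hz2)
  · intro b
    obtain ⟨N, hN, hf⟩ := hX' b
    refine ⟨N, hN, _, hf, fun i hi e e' he he' hn => (k5 i (nm hi he.1 hn)).2.2 e ?_ e' ?_⟩
    · rw [← tr]
      exact he
    · rw [← tr]
      exact he'
  · ext b
    exact and_congr_right fun hb => not_congr (or_congr (w1 b hb) (w1' b hb))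

omit [T2Space B] in
theorem pt [CompletelyNormalSpace B] : ∀ {n : ℕ} {S : Set (LMC ψ)}, IsClosed S → Const S →
    SLT n (bs ψ ⁻¹' S) → (∀ i, SLT n (lv ψ i ⁻¹' S)) → SLT n S
  | 0, S, _, _, h1, h2 => by
      simp only [SLT] at h1 h2 ⊢
      refine eq_empty_of_forall_notMem fun z hz => ?_
      rcases cases z with ⟨b, rfl⟩ | ⟨i, e, rfl⟩
      · exact eq_empty_iff_forall_notMem.1 h1 b hz
      · exact eq_empty_iff_forall_notMem.1 (h2 i) e hz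
  | n + 1, S, hS, hc, h1, h2 => by
      intro A C hA hC hAS hCS hAC
      obtain ⟨Ub, Vb, hUb, hVb, hAU, hCV, hd, hL⟩ := h1.disj (hA.preimage continuous_bs)
        (hC.preimage continuous_bs) (preimage_mono hAS) (preimage_mono hCS) (hAC.preimage _)
      obtain ⟨U, V, hU, hV, a1, a2, a3, a4, a5, a6⟩ := step hS hc.lf h2 hA hC hAS hCS hAC hUb hVb
        hAU hCV (hd.mono_left inter_subset_right)
        (X := {i | ∃ e e', lv ψ i e ∈ S ∧ lv ψ i e' ∈ S ∧ ψ i e' ≠ ψ i e}) (by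
          intro b
          obtain ⟨N, hN, F, hF, h⟩ := hc b
          refine ⟨N, hN, hF.subset ?_⟩
          rintro i ⟨⟨e, e', he, he', hne⟩, e'', he'', hn⟩
          by_contra hi
          exact hne ((h i hi e'' e' he'' he' hn).trans (h i hi e'' e he'' he hn).symm)) (by
          intro i hi
          simp only [mem_setOf_eq, not_exists, not_and, not_not] at hi
          by_cases hv : ∃ e, lv ψ i e ∈ S ∧ ψ i e ∈ Vb
          · obtain ⟨e0, he0, hv0⟩ := hv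
            refine ⟨∅, univ, isOpen_empty, isOpen_univ, fun e he hu => ?_, fun _ _ _ => trivial,
              by simp, by simpa using SLT.empty n, by simp⟩
            rw [hi e0 e he0 he] at hu
            exact disjoint_left.1 hd hu hv0
          · exact ⟨univ, ∅, isOpen_univ, isOpen_empty, fun _ _ _ => trivial,
              fun e he hu => hv ⟨e, he, hu⟩, by simp, by simpa using SLT.empty n, by simp⟩)
      exact ⟨U, V, hU, hV, a1, a2, a3, pt (hS.sdiff (hU.union hV)) a4 (a5 ▸ hL) a6⟩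

omit [T2Space B] in
theorem up [CompletelyNormalSpace B] {S : Set (LMC ψ)} (hS : IsClosed S) (hLF : LF S) {n : ℕ}
    (h1 : ∀ i, SLT (n + 1) (lv ψ i ⁻¹' S))
    (h2 : ∀ A C : Set B, IsClosed A → IsClosed C → Disjoint A C → ∃ Ub Vb : Set B,
      IsOpen Ub ∧ IsOpen Vb ∧ A ⊆ Ub ∧ C ⊆ Vb ∧ Disjoint Ub Vb ∧ SLT n (Ub ∪ Vb)ᶜ ∧
      ∀ i, ∃ U V : Set E, IsOpen U ∧ IsOpen V ∧
      (∀ e, lv ψ i e ∈ S → ψ i e ∈ Ub → e ∈ U) ∧ (∀ e, lv ψ i e ∈ S → ψ i e ∈ Vb → e ∈ V) ∧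
      Disjoint (lv ψ i ⁻¹' S ∩ U) V ∧ SLT n (lv ψ i ⁻¹' S \ (U ∪ V)) ∧
      ∀ e ∈ lv ψ i ⁻¹' S \ (U ∪ V), ∀ e' ∈ lv ψ i ⁻¹' S \ (U ∪ V), ψ i e' = ψ i e) :
    SLT (n + 1) S := by
  intro A C hA hC hAS hCS hAC
  obtain ⟨Ub, Vb, hUb, hVb, hAU, hCV, hd, hL, h3⟩ := h2 _ _ (hA.preimage continuous_bs)
    (hC.preimage continuous_bs) (hAC.preimage (bs ψ))
  obtain ⟨U, V, hU, hV, a1, a2, a3, a4, a5, a6⟩ := step hS hLF h1 hA hC hAS hCS hAC hUb hVb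
    hAU hCV (hd.mono_left inter_subset_right) (X := ∅) (fun b => ⟨univ, univ_mem, by simp⟩)
    (fun i _ => h3 i)
  exact ⟨U, V, hU, hV, a1, a2, a3, pt (hS.sdiff (hU.union hV)) a4
    (a5 ▸ hL.mono fun b hb => hb.2) a6⟩

omit [T2Space B] [CompactSpace E] [T2Space E] in
/-- A copy that is good for countably many neighbourhoods of base points. -/
theorem exists_good {Ω κ : Type} [Uncountable Ω] {ψ : Ω × κ → C(E, B)} (k : κ)
    (b : ℕ → B) (U : ℕ → Set (LMC ψ)) (hU : ∀ n, U n ∈ 𝓝 (bs ψ (b n))) :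
    ∃ α : Ω, ∀ n e, ψ (α, k) e = b n → lv ψ (α, k) e ∈ U n := by
  have := fun n => nhds_bs (hU n)
  choose N hN F hF _ h using this
  have hc : (⋃ n, Prod.fst '' F n).Countable :=
    countable_iUnion fun n => ((hF n).image _).countable
  obtain ⟨α, hα⟩ : ∃ α, α ∉ ⋃ n, Prod.fst '' F n := by
    by_contra hh
    push Not at hh
    exact not_countable_univ (hc.mono fun α _ => hh α)
  refine ⟨α, fun n e he => h n _ (fun hi => hα (mem_iUnion.2 ⟨n, _, hi, rfl⟩)) e ?_⟩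
  rw [he]
  exact mem_of_mem_nhds (hN n)

end LMC

end Pool.Agent.Lib.MP_840f9c_gt
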