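import Pool.Agent.Lib.MP_840f9c_gt.Gam

namespace Pool.Agent.Lib.MP_840f9c_gt

open Set Topology Filter unitInterval LMC

instance : FirstCountableTopology Bk :=
  (IsInducing.subtypeVal (t := {s : (ℕ → ℝ) × (I × I) |
    ∃ k, s.1 = Pi.single k (s.2.2 : ℝ)})).firstCountableTopology

def sl (U : Set (ℕ∞ × Bk)) (m : ℕ∞) (k : ℕ) : Set (I × I) := {q | (m, pg k q) ∈ U}

structure Good (U V : Set (ℕ∞ × Bk)) : Prop where
  hU : IsOpen U
  hV : IsOpen V
  hd : Disjoint U V
  den : ∀ m k, Dense (sl U m k ∪ sl V m k)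
  gad : ∀ τ : C(ℕ∞, ℕ∞ × Bk), Loc (fun n => (τ n).2) →
    AdmP (fun n => (τ n).2) ∨ AdmG (fun n => (τ n).2) →
    (∀ n : ℕ, n % 4 < 2 → τ n ∈ U) → (∀ n : ℕ, 2 ≤ n % 4 → τ n ∈ V) → False

theorem good_of {U V : Set (ℕ∞ × YY)} (hU : IsOpen U) (hV : IsOpen V) (hd : Disjoint U V)
    (hL : SLT 2 (U ∪ V)ᶜ) :
    Good (Prod.map id (bs psiY) ⁻¹' U) (Prod.map id (bs psiY) ⁻¹' V) := by
  have hc : Continuous (Prod.map id (bs psiY) : ℕ∞ × Bk → ℕ∞ × YY) :=
    continuous_id.prodMap continuous_bs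
  refine ⟨hU.preimage hc, hV.preimage hc, hd.preimage _, fun m k => ?_, ?_⟩
  · have h1 : Continuous fun q : I × I => (m, bs psiY (pg k q)) :=
      continuous_const.prodMk (continuous_bs.comp (continuous_pg k))
    exact dense_sq (hL.pull (h1.isClosedEmbedding fun a b h =>
      injective_pg k (injective_bs (congrArg Prod.snd h))))
  · intro τ h1 h2 h3 h4
    let p : Adm := ⟨ContinuousMap.snd.comp τ, h1, h2⟩
    let W : ℕ → Set (ℕ∞ × YY) := fun n => if n % 4 < 2 then U else V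
    obtain ⟨α, hα⟩ := exists_good (ψ := psiY) p (fun n => (τ n).2)
      (fun n => Prod.mk (τ n).1 ⁻¹' W n) (fun n => by
        refine (Continuous.prodMk_right _).continuousAt ?_
        simp only [W]
        split_ifs with h
        · exact hU.mem_nhds (h3 n h)
        · exact hV.mem_nhds (h4 n (by omega)))
    let f : RR → ℕ∞ × YY := fun e => ((τ (rho e)).1, lv psiY (α, p) e)
    have hf : Continuous f :=
      (continuous_fst.comp (τ.continuous.comp rho.continuous)).prodMk (continuous_lv _)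
    have key : ∀ (n : ℕ) (e : RR), rho e = n → f e ∈ W n := by
      intro n e he
      have := hα n e (by simp [p, he])
      simpa [f, he] using this
    refine RR_low (hU.preimage hf) (hV.preimage hf) (hd.preimage f) (fun n e he h => ?_)
      (fun n e he h => ?_) (hL.pull (hf.isClosedEmbedding fun a b h =>
        injective_lv _ (congrArg Prod.snd h)))
    · have := key n e he
      rwa [show W n = U from if_pos h] at this
    · have := key n e he
      rwa [show W n = V from if_neg (not_lt.2 h)] at this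

namespace Good

variable {U V : Set (ℕ∞ × Bk)} (h : Good U V)
include h

omit h in
theorem cont (m : ℕ∞) (k : ℕ) : Continuous fun q : I × I => (m, pg k q) :=
  continuous_const.prodMk (continuous_pg k)

theorem opU (m : ℕ∞) (k : ℕ) : IsOpen (sl U m k) := h.hU.preimage (cont m k)

theorem opV (m : ℕ∞) (k : ℕ) : IsOpen (sl V m k) := h.hV.preimage (cont m k)

theorem dj (m : ℕ∞) (k : ℕ) : Disjoint (sl U m k) (sl V m k) := h.hd.preimage _

theorem conflict {m : ℕ∞} {k : ℕ} {u v : Fin 3} {q : I × I}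
    (hu : q ∈ Gam k (sl U m k) (sl V m k) u) (hv : q ∈ Gam k (sl U m k) (sl V m k) v)
    (huv : u ≠ v ∨ bar u q) : False := by
  obtain ⟨ox, oy, a1, a2, a3, a4⟩ := hu
  obtain ⟨ox', oy', b1, b2, b3, b4⟩ := hv
  obtain ⟨W, hW, hl⟩ := exists_loc k q
  let OX : Bool → Option Bool := fun c => cond c ox ox'
  let OY : Bool → Option Bool := fun c => cond c oy oy'
  obtain ⟨τ, t1, t2⟩ := exists_seq (x := q) (C := fun n =>
      ((if n % 4 < 2 then sl U m k else sl V m k) ∩ sec (OX (par n)) (OY (par n)) q) ∩ W)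
    (fun n => by
      rw [mem_closure_iff_frequently]
      refine Frequently.and_eventually (mem_closure_iff_frequently.1 ?_) hW
      cases par n <;> split_ifs <;> assumption)
  refine h.gad ⟨fun n => (m, pg k (τ n)), (cont m k).comp τ.continuous⟩ (hl τ fun n => ?_)
    (Or.inl ⟨k, τ, fun c => cond c u v, OX, OY, fun _ => rfl, fun c => ?_, fun n => ?_, ?_⟩)
    (fun n hn => ?_) (fun n hn => ?_)
  · induction n using ENat.recTopCoe with
    | top => exact t1 ▸ mem_of_mem_nhds hW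
    | coe n => exact (t2 n).2
  · rw [t1]
    cases c
    · exact ⟨b1, b2⟩
    · exact ⟨a1, a2⟩
  · rw [t1]
    exact (t2 n).1.2
  · rw [t1]
    exact huv
  · have := (t2 n).1.1
    rwa [if_pos hn] at this
  · have := (t2 n).1.1
    rwa [if_neg (by omega)] at this

theorem glue (m : ℕ∞) (x : I) (b : Bool)
    (h1 : ∃ᶠ z in 𝓝 (m, pg 0 (x, 0)), z ∈ U ∧ side (some b) x (xy z.2).1 ∧ z.2 ∈ Klow)
    (h2 : ∃ᶠ z in 𝓝 (m, pg 0 (x, 0)), z ∈ V ∧ side (some b) x (xy z.2).1 ∧ z.2 ∈ Klow) :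
    False := by
  obtain ⟨τ, t1, t2⟩ := exists_seq (x := (m, pg 0 (x, 0))) (C := fun n =>
      {z | z ∈ (if n % 4 < 2 then U else V) ∧ side (some b) x (xy z.2).1 ∧ z.2 ∈ Klow})
    (fun n => by
      rw [mem_closure_iff_frequently]
      split_ifs <;> assumption)
  refine h.gad τ (Or.inl fun n => ?_) (Or.inr ⟨x, b, by simp only [t1], fun n => (t2 n).2.1⟩)
    (fun n hn => ?_) (fun n hn => ?_)
  · induction n using ENat.recTopCoe with
    | top =>
      intro j
      simp only [t1, co_pg]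
      split_ifs <;> positivity
    | coe n => exact (t2 n).2.2
  · have := (t2 n).1
    rwa [if_pos hn] at this
  · have := (t2 n).1
    rwa [if_neg (by omega)] at this

omit h in
theorem klow (k : ℕ) {q : I × I} (hq : (q.2 : ℝ) < 1 / (k + 1)) : pg k q ∈ Klow := by
  intro j
  rw [co_pg]
  split_ifs with e
  · exact e ▸ hq.le
  · positivity

theorem bottom {m : ℕ∞} {k : ℕ} {u : Fin 3} {x : I}
    (hu : (x, 0) ∈ Gam k (sl U m k) (sl V m k) u) : lab k x = u := by
  obtain ⟨ox, oy, a1, -, a3, a4⟩ := hu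
  rcases ox with _ | b
  · exact a1 rfl
  exfalso
  have ev : ∀ᶠ q : I × I in 𝓝 (x, 0), (q.2 : ℝ) < 1 / (k + 1) :=
    (isOpen_lt (by fun_prop) continuous_const).mem_nhds (by simp; positivity)
  have ht : Tendsto (fun q : I × I => (m, pg k q)) (𝓝 (x, 0)) (𝓝 (m, pg 0 (x, 0))) := by
    rw [← pg_zero k]
    exact (cont m k).tendsto _
  rw [mem_closure_iff_frequently] at a3 a4
  exact h.glue m x b
    (ht.frequently ((a3.and_eventually ev).mono fun q hq => ⟨hq.1.1, hq.1.2.1, klow k hq.2⟩))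
    (ht.frequently ((a4.and_eventually ev).mono fun q hq => ⟨hq.1.1, hq.1.2.1, klow k hq.2⟩))

theorem agree : ∀ᶠ m : ℕ∞ × ℕ∞ in 𝓝 (⊤, ⊤), ∀ x : I, ∀ k,
    (x, 0) ∉ closure (sl V m.1 k) → (x, 0) ∉ closure (sl U m.2 k) → False := by
  have := isCompact_univ.eventually_forall_of_forall_eventually (x₀ := ((⊤ : ℕ∞), (⊤ : ℕ∞)))
    (P := fun m (x : I) => ∀ k,
      (x, 0) ∉ closure (sl V m.1 k) → (x, 0) ∉ closure (sl U m.2 k) → False) ?_
  · exact this.mono fun m hm x => hm x trivial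
  intro x _
  have key : ∀ b : Bool, ∃ O ∈ 𝓝 ((⊤ : ℕ∞), pg 0 (x, 0)), ∀ z ∈ O, ∀ z' ∈ O,
      (z ∈ U ∧ side (some b) x (xy z.2).1 ∧ z.2 ∈ Klow) →
      (z' ∈ V ∧ side (some b) x (xy z'.2).1 ∧ z'.2 ∈ Klow) → False := by
    intro b
    have := h.glue ⊤ x b
    rw [← not_and, not_and_or, not_frequently, not_frequently] at this
    rcases this with h | h
    · exact ⟨_, h, fun z hz _ _ a _ => hz a⟩
    · exact ⟨_, h, fun _ _ z hz _ a => hz a⟩
  choose O hO hO' using key
  obtain ⟨G, hG, N, hN, hsub⟩ := mem_nhds_prod_iff.1 (iInter_mem.2 hO)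
  obtain ⟨N', hN', hsub'⟩ := comap_xy x hN
  obtain ⟨N'', n1, n2, n3⟩ := mem_nhds_iff.1 hN'
  have c1 : Continuous fun z : (ℕ∞ × ℕ∞) × I => (z.2, (0 : I)) := by fun_prop
  filter_upwards [(continuous_fst.comp continuous_fst).continuousAt.eventually hG,
    (continuous_snd.comp continuous_fst).continuousAt.eventually hG,
    c1.continuousAt.eventually (n2.mem_nhds n3)] with z z1 z2 z3 k a1 a2
  have o1 : IsOpen ((closure (sl V z.1.1 k))ᶜ ∩ (closure (sl U z.1.2 k))ᶜ ∩ N'' ∩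
      {q : I × I | (q.2 : ℝ) < 1 / (k + 1)}) :=
    ((isClosed_closure.isOpen_compl.inter isClosed_closure.isOpen_compl).inter n2).inter
      (isOpen_lt (by fun_prop) continuous_const)
  obtain ⟨q, hq, q1, -⟩ := ((dense_compl_singleton x).prod dense_univ).inter_open_nonempty _ o1
    ⟨(z.2, 0), ⟨⟨a1, a2⟩, z3⟩, by simp; positivity⟩
  obtain ⟨b, hb⟩ := side_of_ne q1
  have o2 := o1.inter ((isOpen_side b x).preimage continuous_fst)
  obtain ⟨r, hr, r1⟩ := (h.den z.1.1 k).inter_open_nonempty _ o2 ⟨q, hq, hb⟩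
  obtain ⟨r', hr', r1'⟩ := (h.den z.1.2 k).inter_open_nonempty _ o2 ⟨q, hq, hb⟩
  refine hO' b (z.1.1, pg k r) (mem_iInter.1 (hsub (mk_mem_prod z1 (hsub' (a := pg k r) (n1 hr.1.1.2)))) b)
    (z.1.2, pg k r') (mem_iInter.1 (hsub (mk_mem_prod z2 (hsub' (a := pg k r') (n1 hr'.1.1.2)))) b)
    ⟨r1.resolve_right fun e => hr.1.1.1.1 (subset_closure e), hr.2, klow k hr.1.2⟩
    ⟨r1'.resolve_left fun e => hr'.1.1.1.2 (subset_closure e), hr'.2, klow k hr'.1.2⟩

theorem double {m m' : ℕ∞} {k : ℕ}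
    (hag : ∀ x : I, (x, 0) ∉ closure (sl V m k) → (x, 0) ∉ closure (sl U m' k) → False)
    (hag' : ∀ x : I, (x, 0) ∉ closure (sl V m' k) → (x, 0) ∉ closure (sl U m k) → False)
    (hl : ∀ m y, (0, y) ∈ sl U m k) (hr : ∀ m y, (1, y) ∈ sl V m k)
    (ht : ∀ x : I, (x : ℝ) ≤ 1 / 2 → (x, 1) ∈ sl U m k)
    (ht' : ∀ x : I, 1 / 2 ≤ (x : ℝ) → (x, 1) ∈ sl V m' k) : False := by
  let e : I × I → I × I := fun p => (p.1, projIcc 0 1 zero_le_one (2 * p.2 - 1))
  let e' : I × I → I × I := fun p => (p.1, projIcc 0 1 zero_le_one (1 - 2 * p.2))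
  have ce : Continuous e := continuous_fst.prodMk (continuous_projIcc.comp (by fun_prop))
  have ce' : Continuous e' := continuous_fst.prodMk (continuous_projIcc.comp (by fun_prop))
  let T : Set (I × I) := {p | 1 / 2 ≤ (p.2 : ℝ)}
  let T' : Set (I × I) := {p | (p.2 : ℝ) ≤ 1 / 2}
  have cT : IsClosed T := isClosed_le continuous_const (by fun_prop)
  have cT' : IsClosed T' := isClosed_le (by fun_prop) continuous_const
  have mid : ∀ p, p ∈ T → p ∈ T' → e p = (p.1, 0) ∧ e' p = (p.1, 0) := by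
    intro p h1 h2
    have : (p.2 : ℝ) = 1 / 2 := le_antisymm h2 h1
    simp [e, e', this]
  have tot : ∀ p, p ∈ T ∨ p ∈ T' := fun p => le_total (1 / 2 : ℝ) p.2
  let up : Fin 3 → Set (I × I) := fun w => T ∩ e ⁻¹' Gam k (sl U m k) (sl V m k) w
  let lo : Fin 3 → Set (I × I) := fun w => T' ∩ e' ⁻¹' Gam k (sl U m' k) (sl V m' k) w
  have cup : ∀ w, IsClosed (up w) := fun w => cT.inter ((isClosed_Gam _ _ _ _).preimage ce)
  have clo : ∀ w, IsClosed (lo w) := fun w => cT'.inter ((isClosed_Gam _ _ _ _).preimage ce')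
  have d1 : ∀ u v p, u ≠ v → p ∈ up u → p ∈ up v → False := fun u v p huv a b =>
    h.conflict a.2 b.2 (Or.inl huv)
  have d2 : ∀ u v p, u ≠ v → p ∈ lo u → p ∈ lo v → False := fun u v p huv a b =>
    h.conflict a.2 b.2 (Or.inl huv)
  have d3 : ∀ u v p, u ≠ v ∨ u = 2 → p ∈ up u → p ∈ lo v → False := by
    rintro u v p huv ⟨a1, a2⟩ ⟨b1, b2⟩
    obtain ⟨m1, m2⟩ := mid p a1 b1
    rw [mem_preimage, m1] at a2
    rw [mem_preimage, m2] at b2
    rcases huv with huv | huv
    · exact huv ((h.bottom a2).symm.trans (h.bottom b2))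
    · exact h.conflict a2 a2 (Or.inr (Or.inl ⟨huv, rfl⟩))
  have nU : ∀ m q, q ∈ sl U m k → q ∉ closure (sl V m k) := fun m q hq =>
    disjoint_left.1 ((h.dj m k).closure_right (h.opU m k)) hq
  have nV : ∀ m q, q ∈ sl V m k → q ∉ closure (sl U m k) := fun m q hq =>
    disjoint_right.1 ((h.dj m k).closure_left (h.opV m k)) hq
  have both : ∀ m q, q ∉ closure (sl V m k) → q ∉ closure (sl U m k) → False := by
    intro m q h1 h2
    have := h.den m k q
    rw [closure_union] at this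
    exact this.elim h2 h1
  refine sep (U := (T ∩ e ⁻¹' closure (sl V m k) ∪ T' ∩ e' ⁻¹' closure (sl V m' k))ᶜ)
    (V := (T ∩ e ⁻¹' closure (sl U m k) ∪ T' ∩ e' ⁻¹' closure (sl U m' k))ᶜ)
    (Lm := up 0 ∪ lo 0 ∪ lo 2) (Lp := up 1 ∪ lo 1 ∪ up 2)
    ((cT.inter (isClosed_closure.preimage ce)).union
      (cT'.inter (isClosed_closure.preimage ce'))).isOpen_compl
    ((cT.inter (isClosed_closure.preimage ce)).union
      (cT'.inter (isClosed_closure.preimage ce'))).isOpen_compl ?_ ?_ ?_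
    (((cup _).union (clo _)).union (clo _)) (((cup _).union (clo _)).union (cup _)) ?_ ?_ ?_ ?_
  · rw [disjoint_left]
    intro p h1 h2
    rcases tot p with t | t
    · exact both m (e p) (fun a => h1 (Or.inl ⟨t, a⟩)) (fun a => h2 (Or.inl ⟨t, a⟩))
    · exact both m' (e' p) (fun a => h1 (Or.inr ⟨t, a⟩)) (fun a => h2 (Or.inr ⟨t, a⟩))
  · rintro y (a | a)
    · exact nU _ _ (hl _ _) a.2
    · exact nU _ _ (hl _ _) a.2
  · rintro y (a | a)
    · exact nV _ _ (hr _ _) a.2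
    · exact nV _ _ (hr _ _) a.2
  · rw [disjoint_left]
    rintro p ((a | a) | a) ((b | b) | b)
    · exact d1 _ _ _ (by decide) a b
    · exact d3 _ _ _ (by decide) a b
    · exact d1 _ _ _ (by decide) a b
    · exact d3 _ _ _ (by decide) b a
    · exact d2 _ _ _ (by decide) a b
    · exact d3 _ _ _ (by decide) b a
    · exact d3 _ _ _ (by decide) b a
    · exact d2 _ _ _ (by decide) a b
    · exact d3 _ _ _ (by decide) b a
  · intro p h1 h2
    have k1 : p ∈ T → e p ∈ closure (sl U m k) → e p ∈ closure (sl V m k) →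
        p ∈ up 0 ∪ lo 0 ∪ lo 2 ∨ p ∈ up 1 ∪ lo 1 ∪ up 2 := by
      intro t a b
      obtain ⟨w, hw⟩ := cover_Gam k (h.opU m k) (h.opV m k) (h.den m k) a b
      have : p ∈ up w := ⟨t, hw⟩
      fin_cases w
      · exact Or.inl (Or.inl (Or.inl this))
      · exact Or.inr (Or.inl (Or.inl this))
      · exact Or.inr (Or.inr this)
    have k2 : p ∈ T' → e' p ∈ closure (sl U m' k) → e' p ∈ closure (sl V m' k) →
        p ∈ up 0 ∪ lo 0 ∪ lo 2 ∨ p ∈ up 1 ∪ lo 1 ∪ up 2 := by
      intro t a b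
      obtain ⟨w, hw⟩ := cover_Gam k (h.opU m' k) (h.opV m' k) (h.den m' k) a b
      have : p ∈ lo w := ⟨t, hw⟩
      fin_cases w
      · exact Or.inl (Or.inl (Or.inr this))
      · exact Or.inr (Or.inl (Or.inr this))
      · exact Or.inl (Or.inr this)
    rcases not_not.1 h1 with ⟨t, a⟩ | ⟨t, a⟩ <;> rcases not_not.1 h2 with ⟨t', b⟩ | ⟨t', b⟩
    · exact k1 t b a
    · obtain ⟨m1, m2⟩ := mid p t t'
      by_cases c : e p ∈ closure (sl U m k)
      · exact k1 t c a
      by_cases c' : e' p ∈ closure (sl V m' k)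
      · exact k2 t' b c'
      exact (hag' p.1 (m2 ▸ c') (m1 ▸ c)).elim
    · obtain ⟨m1, m2⟩ := mid p t' t
      by_cases c : e p ∈ closure (sl V m k)
      · exact k1 t' b c
      by_cases c' : e' p ∈ closure (sl U m' k)
      · exact k2 t c' a
      exact (hag p.1 (m1 ▸ c) (m2 ▸ c')).elim
    · exact k2 t b a
  · have e1 : ∀ x, e (x, 1) = (x, 1) := fun x => by norm_num [e]
    have n1 : ∀ x, (x, 1) ∉ T' := fun x => by norm_num [T']
    rintro x ((a | a) | a)
    · have a2 := a.2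
      rw [mem_preimage, e1] at a2
      rcases le_or_gt (x : ℝ) (1 / 2) with c | c
      · obtain ⟨_, _, -, -, -, a3⟩ := a2
        exact nU _ _ (ht x c) (closure_mono inter_subset_left a3)
      · exact h.conflict a2 a2 (Or.inr (Or.inr ⟨rfl, Or.inr ⟨rfl, c⟩⟩))
    · exact n1 x a.1
    · exact n1 x a.1
  · have e1 : ∀ x, e' (x, 0) = (x, 1) := fun x => by norm_num [e']
    have n1 : ∀ x, (x, 0) ∉ T := fun x => by norm_num [T]
    rintro x ((a | a) | a)
    · exact n1 x a.1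
    · have a2 := a.2
      rw [mem_preimage, e1] at a2
      rcases le_or_gt (1 / 2) (x : ℝ) with c | c
      · obtain ⟨_, _, -, -, a3, -⟩ := a2
        exact nV _ _ (ht' x c) (closure_mono inter_subset_left a3)
      · exact h.conflict a2 a2 (Or.inr (Or.inr ⟨rfl, Or.inl ⟨rfl, c⟩⟩))
    · exact n1 x a.1

end Good

theorem locFin : LocallyFinite fun k : ℕ => {s : Bk | s.1.1 k = 1} := by
  intro s
  obtain ⟨k, hk⟩ := exists_pg s
  by_cases hs : (xy s).2 = 1
  · refine ⟨{s : Bk | 0 < s.1.1 k}, hk ▸ pos_nhds k (by simp [hs]), (finite_singleton k).subset ?_⟩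
    rintro j ⟨t, h1, h2⟩
    obtain ⟨q, rfl⟩ := mem_range_pg h2
    simp only [mem_setOf_eq, co_pg] at h1
    split_ifs at h1 with e
    · exact e
    · exact (zero_ne_one h1).elim
  · refine ⟨{s | ((xy s).2 : ℝ) < 1}, (isOpen_lt (continuous_subtype_val.comp
      (continuous_snd.comp continuous_xy)) continuous_const).mem_nhds
      (unitInterval.coe_lt_one.2 (unitInterval.lt_one_iff_ne_one.2 hs)), finite_empty.subset ?_⟩
    rintro j ⟨t, h1, h2⟩
    obtain ⟨k', hk'⟩ := exists_pg t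
    rw [hk'] at h1
    simp only [mem_setOf_eq, co_pg] at h1 h2
    split_ifs at h1 with e
    · exact h2.ne h1
    · exact zero_ne_one h1

theorem isClosed_top (f : ℕ → ℕ∞) {S : Set ℝ} (hS : IsClosed S) :
    IsClosed (⋃ k, {z : ℕ∞ × Bk | z.1 = f k ∧ z.2.1.1 k = 1 ∧ ((xy z.2).1 : ℝ) ∈ S}) := by
  refine LocallyFinite.isClosed_iUnion
    ((locFin.preimage_continuous continuous_snd).subset fun k z hz => hz.2.1) fun k => ?_
  exact (isClosed_eq continuous_fst continuous_const).and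
    ((isClosed_eq ((continuous_co k).comp continuous_snd) continuous_const).and
      (hS.preimage (continuous_subtype_val.comp
        (continuous_fst.comp (continuous_xy.comp continuous_snd)))))

theorem not_SLT_prod : ¬ SLT 3 (univ : Set (ℕ∞ × YY)) := by
  intro h
  let A : Set (ℕ∞ × Bk) := {z | (xy z.2).1 = 0} ∪ ⋃ k : ℕ,
    {z : ℕ∞ × Bk | z.1 = (2 * k : ℕ) ∧ z.2.1.1 k = 1 ∧ ((xy z.2).1 : ℝ) ∈ Iic (1 / 2)}
  let C : Set (ℕ∞ × Bk) := {z | (xy z.2).1 = 1} ∪ ⋃ k : ℕ,
    {z : ℕ∞ × Bk | z.1 = (2 * k + 1 : ℕ) ∧ z.2.1.1 k = 1 ∧ ((xy z.2).1 : ℝ) ∈ Ici (1 / 2)}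
  have cx : Continuous fun z : ℕ∞ × Bk => (xy z.2).1 :=
    continuous_fst.comp (continuous_xy.comp continuous_snd)
  have hA : IsClosed A := (isClosed_eq cx continuous_const).union (isClosed_top _ isClosed_Iic)
  have hC : IsClosed C := (isClosed_eq cx continuous_const).union (isClosed_top _ isClosed_Ici)
  have hAC : Disjoint A C := by
    rw [disjoint_left]
    rintro z (a | a) (b | b)
    · exact zero_ne_one (α := I) (a.symm.trans b)
    · obtain ⟨k, -, -, b⟩ := mem_iUnion.1 b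
      rw [show (xy z.2).1 = 0 from a] at b
      norm_num at b
    · obtain ⟨k, -, -, a⟩ := mem_iUnion.1 a
      rw [show (xy z.2).1 = 1 from b] at a
      norm_num at a
    · obtain ⟨k, a, -⟩ := mem_iUnion.1 a
      obtain ⟨k', b, -⟩ := mem_iUnion.1 b
      have : 2 * k = 2 * k' + 1 := by exact_mod_cast a.symm.trans b
      omega
  have hc : Continuous (Prod.map id rt : ℕ∞ × YY → ℕ∞ × Bk) := continuous_id.prodMap continuous_rt
  obtain ⟨U, V, hU, hV, h1, h2, hd, hL⟩ := h _ _ (hA.preimage hc) (hC.preimage hc) (subset_univ _)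
    (subset_univ _) (hAC.preimage _)
  have hG := good_of hU hV (by simpa using hd) (hL.mono fun z hz => ⟨trivial, hz⟩)
  have t1 : Tendsto (fun k : ℕ => ((2 * k : ℕ) : ℕ∞)) atTop (𝓝 ⊤) :=
    ENat.tendsto_natCast_nhds_top.comp (tendsto_atTop_mono (fun k => by simp; omega) tendsto_id)
  have t2 : Tendsto (fun k : ℕ => ((2 * k + 1 : ℕ) : ℕ∞)) atTop (𝓝 ⊤) :=
    ENat.tendsto_natCast_nhds_top.comp (tendsto_atTop_mono (fun k => by simp; omega) tendsto_id)
  obtain ⟨k, k1, k2⟩ := (((t1.prodMk_nhds t2).eventually hG.agree).and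
    ((t2.prodMk_nhds t1).eventually hG.agree)).exists
  refine hG.double (fun x => k1 x k) (fun x => k2 x k) (fun m y => h1 (Or.inl rfl))
    (fun m y => h2 (Or.inl rfl)) (fun x hx => h1 (Or.inr (mem_iUnion.2 ⟨k, rfl, ?_, hx⟩)))
    (fun x hx => h2 (Or.inr (mem_iUnion.2 ⟨k, rfl, ?_, hx⟩))) <;> simp [co_pg]

end Pool.Agent.Lib.MP_840f9c_gt
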