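import Pool.Agent.Lib.MP_840f9c_gt.SLT

namespace Pool.Agent.Lib.MP_840f9c_gt

open Set Topology Filter unitInterval

variable {X Y : Type} [TopologicalSpace X] [TopologicalSpace Y]

theorem cut_real {L : Set ℝ} (hL : Dense L) {A B : Set ℝ} (hA : IsCompact A) (hB : IsClosed B)
    (hAB : Disjoint A B) :
    ∃ U V : Set ℝ, IsOpen U ∧ IsOpen V ∧ A ⊆ U ∧ B ⊆ V ∧ Disjoint U V ∧ (U ∪ V)ᶜ ⊆ L := by
  have key : ∃ W : Set ℝ, IsOpen W ∧ A ⊆ W ∧ Disjoint (closure W) B ∧ frontier W ⊆ L := by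
    refine hA.induction_on (p := fun K => ∃ W : Set ℝ, IsOpen W ∧ K ⊆ W ∧
      Disjoint (closure W) B ∧ frontier W ⊆ L) ⟨∅, isOpen_empty, subset_rfl, by simp, by simp⟩
      ?_ ?_ ?_
    · rintro s t hst ⟨W, h1, h2, h3, h4⟩
      exact ⟨W, h1, hst.trans h2, h3, h4⟩
    · rintro s t ⟨W, h1, h2, h3, h4⟩ ⟨W', h1', h2', h3', h4'⟩
      refine ⟨W ∪ W', h1.union h1', union_subset_union h2 h2', ?_, ?_⟩
      · rw [closure_union]
        exact h3.union_left h3'
      · refine (frontier_union_subset _ _).trans ?_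
        rintro x (hx | hx)
        · exact h4 hx.1
        · exact h4' hx.2
    · intro a ha
      have haB : Bᶜ ∈ 𝓝 a := hB.isOpen_compl.mem_nhds (disjoint_left.1 hAB ha)
      obtain ⟨l, u, ⟨hl, hu⟩, hsub⟩ := mem_nhds_iff_exists_Ioo_subset.1 haB
      obtain ⟨l', hl'L, hl'⟩ := hL.exists_between hl
      obtain ⟨u', hu'L, hu'⟩ := hL.exists_between hu
      have hlu : l' < u' := hl'.2.trans hu'.1
      refine ⟨Ioo l' u', mem_nhdsWithin_of_mem_nhds (Ioo_mem_nhds hl'.2 hu'.1), Ioo l' u',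
        isOpen_Ioo, subset_rfl, ?_, ?_⟩
      · rw [closure_Ioo hlu.ne, disjoint_left]
        intro x hx
        exact hsub ⟨hl'.1.trans_le hx.1, hx.2.trans_lt hu'.2⟩
      · rw [frontier_Ioo hlu]
        rintro x (rfl | rfl) <;> assumption
  obtain ⟨W, h1, h2, h3, h4⟩ := key
  refine ⟨W, (closure W)ᶜ, h1, isClosed_closure.isOpen_compl, h2,
    h3.symm.subset_compl_right, disjoint_compl_right_iff_subset.2 subset_closure, ?_⟩
  intro x hx
  apply h4
  rw [h1.frontier_eq]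
  simp only [mem_compl_iff, mem_union, not_or, not_not] at hx
  exact ⟨hx.2, hx.1⟩

theorem cut_I {L : Set ℝ} (hL : Dense L) {A B : Set I} (hA : IsClosed A) (hB : IsClosed B)
    (hAB : Disjoint A B) :
    ∃ U V : Set I, IsOpen U ∧ IsOpen V ∧ A ⊆ U ∧ B ⊆ V ∧ Disjoint U V ∧
      ∀ x : I, x ∉ U ∪ V → (x : ℝ) ∈ L := by
  obtain ⟨U, V, hU, hV, hAU, hBV, hd, hc⟩ := cut_real hL (A := Subtype.val '' A)
    (B := Subtype.val '' B) (hA.isCompact.image continuous_subtype_val)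
    (hB.isCompact.image continuous_subtype_val).isClosed
    ((disjoint_image_iff Subtype.val_injective).2 hAB)
  exact ⟨Subtype.val ⁻¹' U, Subtype.val ⁻¹' V, hU.preimage continuous_subtype_val,
    hV.preimage continuous_subtype_val, image_subset_iff.1 hAU, image_subset_iff.1 hBV,
    hd.preimage _, fun x hx => hc hx⟩

theorem SLT_one_I {L : Set ℝ} (hL : Dense L) {S : Set I} (hS : ∀ x ∈ S, (x : ℝ) ∉ L) :
    SLT 1 S := by
  intro A B hA hB _ _ hAB
  obtain ⟨U, V, hU, hV, hAU, hBV, hd, hc⟩ := cut_I hL hA hB hAB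
  refine ⟨U, V, hU, hV, hAU, hBV, hd.mono_left inter_subset_right, ?_⟩
  simp only [SLT]
  exact eq_empty_of_forall_notMem fun x hx => hS x hx.1 (hc x hx.2)

theorem sum0_step [NormalSpace X] {C D Q : Set X} (hC : IsClosed C) (hD : IsClosed D)
    (hCD : Disjoint C D) (hQ : IsClosed Q) (h : SLT 1 Q) :
    ∃ U V : Set X, IsOpen U ∧ IsOpen V ∧ Disjoint (closure U) (closure V) ∧ C ⊆ U ∧ D ⊆ V ∧
      Q ⊆ U ∪ V := by
  obtain ⟨U0, V0, hU0, hV0, h1, h2, hd, hL⟩ := h (Q ∩ C) (Q ∩ D) (hQ.inter hC) (hQ.inter hD)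
    inter_subset_left inter_subset_left (hCD.mono inter_subset_right inter_subset_right)
  simp only [SLT] at hL
  have hcov : Q ⊆ U0 ∪ V0 := sdiff_eq_empty.1 hL
  have hC' : IsClosed (C ∪ (Q \ V0)) := hC.union (hQ.sdiff hV0)
  have hD' : IsClosed (D ∪ (Q \ U0)) := hD.union (hQ.sdiff hU0)
  have hsub : C ∪ (Q \ V0) ⊆ (D ∪ (Q \ U0))ᶜ := by
    rintro x (hx | hx) (hy | hy)
    · exact disjoint_left.1 hCD hx hy
    · exact hy.2 (h1 ⟨hy.1, hx⟩)
    · exact hx.2 (h2 ⟨hx.1, hy⟩)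
    · exact (hcov hx.1).elim hy.2 hx.2
  obtain ⟨U, hU, hU1, hU2⟩ := normal_exists_closure_subset hC' hD'.isOpen_compl hsub
  obtain ⟨V, hV, hV1, hV2⟩ := normal_exists_closure_subset hD' isClosed_closure.isOpen_compl
    (subset_compl_comm.1 hU2)
  refine ⟨U, V, hU, hV, (disjoint_left.2 hV2).symm, subset_union_left.trans hU1,
    subset_union_left.trans hV1, ?_⟩
  intro x hx
  by_cases hxV : x ∈ V0
  · right
    exact hV1 (Or.inr ⟨hx, fun hxU => disjoint_left.1 hd ⟨hx, hxU⟩ hxV⟩)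
  · left
    exact hU1 (Or.inr ⟨hx, hxV⟩)

theorem sum0_nat [NormalSpace X] {Q : ℕ → Set X} (hQ : ∀ i, IsClosed (Q i))
    (h : ∀ i, SLT 1 (Q i)) : SLT 1 (⋃ i, Q i) := by
  intro A B hA hB _ _ hAB
  let St := {p : Set X × Set X // IsOpen p.1 ∧ IsOpen p.2 ∧ Disjoint (closure p.1) (closure p.2)}
  have step : ∀ (i : ℕ) (s : St), ∃ s' : St, s.1.1 ⊆ s'.1.1 ∧ s.1.2 ⊆ s'.1.2 ∧
      Q i ⊆ s'.1.1 ∪ s'.1.2 := by
    intro i s
    obtain ⟨U, V, hU, hV, hd, h1, h2, h3⟩ := sum0_step isClosed_closure isClosed_closure s.2.2.2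
      (hQ i) (h i)
    exact ⟨⟨(U, V), hU, hV, hd⟩, subset_closure.trans h1, subset_closure.trans h2, h3⟩
  choose g hg1 hg2 hg3 using step
  obtain ⟨U0, V0, hU0, hV0, hd0, h1, h2, -⟩ := sum0_step hA hB hAB isClosed_empty (SLT.empty 1)
  let f : ℕ → St := fun n => Nat.rec ⟨(U0, V0), hU0, hV0, hd0⟩ g n
  have hf : ∀ n, f (n + 1) = g n (f n) := fun n => rfl
  have m1 : Monotone fun n => (f n).1.1 := monotone_nat_of_le_succ fun n => hg1 n (f n)
  have m2 : Monotone fun n => (f n).1.2 := monotone_nat_of_le_succ fun n => hg2 n (f n)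
  refine ⟨⋃ n, (f n).1.1, ⋃ n, (f n).1.2, isOpen_iUnion fun n => (f n).2.1,
    isOpen_iUnion fun n => (f n).2.2.1, h1.trans (subset_iUnion (fun n => (f n).1.1) 0),
    h2.trans (subset_iUnion (fun n => (f n).1.2) 0), ?_, ?_⟩
  · rw [disjoint_left]
    rintro x ⟨-, hx⟩ hy
    obtain ⟨n, hn⟩ := mem_iUnion.1 hx
    obtain ⟨m, hm⟩ := mem_iUnion.1 hy
    exact disjoint_left.1 (f (max n m)).2.2.2 (subset_closure (m1 (le_max_left n m) hn))
      (subset_closure (m2 (le_max_right n m) hm))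
  · simp only [SLT]
    refine eq_empty_of_forall_notMem ?_
    rintro x ⟨hx, hx'⟩
    obtain ⟨i, hi⟩ := mem_iUnion.1 hx
    rcases hg3 i (f i) hi with h' | h'
    · exact hx' (Or.inl (mem_iUnion.2 ⟨i + 1, h'⟩))
    · exact hx' (Or.inr (mem_iUnion.2 ⟨i + 1, h'⟩))

theorem sum0 [NormalSpace X] {ι : Type} [Countable ι] {Q : ι → Set X} (hQ : ∀ i, IsClosed (Q i))
    (h : ∀ i, SLT 1 (Q i)) : SLT 1 (⋃ i, Q i) := by
  rcases isEmpty_or_nonempty ι with hι | hι
  · simpa using SLT.empty 1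
  · obtain ⟨e, he⟩ := exists_surjective_nat ι
    rw [← he.iUnion_comp Q]
    exact sum0_nat (fun i => hQ _) (fun i => h _)

theorem arcs [NormalSpace X] [T2Space X] {ι : Type} [Countable ι] (γ : ι → I → X)
    (hc : ∀ i, Continuous (γ i)) (hi : ∀ i, Function.Injective (γ i)) :
    SLT 2 (⋃ i, range (γ i)) := by
  intro A B hA hB _ _ hAB
  obtain ⟨f, hf0, hf1, -⟩ := exists_continuous_zero_one_of_isClosed hA hB hAB
  let C : Set ℝ := ⋃ i, (fun x : I => f (γ i x)) '' {x : I | (x : ℝ) ∈ range ((↑) : ℚ → ℝ)}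
  have hC : C.Countable := by
    refine countable_iUnion fun i => Countable.image ?_ _
    exact (countable_range ((↑) : ℚ → ℝ)).preimage Subtype.val_injective
  obtain ⟨t, htC, ht⟩ := hC.dense_compl ℝ |>.exists_between (zero_lt_one' ℝ)
  refine ⟨{x | f x < t}, {x | t < f x}, isOpen_lt f.continuous continuous_const,
    isOpen_lt continuous_const f.continuous, ?_, ?_, ?_, ?_⟩
  · intro x hx
    simpa [hf0 hx] using ht.1
  · intro x hx
    simpa [hf1 hx] using ht.2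
  · rw [disjoint_left]
    rintro x ⟨-, hx⟩ hy
    exact lt_asymm (show f x < t from hx) (show t < f x from hy)
  · have hemb : ∀ i, IsClosedEmbedding (γ i) := fun i => (hc i).isClosedEmbedding (hi i)
    have := sum0 (Q := fun i => γ i '' {x | f (γ i x) = t})
      (fun i => (hemb i).isClosedMap _ (isClosed_eq (f.continuous.comp (hc i)) continuous_const))
      (fun i => SLT.image (hemb i).isEmbedding (SLT_one_I Rat.denseRange_cast (fun x hx hxq =>
        htC (mem_iUnion.2 ⟨i, x, hxq, hx⟩))))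
    refine this.mono ?_
    rintro x ⟨hx, hx'⟩
    obtain ⟨i, y, rfl⟩ := mem_iUnion.1 hx
    refine mem_iUnion.2 ⟨i, y, ?_, rfl⟩
    simp only [mem_union, mem_setOf_eq, not_or, not_lt] at hx'
    exact le_antisymm hx'.2 hx'.1

theorem mem_nhds_top {s : Set ℕ∞} : s ∈ 𝓝 (⊤ : ℕ∞) ↔ ⊤ ∈ s ∧ ∀ᶠ n : ℕ in atTop, (n : ℕ∞) ∈ s := by
  constructor
  · exact fun h => ⟨mem_of_mem_nhds h, ENat.tendsto_natCast_nhds_top h⟩
  · rintro ⟨h1, h2⟩
    obtain ⟨N, hN⟩ := eventually_atTop.1 h2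
    refine mem_of_superset (Ioi_mem_nhds (a := (N : ℕ∞)) (ENat.coe_lt_top N)) ?_
    intro x hx
    induction x using ENat.recTopCoe with
    | top => exact h1
    | coe n => exact hN n (by exact_mod_cast (le_of_lt (mem_Ioi.1 hx)))

theorem continuous_enat {f : ℕ∞ → X} (h : Tendsto (fun n : ℕ => f n) atTop (𝓝 (f ⊤))) :
    Continuous f := by
  rw [continuous_iff_continuousAt]
  intro x
  induction x using ENat.recTopCoe with
  | top =>
    intro s hs
    exact mem_nhds_top.2 ⟨mem_of_mem_nhds (x := f ⊤) (s := s) hs, h hs⟩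
  | coe n =>
    rw [ContinuousAt, ENat.nhds_natCast]
    exact tendsto_pure_nhds f _

theorem exists_seq [FirstCountableTopology X] {x : X} {C : ℕ → Set X}
    (h : ∀ n, x ∈ closure (C n)) : ∃ τ : C(ℕ∞, X), τ ⊤ = x ∧ ∀ n : ℕ, τ n ∈ C n := by
  obtain ⟨b, hb⟩ := (𝓝 x).exists_antitone_basis
  have : ∀ n, ∃ y, y ∈ b n ∧ y ∈ C n := fun n => mem_closure_iff_nhds.1 (h n) _ (hb.mem n)
  choose u hu1 hu2 using this
  have ht : Tendsto u atTop (𝓝 x) := hb.tendsto hu1
  let τ : ℕ∞ → X := fun k => ENat.recTopCoe x u k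
  exact ⟨⟨τ, continuous_enat ht⟩, rfl, hu2⟩

theorem isOpen_fam {W : ℕ∞ → Set X} (hW : ∀ k, IsOpen (W k)) (he : ∀ᶠ k in 𝓝 ⊤, W k = W ⊤) :
    IsOpen {p : ℕ∞ × X | p.2 ∈ W p.1} := by
  rw [isOpen_iff_mem_nhds]
  rintro ⟨k, x⟩ hx
  have h1 : ∀ᶠ k' in 𝓝 k, W k' = W k := by
    induction k using ENat.recTopCoe with
    | top => exact he
    | coe n => simp [ENat.nhds_natCast]
  filter_upwards [prod_mem_nhds h1 ((hW k).mem_nhds hx)] with p hp
  have h2 : W p.1 = W k := hp.1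
  show p.2 ∈ W p.1
  rw [h2]
  exact hp.2

theorem SLT_fam [CompactSpace X] : ∀ {n : ℕ} {S : ℕ∞ → Set X}, (∀ᶠ k in 𝓝 ⊤, S k = S ⊤) →
    (∀ k, SLT n (S k)) → SLT n {p : ℕ∞ × X | p.2 ∈ S p.1}
  | 0, S, _, h => by
      simp only [SLT] at h ⊢
      simp [h]
  | n + 1, S, he, h => by
      intro A B hA hB hAS hBS hAB
      have hc : ∀ k : ℕ∞, Continuous (Prod.mk k : X → ℕ∞ × X) := fun k => Continuous.prodMk_right k
      have := fun k => h k (Prod.mk k ⁻¹' A) (Prod.mk k ⁻¹' B) (hA.preimage (hc k))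
        (hB.preimage (hc k)) (fun x hx => hAS hx) (fun x hx => hBS hx) (hAB.preimage _)
      choose U V hU hV hAU hBV hd hL using this
      have ev : ∀ (C : Set (ℕ∞ × X)) (W : Set X), IsClosed C → IsOpen W → Prod.mk ⊤ ⁻¹' C ⊆ W →
          ∀ᶠ k in 𝓝 (⊤ : ℕ∞), Prod.mk k ⁻¹' C ⊆ W := by
        intro C W hC hW hCW
        have := isCompact_univ.eventually_forall_of_forall_eventually (x₀ := (⊤ : ℕ∞))
          (P := fun k y => (k, y) ∈ C → y ∈ W) (by
            intro y _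
            by_cases hy : y ∈ W
            · have : ∀ᶠ z : ℕ∞ × X in 𝓝 (⊤, y), z.2 ∈ W :=
                continuous_snd.continuousAt.eventually (hW.mem_nhds hy)
              exact this.mono fun z hz _ => hz
            · have : ∀ᶠ z : ℕ∞ × X in 𝓝 (⊤, y), z ∈ Cᶜ :=
                hC.isOpen_compl.mem_nhds (fun h => hy (hCW h))
              exact this.mono fun z hz h => (hz h).elim)
        exact this.mono fun k hk y hy => hk y trivial hy
      classical
      let G : ℕ∞ → Prop := fun k => S k = S ⊤ ∧ Prod.mk k ⁻¹' A ⊆ U ⊤ ∧ Prod.mk k ⁻¹' B ⊆ V ⊤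
      have hG : ∀ᶠ k in 𝓝 ⊤, G k := he.and ((ev A _ hA (hU ⊤) (hAU ⊤)).and
        (ev B _ hB (hV ⊤) (hBV ⊤)))
      let e : ℕ∞ → ℕ∞ := fun k => if G k then ⊤ else k
      have heq : ∀ᶠ k in 𝓝 ⊤, e k = e ⊤ := hG.mono fun k hk => by simp [e, hk]
      have hS : ∀ k, S (e k) = S k := by
        intro k
        by_cases hk : G k
        · simp only [e, if_pos hk]
          exact hk.1.symm
        · simp only [e, if_neg hk]
      refine ⟨{p | p.2 ∈ U (e p.1)}, {p | p.2 ∈ V (e p.1)},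
        isOpen_fam (W := fun k => U (e k)) (fun k => hU _) (heq.mono fun k hk => by rw [hk]),
        isOpen_fam (W := fun k => V (e k)) (fun k => hV _) (heq.mono fun k hk => by rw [hk]),
        ?_, ?_, ?_, ?_⟩
      · rintro ⟨k, x⟩ hx
        by_cases hk : G k
        · simp only [e, mem_setOf_eq, if_pos hk]
          exact hk.2.1 hx
        · simp only [e, mem_setOf_eq, if_neg hk]
          exact hAU k hx
      · rintro ⟨k, x⟩ hx
        by_cases hk : G k
        · simp only [e, mem_setOf_eq, if_pos hk]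
          exact hk.2.2 hx
        · simp only [e, mem_setOf_eq, if_neg hk]
          exact hBV k hx
      · rw [disjoint_left]
        rintro ⟨k, x⟩ ⟨h1, h2⟩ h3
        refine disjoint_left.1 (hd (e k)) ⟨?_, h2⟩ h3
        rw [hS]
        exact h1
      · have := SLT_fam (S := fun k => S (e k) \ (U (e k) ∪ V (e k)))
          (heq.mono fun k hk => by rw [hk]) (fun k => hL _)
        refine this.mono ?_
        rintro ⟨k, x⟩ ⟨h1, h2⟩
        refine ⟨?_, h2⟩
        rw [hS]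
        exact h1

theorem SLT_prod [CompactSpace X] {n : ℕ} (h : SLT n (univ : Set X)) :
    SLT n (univ : Set (ℕ∞ × X)) := by
  simpa using SLT_fam (S := fun _ => (univ : Set X)) (by simp) (fun _ => h)

theorem SLT_two_I : SLT 2 (univ : Set I) := by
  simpa [iUnion_const] using arcs (ι := Unit) (fun _ => (id : I → I)) (fun _ => continuous_id)
    (fun _ => Function.injective_id)

end Pool.Agent.Lib.MP_840f9c_gt
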