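import Pool.Agent.Lib.MP_840f9c_gt.Defs

namespace Pool.Agent.Lib.MP_840f9c_gt

open Set Topology Filter

/-- Set-level partition form of the large inductive dimension. -/
def SLT {X : Type} [TopologicalSpace X] : ℕ → Set X → Prop
  | 0, S => S = ∅
  | n + 1, S => ∀ A B : Set X, IsClosed A → IsClosed B → A ⊆ S → B ⊆ S → Disjoint A B →
      ∃ U V : Set X, IsOpen U ∧ IsOpen V ∧ A ⊆ U ∧ B ⊆ V ∧ Disjoint (S ∩ U) V ∧
        SLT n (S \ (U ∪ V))

variable {X Y : Type} [TopologicalSpace X] [TopologicalSpace Y]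

theorem SLT.mono : ∀ {n : ℕ} {S T : Set X}, SLT n S → T ⊆ S → SLT n T
  | 0, S, T, h, hT => by
      simp only [SLT] at h ⊢
      exact subset_eq_empty hT h
  | n + 1, S, T, h, hT => by
      intro A B hA hB hAT hBT hAB
      obtain ⟨U, V, hU, hV, hAU, hBV, hd, hL⟩ := h A B hA hB (hAT.trans hT) (hBT.trans hT) hAB
      exact ⟨U, V, hU, hV, hAU, hBV, hd.mono_left (inter_subset_inter_left _ hT),
        hL.mono (diff_subset_diff_left hT)⟩

theorem SLT.empty : ∀ n : ℕ, SLT n (∅ : Set X)
  | 0 => rfl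
  | n + 1 => by
      intro A B _ _ hA hB _
      exact ⟨univ, univ, isOpen_univ, isOpen_univ, subset_univ _, subset_univ _, by simp,
        by simpa using SLT.empty n⟩

theorem SLT.pull {f : X → Y} (hf : IsClosedEmbedding f) :
    ∀ {n : ℕ} {S : Set Y}, SLT n S → SLT n (f ⁻¹' S)
  | 0, S, h => by
      simp only [SLT] at h ⊢
      simp [h]
  | n + 1, S, h => by
      intro A B hA hB hAS hBS hAB
      obtain ⟨U, V, hU, hV, hAU, hBV, hd, hL⟩ := h (f '' A) (f '' B) (hf.isClosedMap _ hA)
        (hf.isClosedMap _ hB) (image_subset_iff.2 hAS) (image_subset_iff.2 hBS)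
        ((disjoint_image_iff hf.injective).2 hAB)
      refine ⟨f ⁻¹' U, f ⁻¹' V, hU.preimage hf.continuous, hV.preimage hf.continuous,
        image_subset_iff.1 hAU, image_subset_iff.1 hBV, ?_, ?_⟩
      · rw [← preimage_inter]
        exact hd.preimage f
      · exact SLT.pull hf hL

theorem SLT.push {f : X → Y} (hf : IsInducing f) :
    ∀ {n : ℕ} {S : Set X}, SLT n S → (∀ x y, f x = f y → x ∈ S → y ∈ S) → SLT n (f '' S)
  | 0, S, h, _ => by
      simp only [SLT] at h ⊢
      simp [h]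
  | n + 1, S, h, hS => by
      intro A B hA hB hAS hBS hAB
      have key : ∀ C : Set Y, C ⊆ f '' S → f ⁻¹' C ⊆ S := by
        intro C hC x hx
        obtain ⟨y, hy, hxy⟩ := hC hx
        exact hS y x hxy hy
      obtain ⟨U, V, hU, hV, hAU, hBV, hd, hL⟩ := h (f ⁻¹' A) (f ⁻¹' B)
        (hA.preimage hf.continuous) (hB.preimage hf.continuous) (key A hAS) (key B hBS)
        (hAB.preimage f)
      obtain ⟨U', hU', rfl⟩ := hf.isOpen_iff.1 hU
      obtain ⟨V', hV', rfl⟩ := hf.isOpen_iff.1 hV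
      refine ⟨U', V', hU', hV', ?_, ?_, ?_, ?_⟩
      · intro a ha
        obtain ⟨x, -, rfl⟩ := hAS ha
        exact hAU ha
      · intro a ha
        obtain ⟨x, -, rfl⟩ := hBS ha
        exact hBV ha
      · rw [disjoint_left]
        rintro _ ⟨⟨x, hx, rfl⟩, hxU⟩ hxV
        exact disjoint_left.1 hd ⟨hx, hxU⟩ hxV
      · have := SLT.push hf hL (by
          intro x y hxy hx
          refine ⟨hS x y hxy hx.1, ?_⟩
          have := hx.2
          simp only [mem_union, mem_preimage] at this ⊢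
          rwa [← hxy])
        refine this.mono ?_
        rintro _ ⟨⟨x, hx, rfl⟩, hx2⟩
        exact ⟨x, ⟨hx, hx2⟩, rfl⟩

theorem SLT.image {f : X → Y} (hf : IsEmbedding f) {n : ℕ} {S : Set X} (h : SLT n S) :
    SLT n (f '' S) :=
  h.push hf.isInducing (fun x y hxy hx => hf.injective hxy ▸ hx)

theorem indLT_iff : ∀ (n : ℕ) (X : Type) [TopologicalSpace X], IndLT n X ↔ SLT n (univ : Set X)
  | 0, X, _ => by simp [IndLT, SLT, univ_eq_empty_iff]
  | n + 1, X, _ => by
      constructor
      · intro h A B hA hB _ _ hAB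
        obtain ⟨V, hV, hAV, hVB, hF⟩ := h A Bᶜ hA hB.isOpen_compl hAB.subset_compl_right
        refine ⟨V, (closure V)ᶜ, hV, isClosed_closure.isOpen_compl, hAV,
          subset_compl_comm.1 hVB, ?_, ?_⟩
        · exact disjoint_left.2 fun x hx hx' => hx' (subset_closure hx.2)
        · have := ((indLT_iff n (frontier V)).1 hF).image IsEmbedding.subtypeVal
          refine this.mono ?_
          intro x hx
          simp only [mem_diff, mem_univ, mem_union, mem_compl_iff, not_or, not_not,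
            true_and] at hx
          refine ⟨⟨x, ?_⟩, trivial, rfl⟩
          rw [hV.frontier_eq]
          exact ⟨hx.2, hx.1⟩
      · intro h A U hA hU hAU
        obtain ⟨V, W, hV, hW, hAV, hUW, hd, hL⟩ := h A Uᶜ hA hU.isClosed_compl (subset_univ _)
          (subset_univ _) (disjoint_compl_right_iff_subset.2 hAU)
        have hcl : closure V ⊆ Wᶜ := by
          refine closure_minimal ?_ hW.isClosed_compl
          intro x hx
          exact disjoint_left.1 hd ⟨trivial, hx⟩
        refine ⟨V, hV, hAV, ?_, ?_⟩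
        · intro x hx
          by_contra hxU
          exact hcl hx (hUW hxU)
        · rw [indLT_iff]
          have h1 : SLT n (frontier V) := by
            refine hL.mono ?_
            intro x hx
            rw [hV.frontier_eq] at hx
            exact ⟨trivial, fun h => h.elim hx.2 (hcl hx.1)⟩
          have := h1.pull (isClosed_frontier (s := V)).isClosedEmbedding_subtypeVal
          simpa using this

theorem SLT.succ : ∀ {n : ℕ} {S : Set X}, SLT n S → SLT (n + 1) S
  | 0, S, h => by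
      simp only [SLT] at h
      subst h
      exact SLT.empty _
  | n + 1, S, h => by
      intro A B hA hB hAS hBS hAB
      obtain ⟨U, V, hU, hV, hAU, hBV, hd, hL⟩ := h A B hA hB hAS hBS hAB
      exact ⟨U, V, hU, hV, hAU, hBV, hd, hL.succ⟩

theorem SLT.le {n m : ℕ} {S : Set X} (h : SLT n S) (hnm : n ≤ m) : SLT m S := by
  induction hnm with
  | refl => exact h
  | step _ ih => exact ih.succ

theorem ind_le {n : ℕ} (h : SLT n (univ : Set X)) : Ind X ≤ (((n : ℤ) - 1 : ℤ) : WithTop ℤ) := by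
  have h' := (indLT_iff n X).2 h
  have hex : ∃ n, IndLT n X := ⟨n, h'⟩
  classical
  unfold Ind
  rw [dif_pos hex]
  have := Nat.find_min' hex h'
  exact_mod_cast (by omega : ((Nat.find hex : ℕ) : ℤ) - 1 ≤ (n : ℤ) - 1)

theorem le_ind {n : ℕ} (h : ¬ SLT n (univ : Set X)) : ((n : ℤ) : WithTop ℤ) ≤ Ind X := by
  classical
  unfold Ind
  split_ifs with hex
  · have h1 := (indLT_iff _ X).1 (Nat.find_spec hex)
    have h2 : n < Nat.find hex := by
      by_contra h3
      exact h (h1.le (by omega))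
    exact_mod_cast (by omega : (n : ℤ) ≤ ((Nat.find hex : ℕ) : ℤ) - 1)
  · exact le_top

/-- In a completely normal space the two open sets can be taken disjoint. -/
theorem SLT.disj [CompletelyNormalSpace X] {n : ℕ} {S : Set X} (h : SLT (n + 1) S)
    {A B : Set X} (hA : IsClosed A) (hB : IsClosed B) (hAS : A ⊆ S) (hBS : B ⊆ S)
    (hAB : Disjoint A B) :
    ∃ U V : Set X, IsOpen U ∧ IsOpen V ∧ A ⊆ U ∧ B ⊆ V ∧ Disjoint U V ∧
        SLT n (S \ (U ∪ V)) := by
  obtain ⟨U, V, hU, hV, hAU, hBV, hd, hL⟩ := h A B hA hB hAS hBS hAB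
  have h1 : Disjoint (closure (S ∩ U)) (S ∩ V) :=
    (hd.closure_left hV).mono_right inter_subset_right
  have h2 : Disjoint (S ∩ U) (closure (S ∩ V)) := by
    have : Disjoint U (S ∩ V) := by
      rw [disjoint_left] at hd ⊢
      exact fun x hx hx' => hd ⟨hx'.1, hx⟩ hx'.2
    exact (this.closure_right hU).mono_left inter_subset_right
  have h3 := CompletelyNormalSpace.completely_normal h1 h2
  obtain ⟨U', V', hU', hV', hSU, hSV, hd'⟩ := separatedNhds_iff_disjoint.2 h3
  refine ⟨U', V', hU', hV', fun x hx => hSU ⟨hAS hx, hAU hx⟩, fun x hx => hSV ⟨hBS hx, hBV hx⟩,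
    hd', hL.mono ?_⟩
  rintro x ⟨hxS, hx⟩
  exact ⟨hxS, fun h => hx (h.elim (fun h => Or.inl (hSU ⟨hxS, h⟩))
    (fun h => Or.inr (hSV ⟨hxS, h⟩)))⟩

/-- A preconnected set with two points in a T1 space is not zero-dimensional. -/
theorem not_SLT_one [T1Space X] {S : Set X} (hS : IsPreconnected S) {a b : X} (ha : a ∈ S)
    (hb : b ∈ S) (hab : a ≠ b) : ¬ SLT 1 S := by
  intro h
  obtain ⟨U, V, hU, hV, hAU, hBV, hd, hL⟩ := h {a} {b} isClosed_singleton isClosed_singleton
    (by simpa) (by simpa) (by simpa)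
  simp only [SLT] at hL
  have hcov : S ⊆ U ∪ V := diff_eq_empty.1 hL
  obtain ⟨x, hx, hxU, hxV⟩ := hS U V hU hV hcov ⟨a, ha, hAU rfl⟩ ⟨b, hb, hBV rfl⟩
  exact disjoint_left.1 hd ⟨hx, hxU⟩ hxV

end Pool.Agent.Lib.MP_840f9c_gt
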