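import Pool.Agent.Lib.MP_840f9c_gt.One

namespace Pool.Agent.Lib.MP_840f9c_gt

open Set Topology Filter unitInterval

theorem arg_lt {φ : I → ℝ} (hφ : Continuous φ) (hs : ∀ t, 0 < Real.sin (φ t)) {a b : I}
    (ha : 0 < Real.cos (φ a)) (hb : Real.cos (φ b) < 0) : φ a < φ b := by
  by_contra h
  push Not at h
  have h1 : AntitoneOn Real.cos (Icc (φ b) (φ a)) := by
    refine antitoneOn_of_deriv_nonpos (convex_Icc _ _) Real.continuous_cos.continuousOn
      Real.differentiable_cos.differentiableOn ?_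
    intro x hx
    obtain ⟨t, rfl⟩ := intermediate_value_univ b a hφ (interior_subset hx)
    rw [Real.deriv_cos]
    linarith [hs t]
  have := h1 (left_mem_Icc.2 h) (right_mem_Icc.2 h) h
  linarith

theorem miranda {f g : I × I → ℝ} (hf : Continuous f) (hg : Continuous g)
    (hl : ∀ y, f (0, y) < 0) (hr : ∀ y, 0 < f (1, y)) (hb : ∀ x, g (x, 0) < 0)
    (ht : ∀ x, 0 < g (x, 1)) : ∃ p, f p = 0 ∧ g p = 0 := by
  by_contra hne
  push Not at hne
  let c : ℝ × ℝ → I × I := fun p => (projIcc 0 1 zero_le_one p.1, projIcc 0 1 zero_le_one p.2)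
  have hc : Continuous c := (continuous_projIcc.comp continuous_fst).prodMk
    (continuous_projIcc.comp continuous_snd)
  let F : ℝ × ℝ → ℂ := fun p => (f (c p) : ℂ) + (g (c p) : ℂ) * Complex.I
  have hF : Continuous F := by fun_prop
  have hsc : IsSimplyConnected (univ : Set (ℝ × ℝ)) :=
    (Homeomorph.Set.univ (ℝ × ℝ)).toHomotopyEquiv.simplyConnectedSpace
  obtain ⟨L, hL, hLF⟩ := Complex.exists_continuousOn_eqOn_exp_comp hsc isOpen_univ hF.continuousOn
    (by
      rintro ⟨p, -, hp⟩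
      have h1 := congrArg Complex.re hp
      have h2 := congrArg Complex.im hp
      simp [F] at h1 h2
      exact hne _ h1 h2)
  have hL' : Continuous L := continuousOn_univ.1 hL
  let φ : I × I → ℝ := fun p => (L (p.1, p.2)).im
  have hφ : Continuous φ := by fun_prop
  have key : ∀ p : I × I, ∃ r : ℝ, 0 < r ∧ f p = r * Real.cos (φ p) ∧ g p = r * Real.sin (φ p) := by
    intro p
    have h := hLF (mem_univ ((p.1 : ℝ), (p.2 : ℝ)))
    have h1 := congrArg Complex.re h
    have h2 := congrArg Complex.im h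
    simp [F, c, Complex.exp_re, Complex.exp_im] at h1 h2
    exact ⟨_, Real.exp_pos _, h1.symm, h2.symm⟩
  have cp : ∀ p, 0 < f p → 0 < Real.cos (φ p) := by
    intro p hp
    obtain ⟨r, hr, h1, -⟩ := key p
    rw [h1] at hp
    exact (pos_iff_pos_of_mul_pos hp).1 hr
  have cn : ∀ p, f p < 0 → Real.cos (φ p) < 0 := by
    intro p hp
    obtain ⟨r, hr, h1, -⟩ := key p
    rw [h1] at hp
    exact neg_of_mul_neg_left (by linarith [mul_comm r (Real.cos (φ p))]) hr.le
  have sp : ∀ p, 0 < g p → 0 < Real.sin (φ p) := by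
    intro p hp
    obtain ⟨r, hr, -, h1⟩ := key p
    rw [h1] at hp
    exact (pos_iff_pos_of_mul_pos hp).1 hr
  have sn : ∀ p, g p < 0 → Real.sin (φ p) < 0 := by
    intro p hp
    obtain ⟨r, hr, -, h1⟩ := key p
    rw [h1] at hp
    exact neg_of_mul_neg_left (by linarith [mul_comm r (Real.sin (φ p))]) hr.le
  have e1 : φ (1, 1) < φ (0, 1) :=
    arg_lt (φ := fun t => φ (t, 1)) (by fun_prop) (fun t => sp _ (ht t)) (cp _ (hr 1))
      (cn _ (hl 1))
  have e2 : φ (0, 1) - Real.pi / 2 < φ (0, 0) - Real.pi / 2 :=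
    arg_lt (φ := fun t => φ (0, t) - Real.pi / 2) (by fun_prop)
      (fun t => by rw [Real.sin_sub_pi_div_two]; linarith [cn _ (hl t)])
      (by rw [Real.cos_sub_pi_div_two]; exact sp _ (ht 0))
      (by rw [Real.cos_sub_pi_div_two]; exact sn _ (hb 0))
  have e3 : φ (0, 0) - Real.pi < φ (1, 0) - Real.pi :=
    arg_lt (φ := fun t => φ (t, 0) - Real.pi) (by fun_prop)
      (fun t => by rw [Real.sin_sub_pi]; linarith [sn _ (hb t)])
      (by rw [Real.cos_sub_pi]; linarith [cn _ (hl 0)])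
      (by rw [Real.cos_sub_pi]; linarith [cp _ (hr 0)])
  have e4 : φ (1, 0) + Real.pi / 2 < φ (1, 1) + Real.pi / 2 :=
    arg_lt (φ := fun t => φ (1, t) + Real.pi / 2) (by fun_prop)
      (fun t => by rw [Real.sin_add_pi_div_two]; exact cp _ (hr t))
      (by rw [Real.cos_add_pi_div_two]; linarith [sn _ (hb 1)])
      (by rw [Real.cos_add_pi_div_two]; linarith [sp _ (ht 1)])
  linarith

theorem sep {U V Lm Lp : Set (I × I)} (hU : IsOpen U) (hV : IsOpen V) (hd : Disjoint U V)
    (hl : ∀ y, (0, y) ∈ U) (hr : ∀ y, (1, y) ∈ V) (hLm : IsClosed Lm) (hLp : IsClosed Lp)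
    (hL : Disjoint Lm Lp) (hcov : ∀ p, p ∉ U → p ∉ V → p ∈ Lm ∨ p ∈ Lp) (hm : ∀ x, (x, 1) ∉ Lm)
    (hp : ∀ x, (x, 0) ∉ Lp) : False := by
  obtain ⟨g, hg0, hg1, -⟩ := exists_continuous_zero_one_of_isClosed
    (s := Lm ∪ {p | p.2 = 0}) (t := Lp ∪ {p | p.2 = 1})
    (hLm.union (isClosed_eq continuous_snd continuous_const))
    (hLp.union (isClosed_eq continuous_snd continuous_const)) (by
      rw [disjoint_left]
      rintro ⟨x, y⟩ (h | h) (h' | h')
      · exact disjoint_left.1 hL h h'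
      · obtain rfl : y = 1 := h'
        exact hm x h
      · obtain rfl : y = 0 := h
        exact hp x h'
      · obtain rfl : y = 0 := h
        exact zero_ne_one (α := I) h')
  have hUc : (Uᶜ).Nonempty := ⟨(1, 0), disjoint_right.1 hd (hr 0)⟩
  have hVc : (Vᶜ).Nonempty := ⟨(0, 0), disjoint_left.1 hd (hl 0)⟩
  let f : I × I → ℝ := fun p => Metric.infDist p Vᶜ - Metric.infDist p Uᶜ
  have fU : ∀ p ∈ U, f p < 0 := by
    intro p hp
    have h1 : Metric.infDist p Vᶜ = 0 := Metric.infDist_zero_of_mem (disjoint_left.1 hd hp)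
    have h2 : 0 < Metric.infDist p Uᶜ :=
      (hU.isClosed_compl.notMem_iff_infDist_pos hUc).1 (fun h => h hp)
    simp only [f]
    linarith
  have fV : ∀ p ∈ V, 0 < f p := by
    intro p hp
    have h1 : Metric.infDist p Uᶜ = 0 := Metric.infDist_zero_of_mem (disjoint_right.1 hd hp)
    have h2 : 0 < Metric.infDist p Vᶜ :=
      (hV.isClosed_compl.notMem_iff_infDist_pos hVc).1 (fun h => h hp)
    simp only [f]
    linarith
  obtain ⟨p, h1, h2⟩ := miranda (f := f) (g := fun p => 2 * g p - 1)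
    ((Metric.continuous_infDist_pt _).sub (Metric.continuous_infDist_pt _)) (by fun_prop)
    (fun y => fU _ (hl y)) (fun y => fV _ (hr y))
    (fun x => by rw [hg0 (Or.inr rfl)]; simp) (fun x => by rw [hg1 (Or.inr rfl)]; norm_num)
  rcases hcov p (fun h => (fU p h).ne h1) (fun h => (fV p h).ne' h1) with h | h
  · rw [hg0 (Or.inl h)] at h2
    simp at h2
  · rw [hg1 (Or.inl h)] at h2
    norm_num at h2

theorem not_SLT_sq : ¬ SLT 2 (univ : Set (I × I)) := by
  intro h
  obtain ⟨U, V, hU, hV, h1, h2, hd, hL⟩ := h {p | p.1 = 0} {p | p.1 = 1}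
    (isClosed_eq continuous_fst continuous_const) (isClosed_eq continuous_fst continuous_const)
    (subset_univ _) (subset_univ _)
    (disjoint_left.2 fun p h h' => zero_ne_one (α := I) (h.symm.trans h'))
  have hLc : IsClosed (univ \ (U ∪ V)) := isClosed_univ.sdiff (hU.union hV)
  obtain ⟨U', V', hU', hV', h1', h2', hd', hL'⟩ := hL ((univ \ (U ∪ V)) ∩ {p | p.2 = 0})
    ((univ \ (U ∪ V)) ∩ {p | p.2 = 1}) (hLc.inter (isClosed_eq continuous_snd continuous_const))
    (hLc.inter (isClosed_eq continuous_snd continuous_const)) inter_subset_left inter_subset_left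
    (disjoint_left.2 fun p h h' => zero_ne_one (α := I) (h.2.symm.trans h'.2))
  simp only [SLT] at hL'
  have hcov := sdiff_eq_empty.1 hL'
  refine sep hU hV (by simpa using hd) (fun y => h1 rfl) (fun y => h2 rfl)
    (hLc.sdiff hV') (hLc.sdiff hU') ?_ ?_ ?_ ?_
  · rw [disjoint_left]
    exact fun p hp hp' => (hcov hp.1).elim hp'.2 hp.2
  · intro p hp hp'
    have : p ∈ univ \ (U ∪ V) := ⟨trivial, fun h => h.elim hp hp'⟩
    by_cases hpV : p ∈ V'
    · exact Or.inr ⟨this, fun h => disjoint_left.1 hd' ⟨this, h⟩ hpV⟩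
    · exact Or.inl ⟨this, hpV⟩
  · exact fun x hx => hx.2 (h2' ⟨hx.1, rfl⟩)
  · exact fun x hx => hx.2 (h1' ⟨hx.1, rfl⟩)

end Pool.Agent.Lib.MP_840f9c_gt
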