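import Pool.Agent.Lib.MP_840f9c_gt.Base

namespace Pool.Agent.Lib.MP_840f9c_gt

open Set Topology Filter unitInterval LMC

def cc (q : I × I) : ℝ × ℝ := (q.1, q.2)

theorem continuous_cc : Continuous cc := by
  unfold cc
  fun_prop

theorem injective_cc : Function.Injective cc := fun _ _ h =>
  Prod.ext (Subtype.ext (congrArg Prod.fst h)) (Subtype.ext (congrArg Prod.snd h))

theorem cc_mem (q : I × I) : cc q ∈ Icc (0 : ℝ) 1 ×ˢ Icc (0 : ℝ) 1 := ⟨q.1.2, q.2.2⟩

theorem unif {A C : Set Bk} (hA : IsClosed A) (hC : IsClosed C) (hAC : Disjoint A C) :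
    ∃ K : ℕ, 0 < K ∧ ∀ a ∈ A, ∀ c ∈ C, ((xy a).2 : ℝ) ≤ 2 / K → ((xy c).2 : ℝ) ≤ 2 / K →
      4 / K < |((xy a).1 : ℝ) - (xy c).1| := by
  obtain ⟨ε, hε, h⟩ := ((isClosed_closure (s := xy '' A)).isCompact.prod
    (isClosed_closure (s := xy '' C)).isCompact).exists_forall_le'
    (f := fun p => |(p.1.1 : ℝ) - p.2.1| + p.1.2 + p.2.2) (by fun_prop) (a := 0) (by
      rintro ⟨⟨x, y⟩, ⟨x', y'⟩⟩ ⟨h1, h2⟩
      by_contra hh
      have a1 := abs_nonneg ((x : ℝ) - x')
      have a2 := y.2.1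
      have a3 := y'.2.1
      simp only [not_lt] at hh
      obtain rfl : y = 0 := Subtype.ext (show (y : ℝ) = 0 by linarith)
      obtain rfl : y' = 0 := Subtype.ext (show (y' : ℝ) = 0 by linarith)
      obtain rfl : x = x' := Subtype.ext (sub_eq_zero.1 (abs_eq_zero.1 (by linarith)))
      exact disjoint_left.1 hAC (bind_mem hA h1) (bind_mem hC h2))
  obtain ⟨K, hK⟩ := exists_nat_one_div_lt (show 0 < ε / 8 by positivity)
  refine ⟨K + 1, by omega, fun a ha c hc h1 h2 => ?_⟩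
  have := h (xy a, xy c) ⟨subset_closure ⟨a, ha, rfl⟩, subset_closure ⟨c, hc, rfl⟩⟩
  push_cast at h1 h2 ⊢
  rw [div_eq_mul_one_div] at h1 h2 ⊢
  linarith

theorem colour {A C : Set Bk} (hA : IsClosed A) (hC : IsClosed C) (hAC : Disjoint A C) :
    ∃ sg : Bk → ZMod 2, A ⊆ interior {b | sg b = 1} ∧ C ⊆ interior {b | sg b = 0} ∧
      SLT 2 {b | ¬ LC sg b} ∧ ∀ p : C(ℕ∞, Bk), AdmP p ∨ AdmG p →
        ∃ c v, ∀ᶠ n : ℕ in atTop, par n = c → sg (p n) = v := by
  classical
  obtain ⟨K, hK, hu⟩ := unif hA hC hAC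
  have hK' : (0 : ℝ) < K := by exact_mod_cast hK
  let AA : ZMod 2 → Set Bk := fun z => if z = 1 then A else C
  have A1 : AA 1 = A := if_pos rfl
  have A0 : AA 0 = C := if_neg (by decide)
  let χ0 : ℕ → ZMod 2 := fun c =>
    if ∃ a ∈ A, ((xy a).2 : ℝ) ≤ 2 / K ∧ |((xy a).1 : ℝ) - c / K| ≤ 2 / K then 1 else 0
  have hχ : ∀ z, ∀ a ∈ AA z, ∀ c : ℕ, ((xy a).2 : ℝ) ≤ 2 / K →
      |((xy a).1 : ℝ) - c / K| ≤ 2 / K → χ0 c = z := by
    intro z a ha c h1 h2
    rcases z01 z with rfl | rfl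
    · exact if_pos ⟨a, A1 ▸ ha, h1, h2⟩
    · refine if_neg ?_
      rintro ⟨a', ha', h3, h4⟩
      have := hu a' ha' a (A0 ▸ ha) h3 h1
      have e : (4 : ℝ) / K = 2 / K + 2 / K := by ring
      rw [abs_le] at h2 h4
      rw [lt_abs] at this
      rcases this with h | h <;> linarith [h2.1, h2.2, h4.1, h4.2]
  have hη := fun k : ℕ => (((hA.preimage (continuous_pg k)).isCompact.image continuous_cc).prod
      ((hC.preimage (continuous_pg k)).isCompact.image continuous_cc)).exists_forall_le'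
      (f := fun p => dist p.1 p.2) (by fun_prop) (a := 0) (by
        rintro ⟨_, _⟩ ⟨⟨a, ha, rfl⟩, ⟨c, hc, rfl⟩⟩
        refine dist_pos.2 fun e => ?_
        obtain rfl := injective_cc e
        exact disjoint_left.1 hAC ha hc)
  choose η hη h using hη
  choose w hw using fun k => page (denseLab k) hK χ0 (fun z => cc '' (pg k ⁻¹' AA z)) (hη k)
      (fun a ha b hb => h k (a, b) ⟨A1 ▸ ha, A0 ▸ hb⟩) (by
        rintro z _ ⟨q, hq, rfl⟩ c h1 h2
        exact hχ z _ hq c h1 h2)
  have hlt : ∀ i : ℕ, (i : ℝ) / K < (i + 1) / K := fun i =>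
    div_lt_div_of_pos_right (by linarith) hK'
  choose d d1 d2 d3 using fun c : ℕ => lab_vec (fun k => w k c) (hlt c)
  have zd : Zone d K := ⟨hK, fun c => ⟨d1 c, d2 c⟩⟩
  choose s D s0 s1 s2 s3 s4 s5 s6 using fun k => hw k d zd (fun c => d3 c k)
  let sg : Bk → ZMod 2 := fun p => ∑ u, s (exists_pg p).choose u (cc (xy p))
  have g1 : ∀ p, ((xy p).2 : ℝ) ≤ 1 / (2 * K) → sg p = χ0 (cnt d K (xy p).1) :=
    fun p hp => s6 _ _ hp
  have g2 : ∀ k q, sg (pg k q) = ∑ u, s k u (cc q) := by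
    intro k q
    by_cases hq : q.2 = 0
    · have : (q.2 : ℝ) ≤ 1 / (2 * K) := by
        rw [hq]
        positivity
      rw [g1 (pg k q) this, s6 k (cc q) this]
      rfl
    · have h1 := (exists_pg (pg k q)).choose_spec
      have h2 := congrArg (fun s : Bk => s.1.1 k) h1
      simp only [co_pg, if_true, xy_pg] at h2
      split_ifs at h2 with e
      · simp only [sg, ← e, xy_pg]
      · exact (hq (Subtype.ext h2)).elim
  have near : ∀ z, AA z ⊆ interior {b | sg b = z} := by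
    intro z a ha
    rw [mem_interior_iff_mem_nhds]
    obtain ⟨k, hk⟩ := exists_pg a
    generalize xy a = q at hk
    subst hk
    by_cases hq : q.2 = 0
    · obtain ⟨x, y⟩ := q
      obtain rfl : y = 0 := hq
      refine mem_of_superset (continuous_xy.continuousAt
        (show {q : I × I | (q.2 : ℝ) < 1 / (2 * K) ∧ |(q.1 : ℝ) - x| < 1 / K} ∈ 𝓝 (x, 0) from ?_)) ?_
      · refine IsOpen.mem_nhds (IsOpen.and (isOpen_lt ?_ ?_) (isOpen_lt ?_ ?_)) ⟨?_, ?_⟩
        any_goals fun_prop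
        all_goals simp [hK']
      · rintro p ⟨h1, h2⟩
        obtain ⟨c, hc, c1, c2⟩ := exists_col hK (xy p).1.2.1 (xy p).1.2.2
        have q4 : (2 : ℝ) / K = 1 / K + 1 / K := by ring
        have q5 : ((c : ℝ) + 1) / K = c / K + 1 / K := by ring
        rw [abs_lt] at h2
        show sg p = z
        rw [g1 p h1.le, zd.cnt_eq hc c1 c2]
        refine hχ z _ ha _ (by simp; positivity) ?_
        rw [abs_le, xy_pg]
        split_ifs <;> push_cast <;> constructor <;> linarith [h2.1, h2.2]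
    · rw [← map_pg k hq, mem_map]
      filter_upwards [continuous_cc.continuousAt.eventually (s5 k z (cc q) ⟨q, ha, rfl⟩)]
        with q' hq'
      exact (g2 k q').trans (hq' (cc_mem q'))
  refine ⟨sg, A1 ▸ near 1, A0 ▸ near 0, ?_, ?_⟩
  · let DD : Set I := {0} ∪ Subtype.val ⁻¹' ⋃ k, D k
    have hD : DD.Countable :=
      (countable_singleton _).union ((countable_iUnion s0).preimage Subtype.val_injective)
    have := hD.to_subtype
    refine (arcs (ι := ℕ × DD × Bool) (fun i t => pg i.1 (if i.2.2 then (i.2.1, t) else (t, i.2.1)))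
      (fun i => (continuous_pg _).comp (by split_ifs <;> fun_prop)) (fun i a b h => by
        have := injective_pg _ h
        split_ifs at this <;> simpa using this)).mono fun p hp => ?_
    obtain ⟨k, hk⟩ := exists_pg p
    generalize xy p = q at hk
    subst hk
    by_contra hh
    have h1 : q.1 ∉ DD := fun h => hh (mem_iUnion.2 ⟨(k, ⟨q.1, h⟩, true), q.2, rfl⟩)
    have h2 : q.2 ∉ DD := fun h => hh (mem_iUnion.2 ⟨(k, ⟨q.2, h⟩, false), q.1, rfl⟩)
    have hq : q.2 ≠ 0 := fun h => h2 (Or.inl h)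
    apply hp
    have : ∀ u, ∃ c, ∀ᶠ p' in 𝓝 (cc q), s k u p' = c := fun u => by
      simpa [side] using s1 k u (cc q) none none
        (fun _ h => h1 (Or.inr (mem_iUnion.2 ⟨k, h.1⟩)))
        (fun _ h => h2 (Or.inr (mem_iUnion.2 ⟨k, h.1⟩)))
    choose c hc using this
    refine lc_of (c := ∑ u, c u) ?_
    rw [← map_pg k hq, eventually_map]
    filter_upwards [continuous_cc.continuousAt.eventually (eventually_all.2 hc)] with q' hq'
    exact (g2 k q').trans (Finset.sum_congr rfl fun u _ => hq' u)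
  · rintro p (⟨k, q, u, ox, oy, h1, h2, h3, h4⟩ | ⟨x, b, h1, h2⟩)
    · have ht : Tendsto (fun n : ℕ => cc (q n)) atTop (𝓝 (cc (q ⊤))) :=
        ((continuous_cc.comp q.continuous).tendsto ⊤).comp ENat.tendsto_natCast_nhds_top
      obtain ⟨c, hc⟩ : ∃ c, LC (s k (u c)) (cc (q ⊤)) := by
        rcases h4 with h | ⟨h, h'⟩ | ⟨h, h'⟩
        · exact (s2 k _ (cc_mem _) _ _ h).elim (fun h => ⟨_, h⟩) (fun h => ⟨_, h⟩)
        · refine ⟨true, ?_⟩
          have := s3 k _ (q ⊤).1.2
          rwa [h, cc, h']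
        · refine ⟨true, ?_⟩
          have := s4 k _ _ h'
          rwa [cc, h]
      have : ∀ u', ∃ v, ∀ᶠ n : ℕ in atTop, par n = c → s k u' (cc (q n)) = v := by
        intro u'
        by_cases hu : u' = u c
        · exact ⟨_, (ht.eventually hc).mono fun n hn _ => hu ▸ hn⟩
        · obtain ⟨v, hv⟩ := s1 k u' (cc (q ⊤)) (ox c) (oy c)
            (fun e h => hu (h.2.symm.trans ((h2 c).1 e)))
            (fun e h => hu (h.2.symm.trans ((h2 c).2 e)))
          exact ⟨v, (ht.eventually hv).mono fun n hn e => hn (e ▸ (h3 n).1) (e ▸ (h3 n).2)⟩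
      choose v hv using this
      refine ⟨c, ∑ u', v u', (eventually_all.2 hv).mono fun n hn e => ?_⟩
      rw [h1, g2]
      exact Finset.sum_congr rfl fun u' _ => hn u' e
    · have ht : Tendsto (fun n : ℕ => cc (xy (p n))) atTop (𝓝 (x, 0)) := by
        have := ((continuous_cc.comp (continuous_xy.comp p.continuous)).tendsto ⊤).comp
          ENat.tendsto_natCast_nhds_top
        have e : (cc ∘ xy ∘ p) ⊤ = ((x : ℝ), 0) := by simp [h1, cc]
        rwa [e] at this
      obtain ⟨v, hv⟩ := zd.split (D := univ) χ0 (fun _ _ _ => trivial) x (some b) (by simp)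
      refine ⟨true, v, ?_⟩
      filter_upwards [((continuous_fst.tendsto _).comp ht).eventually hv,
        ((continuous_snd.tendsto _).comp ht).eventually
          (gt_mem_nhds (show (0 : ℝ) < 1 / (2 * K) by positivity))] with n a1 a2 _
      rw [g1 _ (le_of_lt a2)]
      exact a1 (h2 n)

theorem SLT_YY : SLT 3 (univ : Set YY) := by
  refine up isClosed_univ lf_YY (fun i => SLT_RR) ?_
  intro A C hA hC hAC
  obtain ⟨sg, h1, h2, h3, h4⟩ := colour hA hC hAC
  refine ⟨_, _, isOpen_interior, isOpen_interior, h1, h2, ?_, h3.mono fun b hb h => hb ?_,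
    fun i => ?_⟩
  · refine Disjoint.mono interior_subset interior_subset (disjoint_left.2 fun e h h' => ?_)
    exact absurd ((show sg e = 1 from h).symm.trans h') (by decide)
  · rcases z01 (sg b) with e | e
    · exact Or.inl (mem_interior_iff_mem_nhds.2 (e ▸ h))
    · exact Or.inr (mem_interior_iff_mem_nhds.2 (e ▸ h))
  · obtain ⟨c, v, hv⟩ := h4 i.2.1 i.2.2.2
    obtain ⟨U, V, a1, a2, a3, a4, a5, a6, a7⟩ := RR_up i.2.1 sg c v hv
    refine ⟨U, V, a1, a2, fun e _ => a3 e, fun e _ => a4 e, a5.mono_left inter_subset_right,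
      a6.mono fun e he => he.2, fun e he e' he' => ?_⟩
    simp [a7 e he.2, a7 e' he'.2]

end Pool.Agent.Lib.MP_840f9c_gt
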